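import Pool.Agent.MP_b0afd3_gt.H50.Flow

set_option autoImplicit false

namespace Pool.Agent.MP_b0afd3_gt.H50

open Real Filter Topology Pool.Agent.MP_b0afd3_gt.H80 Matrix MeasureTheory

variable {k : ℕ} {V : Finset (ℕ × ℕ × ℕ)} {T : Finset (ℕ × ℕ × ℕ × ℕ)} {n : ℕ → V4}
  {o : ℕ → ℕ → V4} {u : ℕ × ℕ × ℕ → V4} {x : V4}

theorem Dec.fut (h : Dec n o u k V T) (hV : ∀ t ∈ V, mink (u t) (u t) ≤ 0 ∧ 0 < u t 0)
    (hx : ∀ a < k, mink (n a) x < 0) : Fut x := by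
  have c : Continuous fun τ : ℝ => x - τ • (![1, 0, 0, 0] : V4) := by fun_prop
  have := c.tendsto' 0 x (by rw [zero_smul, sub_zero])
  obtain ⟨τ, τ0, f⟩ := ((eventually_all_finite (Set.finite_lt_nat k)).2 fun a p =>
    (((mk_cont (n a)).tendsto _).comp this).eventually (gt_mem_nhds (hx a p))).exists_gt
  obtain ⟨-, k1, k2⟩ := h.cone hV fun a p => (f a p).le
  simp only [mink, Pi.sub_apply, Pi.smul_apply, cons_val, smul_eq_mul] at k1 k2
  exact ⟨by linarith, by simp only [mink]; nlinarith⟩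

theorem Wk.gt {x y z : ℝ} (h : Wk 0 x y z) (g : vtx (cos x) (cos y) (cos z) < 0) :
    2 * π < x + y + z := by
  rcases lt_trichotomy (x + y + z) (2 * π) with k | k | k
  · exact absurd (h.tri k).vtx_pos g.not_gt
  · simp [vtx_sin, k] at g
  · exact k

theorem Ed.symm {a b : ℕ} (h : Ed n k a b x) : Ed n k b a x :=
  ⟨h.f, h.z2, h.z1, fun c p q r => h.lt c p r q⟩

/-- proper polyhedral cones -/
structure Cp (n : ℕ → V4) (o : ℕ → ℕ → V4) (u : ℕ × ℕ × ℕ → V4) (k : ℕ)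
    (V : Finset (ℕ × ℕ × ℕ)) : Prop extends Geo n o u k V where
  fut : ∀ t ∈ V, mink (u t) (u t) ≤ 0 → 0 < u t 0
  pv : ∀ s ∈ V, 0 < mink (u s) (u s) → ∀ t ∈ V, t ≠ s → mink (u s) (u t) < 0
  po : ∀ s ∈ V, 0 < mink (u s) (u s) → ∀ i j l, (i, j, l) ∈ V →
    mink (u s) (o j l) < 0 ∧ mink (u s) (o i l) < 0 ∧ mink (u s) (o i j) < 0

/-- the truncated cone -/
def tc (n : ℕ → V4) (u : ℕ × ℕ × ℕ → V4) (k : ℕ) (V : Finset (ℕ × ℕ × ℕ)) : Set V4 :=
  {x | (∀ a < k, mink (n a) x < 0) ∧ ∀ s, s ∈ V ∧ 0 < mink (u s) (u s) → mink (u s) x < 0}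

theorem caps (N : ℕ) : ∀ k V T n o u, Blow k V T → Cp n o u k V →
    (V.filter fun s => 0 < mink (u s) (u s)).card = N → (∀ x ∈ tc n u k V, Fut x) ∧
    ∑ q ∈ T, ap W (Nq n q) = (∫ x in tc n u k V, E x) / 2 := by
  induction N with
  | zero =>
    intro k V T n o u h g c
    have c := Finset.filter_eq_empty_iff.1 (Finset.card_eq_zero.1 c)
    obtain ⟨u', e, d⟩ := h.dec u g.toGeo
    have hV : ∀ t ∈ V, mink (u' t) (u' t) ≤ 0 ∧ 0 < u' t 0 := fun t p =>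
      e t (.inl p) ▸ ⟨not_lt.1 (c p), g.fut t p (not_lt.1 (c p))⟩
    have : tc n u k V = {x | ∀ a < k, mink (n a) x < 0} :=
      Set.ext fun x => and_iff_left fun s p => absurd p.2 (c p.1)
    exact this ▸ ⟨fun x => d.fut hV, d.total hV⟩
  | succ N ih =>
    intro k V T n o u h g c
    obtain ⟨⟨i, j, l⟩, m⟩ := Finset.card_pos.1 (N.succ_pos.trans_eq c.symm)
    obtain ⟨t1, t2⟩ := Finset.mem_filter.1 m
    have s := h.sort.2.1
    have s0 := s _ _ _ t1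
    have I := g.vx _ _ _ t1
    obtain ⟨v, hv⟩ : ∃ v, v = u (i, j, l) := ⟨_, rfl⟩
    have pv := g.pv _ t1 t2
    have po := g.po _ t1 t2
    rw [← hv] at t2 I pv po
    have r := inv_pos.2 (sqrt_pos.2 t2)
    obtain ⟨n', n1, n2⟩ : ∃ n' : ℕ → V4, (∀ c < k, n' c = n c) ∧ n' k = (√(mink v v))⁻¹ • v :=
      ⟨Function.update n k _, fun c p => Function.update_of_ne p.ne _ _, Function.update_self _ _ _⟩
    have n3 : ∀ y, mink (n' k) y < 0 ↔ mink v y < 0 := fun y => by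
      rw [n2, smul_mk, ← neg_pos, ← mul_neg, mul_pos_iff_of_pos_left r, neg_pos]
    have n4 : ∀ y, mink v y = 0 → mink (n' k) y = 0 := fun y p => by rw [n2, smul_mk, p, mul_zero]
    have L : ∀ {y c}, (c < k → mink (n c) y < 0) → (c = k → mink v y < 0) → c < k + 1 →
        mink (n' c) y < 0 := fun {y c} p q w => by
      rcases (Nat.lt_succ_iff.1 w).lt_or_eq with w | w
      exacts [n1 c w ▸ p w, w ▸ (n3 y).2 (q w)]
    let Q := fun a b z => Ed n k a b z ∧ mink v z = 0 ∧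
      ∀ s ∈ V, 0 < mink (u s) (u s) → s ≠ (i, j, l) → mink (u s) z < 0
    have K : ∀ a b y, Ed n k a b y → mink (n a) v = 0 → mink (n b) v = 0 →
        (∀ s ∈ V, 0 < mink (u s) (u s) → mink (u s) y < 0) → ∃ z, Q a b z := fun a b y e p q w => by
      have w0 := div_pos (neg_pos.2 (hv ▸ w _ t1 (hv ▸ t2) : mink v y < 0)) t2
      have z : mink v (y + (-mink v y / mink v v) • v) = 0 := by simp [t2.ne']
      have z1 : mink y (y + (-mink v y / mink v v) • v) < 0 := by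
        simp only [mk_add, mk_smul, mk_comm y v]
        nlinarith [e.f.2, (div_pos_iff_of_pos_right t2).1 w0]
      have z2 : mink (y + (-mink v y / mink v v) • v) (y + (-mink v y / mink v v) • v) < 0 := by
        rwa [add_mk, smul_mk, z, mul_zero, add_zero]
      refine ⟨y + (-mink v y / mink v v) • v, ⟨⟨e.f.pos z2.le z1, z2⟩, by simp [e.z1, p],
        by simp [e.z2, q], fun c c0 c1 c2 => ?_⟩, z, fun s s1 s2 s3 => ?_⟩ <;> rw [mk_add, mk_smul]
      · linarith [e.lt c c0 c1 c2, mul_nonpos_of_nonneg_of_nonpos w0.le (I.le c c0)]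
      · linarith [w s s1 s2, mul_neg_of_pos_of_neg w0 (hv ▸ g.pv s s1 s2 _ t1 s3.symm)]
    obtain ⟨e1, e2, e3⟩ := g.ed _ _ _ t1
    obtain ⟨z1, q1⟩ := K j l _ e1 I.z2 I.z3 fun s p q => (g.po s p q _ _ _ t1).1
    obtain ⟨z2, q2⟩ := K i l _ e2 I.z1 I.z3 fun s p q => (g.po s p q _ _ _ t1).2.1
    obtain ⟨z3, q3⟩ := K i j _ e3 I.z1 I.z2 fun s p q => (g.po s p q _ _ _ t1).2.2
    obtain ⟨u', u0, u1, u2, u3⟩ : ∃ u' : ℕ × ℕ × ℕ → V4, (∀ t ∈ V, u' t = u t) ∧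
        u' (j, l, k) = z1 ∧ u' (i, l, k) = z2 ∧ u' (i, j, k) = z3 :=
      ⟨fun t => if t.2.2 = k then if t.1 = j then z1 else if t.2.1 = l then z2 else z3 else u t,
        fun t p => if_neg (s _ _ _ p).2.2.ne, by simp, by simp [s0.1.ne], by simp [s0.1.ne, s0.2.1.ne]⟩
    obtain ⟨o', o0, o1, o2, o3⟩ : ∃ o' : ℕ → ℕ → V4, (∀ a, ∀ b < k, o' a b = o a b) ∧
        o' i k = z3 + z2 ∧ o' j k = z3 + z1 ∧ o' l k = z2 + z1 :=
      ⟨fun a b => if b = k then if a = i then z3 + z2 else if a = j then z3 + z1 else z2 + z1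
        else o a b, fun a b p => if_neg p.ne, by simp, by simp [s0.1.ne'],
        by simp [s0.2.1.ne', (s0.1.trans s0.2.1).ne']⟩
    have A : ∀ {a b y}, a < k → b < k → Ed n k a b y → mink v y < 0 → Ed n' (k + 1) a b (y) :=
      fun p q e w => ⟨e.f, n1 _ p ▸ e.z1, n1 _ q ▸ e.z2, fun c c0 c1 c2 =>
        L (fun w => e.lt c w c1 c2) (fun _ => w) c0⟩
    have B : ∀ {a b z}, a < k → b < k → Q a b z → Inc n' (k + 1) a b k z := fun p q e =>
      ⟨n1 _ p ▸ e.1.z1, n1 _ q ▸ e.1.z2, n4 _ e.2.1, fun c c0 c1 c2 c3 =>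
        L (fun w => e.1.lt c w c1 c2) (fun w => absurd w c3) c0⟩
    have C : ∀ {a b c y z}, a < k → b ≠ c → Ed n k a b y → Ed n k a c z → mink v y = 0 →
        mink v z = 0 → Ed n' (k + 1) a k (y + z) := fun {a b c y z} p q e f w w' =>
      ⟨e.f.add f.f.2.le f.f.1, by simp [n1 _ p, e.z1, f.z1], by simp [n4 _ w, n4 _ w'],
        fun d d0 d1 d2 => L (fun d3 => by
          rw [mk_add]
          by_cases c1 : d = b
          · linarith [f.lt d d3 d1 (c1 ▸ q), (c1 ▸ e.z2 : mink (n d) y = 0)]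
          by_cases c2 : d = c
          · linarith [e.lt d d3 d1 c1, (c2 ▸ f.z2 : mink (n d) z = 0)]
          · linarith [e.lt d d3 d1 c1, f.lt d d3 d1 c2]) (fun w => absurd w d2) d0⟩
    have Ci := o1 ▸ C (by omega) s0.2.1.ne q3.1 q2.1 q3.2.1 q2.2.1
    have Cj := o2 ▸ C (by omega) (s0.1.trans s0.2.1).ne q3.1.symm q1.1 q3.2.1 q1.2.1
    have Cl := o3 ▸ C (by omega) s0.1.ne q2.1.symm q1.1.symm q2.2.1 q1.2.1
    obtain ⟨p1, p2, p3⟩ := po _ _ _ t1
    have G : Geo n' o' u' (k + 1) (nx V i j l k) := ⟨fun c p => by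
      rcases (Nat.lt_succ_iff.1 p).lt_or_eq with w | rfl
      · exact n1 c w ▸ g.unit c w
      · rw [n2, mk_smul, smul_mk, ← mul_assoc, ← mul_inv, mul_self_sqrt t2.le,
          inv_mul_cancel₀ t2.ne'], fun a b d p => by
      rcases mem_nx.1 p with p | ⟨⟨⟩⟩ | ⟨⟨⟩⟩ | ⟨⟨⟩⟩
      · have := s _ _ _ p.2
        have e := g.vx _ _ _ p.2
        exact u0 _ p.2 ▸ ⟨n1 a (by omega) ▸ e.z1, n1 b (by omega) ▸ e.z2, n1 d (by omega) ▸ e.z3,
          fun c c0 c1 c2 c3 => L (fun w => e.lt c w c1 c2 c3) (fun _ => pv _ p.2 p.1) c0⟩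
      exacts [u1 ▸ B (by omega) (by omega) q1, u2 ▸ B (by omega) (by omega) q2,
        u3 ▸ B (by omega) (by omega) q3], fun a b d p => by
      rcases mem_nx.1 p with p | ⟨⟨⟩⟩ | ⟨⟨⟩⟩ | ⟨⟨⟩⟩
      · have := s _ _ _ p.2
        obtain ⟨e1, e2, e3⟩ := g.ed _ _ _ p.2
        obtain ⟨p1, p2, p3⟩ := po _ _ _ p.2
        rw [o0 b d (by omega), o0 a d (by omega), o0 a b (by omega)]
        exact ⟨A (by omega) (by omega) e1 p1, A (by omega) (by omega) e2 p2,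
          A (by omega) (by omega) e3 p3⟩
      exacts [⟨Cl, Cj, o0 j l (by omega) ▸ A (by omega) (by omega) e1 p1⟩,
        ⟨Cl, Ci, o0 i l (by omega) ▸ A (by omega) (by omega) e2 p2⟩,
        ⟨Cj, Ci, o0 i j (by omega) ▸ A (by omega) (by omega) e3 p3⟩]⟩
    have key : ∀ t, t ∈ nx V i j l k ∧ 0 < mink (u' t) (u' t) ↔
        t ≠ (i, j, l) ∧ t ∈ V ∧ 0 < mink (u t) (u t) := fun t => ⟨fun p => by
      rcases mem_nx.1 p.1 with q | rfl | rfl | rfl
      exacts [⟨q.1, q.2, u0 t q.2 ▸ p.2⟩, absurd p.2 (u1 ▸ q1.1.f.2.not_gt),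
        absurd p.2 (u2 ▸ q2.1.f.2.not_gt), absurd p.2 (u3 ▸ q3.1.f.2.not_gt)],
      fun p => ⟨mem_nx.2 (.inl ⟨p.1, p.2.1⟩), (u0 t p.2.1).symm ▸ p.2.2⟩⟩
    have := ih _ _ _ n' o' u' (h.step k V T i j l t1) ⟨G, fun t p => by
      rcases mem_nx.1 p with q | rfl | rfl | rfl
      exacts [(u0 t q.2).symm ▸ g.fut t q.2, fun _ => u1 ▸ q1.1.f.1, fun _ => u2 ▸ q2.1.f.1,
        fun _ => u3 ▸ q3.1.f.1], fun t p q t' p' w => by
      obtain ⟨a1, a2, a3⟩ := (key t).1 ⟨p, q⟩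
      rw [u0 t a2]
      rcases mem_nx.1 p' with q | rfl | rfl | rfl
      exacts [(u0 _ q.2).symm ▸ g.pv t a2 a3 _ q.2 w, u1 ▸ q1.2.2 t a2 a3 a1, u2 ▸ q2.2.2 t a2 a3 a1,
        u3 ▸ q3.2.2 t a2 a3 a1], fun t p q a b d p' => by
      obtain ⟨a1, a2, a3⟩ := (key t).1 ⟨p, q⟩
      have b1 := q1.2.2 t a2 a3 a1
      have b2 := q2.2.2 t a2 a3 a1
      have b3 := q3.2.2 t a2 a3 a1
      obtain ⟨b4, b5, b6⟩ := g.po t a2 a3 _ _ _ t1
      rw [u0 t a2]
      rcases mem_nx.1 p' with p | ⟨⟨⟩⟩ | ⟨⟨⟩⟩ | ⟨⟨⟩⟩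
      · have := s _ _ _ p.2
        rw [o0 b d (by omega), o0 a d (by omega), o0 a b (by omega)]
        exact g.po t a2 a3 _ _ _ p.2
      all_goals
        simp only [o1, o2, o3, o0 _ l s0.2.2, o0 _ j (by omega), mk_add]
        exact ⟨by linarith, by linarith, by linarith⟩⟩ (by
      rw [show Finset.filter _ _ = (V.filter fun s => 0 < mink (u s) (u s)).erase (i, j, l) from
        Finset.ext fun t => by simpa only [Finset.mem_filter, Finset.mem_erase] using key t,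
        Finset.card_erase_of_mem m, c]
      rfl)
    have e : tc n' u' (k + 1) (nx V i j l k) = tc n u k V := Set.ext fun x => by
      simp only [tc, Set.mem_ofPred_eq, Nat.forall_lt_succ_right, key, n3]
      refine ⟨fun p => ⟨fun a w => n1 a w ▸ p.1.1 a w, fun t w => ?_⟩, fun p => ⟨⟨fun a w =>
        (n1 a w).symm ▸ p.1 a w, hv ▸ p.2 _ ⟨t1, hv ▸ t2⟩⟩, fun t w => (u0 t w.2.1).symm ▸ p.2 t w.2⟩⟩
      by_cases c : t = (i, j, l)
      · exact c ▸ hv ▸ p.1.2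
      · exact u0 t w.1 ▸ p.2 t ⟨c, w⟩
    have P := G.pq (x := -v) (by omega) nx1 nx2 nx3 (by simp [n1 i (by omega), I.z1])
      (by simp [n1 j (by omega), I.z2]) (by simp [n1 l (by omega), I.z3]) ((n3 _).2 (by simpa using t2))
    have X : ∀ a < k, mink (n a) v = 0 → xi (n' a) (n' k) = π / 2 := fun a p q => by
      rw [xi, n1 a p, n2, mk_smul, q, mul_zero, neg_zero, arccos_zero]; ring
    have w0 : ap W (Nq n' (i, j, l, k)) = 0 := by
      have w := P.wk4.t4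
      have d := P.gd
      simp only [ap, Nq, cons_val, X i (by omega) I.z1, X j (by omega) I.z2, X l s0.2.2 I.z3,
        gd_cap] at w d ⊢
      exact cap (by simpa using w.2.1) (by simpa using w.2.2.1) (by simpa using w.2.2.2) (w.gt d)
    rw [e, Finset.sum_insert h.notMem, w0, zero_add] at this
    refine ⟨this.1, (Finset.sum_congr rfl fun ⟨a, b, d, f⟩ p => ?_).trans this.2⟩
    have := h.sort.2.2 _ _ _ _ p
    simp only [Nq, n1 a (by omega), n1 b (by omega), n1 d (by omega), n1 f (by omega)]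

end Pool.Agent.MP_b0afd3_gt.H50
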