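import Pool.Agent.MP_b0afd3_gt.H79.Defs

set_option autoImplicit false

namespace Pool.Agent.MP_b0afd3_gt.H50

open Pool.Agent.MP_b0afd3_gt.H80 Pool.Agent.MP_b0afd3_gt.H79

/-- `Blow k V T`: a planar trivalent graph with the faces `0, …, k - 1`, obtained from the
tetrahedral graph by replacing vertices by triangles. `V` is the set of its vertices, each given by
its three faces; `T` lists the tetrahedral graph and, for every move, the three faces of the replaced
vertex with the new triangle. -/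
inductive Blow : ℕ → Finset (ℕ × ℕ × ℕ) → Finset (ℕ × ℕ × ℕ × ℕ) → Prop
  | base : Blow 4 {(1, 2, 3), (0, 2, 3), (0, 1, 3), (0, 1, 2)} {(0, 1, 2, 3)}
  | step (k : ℕ) (V : Finset (ℕ × ℕ × ℕ)) (T : Finset (ℕ × ℕ × ℕ × ℕ)) (i j l : ℕ) :
      Blow k V T → (i, j, l) ∈ V →
      Blow (k + 1) (V.erase (i, j, l) ∪ {(j, l, k), (i, l, k), (i, j, k)}) (insert (i, j, l, k) T)

/-- The vertex `t` lies on the face `a`. -/
def Mem (a : ℕ) (t : ℕ × ℕ × ℕ) : Prop := a = t.1 ∨ a = t.2.1 ∨ a = t.2.2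

/-- The square of the Euclidean norm. -/
def sq3 (x : Fin 3 → ℝ) : ℝ := x 0 ^ 2 + x 1 ^ 2 + x 2 ^ 2

/-- A proper generalized hyperbolic polyhedron in the Klein model, with the vertices `p t` for
`t ∈ V` and the outer unit normals `n a` for `a < k`: every edge meets the open ball, and no regular
vertex is cut off by the polar plane of a hyperideal vertex or lies on it. -/
structure Poly (k : ℕ) (V : Finset (ℕ × ℕ × ℕ)) (n : ℕ → Fin 4 → ℝ)
    (p : ℕ × ℕ × ℕ → Fin 3 → ℝ) : Prop where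
  unit : ∀ a < k, mink (n a) (n a) = 1
  face : ∀ t ∈ V, ∀ a < k, Mem a t → mink (n a) (lift (p t)) = 0
  outer : ∀ t ∈ V, ∀ a < k, ¬Mem a t → mink (n a) (lift (p t)) < 0
  edge : ∀ s ∈ V, ∀ t ∈ V, s ≠ t → (∃ a b, a ≠ b ∧ Mem a s ∧ Mem b s ∧ Mem a t ∧ Mem b t) →
    ∃ x ∈ segment ℝ (p s) (p t), sq3 x < 1
  proper : ∀ s ∈ V, ∀ t ∈ V, 1 < sq3 (p s) → sq3 (p t) < 1 → mink (lift (p s)) (lift (p t)) < 0

/-- The polyhedron with its hyperideal vertices cut off by their polar planes. -/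
def cut (k : ℕ) (V : Finset (ℕ × ℕ × ℕ)) (n : ℕ → Fin 4 → ℝ) (p : ℕ × ℕ × ℕ → Fin 3 → ℝ) :
    Set (Fin 3 → ℝ) :=
  {x | sq3 x < 1 ∧ (∀ a < k, mink (n a) (lift x) ≤ 0) ∧
    ∀ s ∈ V, 1 < sq3 (p s) → mink (lift (p s)) (lift x) ≤ 0}

open Classical in
/-- The absolute value of the bracket of the graph, by the triangle move: the product of the
brackets of the tetrahedral graphs, and zero if one of their colourings is not admissible. -/
noncomputable def brk (T : Finset (ℕ × ℕ × ℕ × ℕ)) (r : ℕ) (c : Sym2 ℕ → ℕ) : ℝ :=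
  if ∀ i j l k, (i, j, l, k) ∈ T → Adm r (c s(j, l)) (c s(i, l)) (c s(i, j)) then
    ∏ q ∈ T, piece r c q.1 q.2.1 q.2.2.1 q.2.2.2 else 0

end Pool.Agent.MP_b0afd3_gt.H50
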