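import Pool.Agent.MP_b0afd3_gt.H50.Gauss
import Pool.Agent.MP_b0afd3_gt.H50.Defs

set_option autoImplicit false

namespace Pool.Agent.MP_b0afd3_gt.H50

open Real Filter Topology Pool.Agent.MP_b0afd3_gt.H80 Matrix MeasureTheory

variable {k i j l m : ℕ} {V : Finset (ℕ × ℕ × ℕ)} {T : Finset (ℕ × ℕ × ℕ × ℕ)}

/-- the vertices after a move -/
abbrev nx (V : Finset (ℕ × ℕ × ℕ)) (i j l k : ℕ) := V.erase (i, j, l) ∪ {(j, l, k), (i, l, k), (i, j, k)}

theorem mem_nx {t : ℕ × ℕ × ℕ} : t ∈ nx V i j l k ↔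
    (t ≠ (i, j, l) ∧ t ∈ V) ∨ t = (j, l, k) ∨ t = (i, l, k) ∨ t = (i, j, k) := by
  simp only [Finset.mem_union, Finset.mem_erase, Finset.mem_insert, Finset.mem_singleton]

theorem nx1 : (j, l, k) ∈ nx V i j l k := mem_nx.2 (.inr (.inl rfl))
theorem nx2 : (i, l, k) ∈ nx V i j l k := mem_nx.2 (.inr (.inr (.inl rfl)))
theorem nx3 : (i, j, k) ∈ nx V i j l k := mem_nx.2 (.inr (.inr (.inr rfl)))

theorem Blow.sort (h : Blow k V T) : 4 ≤ k ∧ (∀ i j l, (i, j, l) ∈ V → i < j ∧ j < l ∧ l < k) ∧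
    ∀ i j l m, (i, j, l, m) ∈ T → i < j ∧ j < l ∧ l < m ∧ m < k := by
  induction h with
  | base => exact ⟨le_rfl, fun i j l g => by simp at g; omega, fun i j l m g => by simp at g; omega⟩
  | step k V T i j l _ g ih =>
    have := ih.2.1 _ _ _ g
    refine ⟨by omega, fun a b c p => ?_, fun a b c d p => ?_⟩
    · rcases mem_nx.1 p with p | p
      · have := ih.2.1 _ _ _ p.2; omega
      · simp at p; omega
    · rcases Finset.mem_insert.1 p with p | p
      · simp at p; omega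
      · have := ih.2.2 _ _ _ _ p; omega

theorem Blow.two (h : Blow k V T) : (∀ a < k, ∃ t ∈ V, Mem a t) ∧ ∀ t ∈ V, ∀ a b, a ≠ b →
    Mem a t → Mem b t → ∃ s ∈ V, s ≠ t ∧ Mem a s ∧ Mem b s := by
  induction h with
  | base =>
    refine ⟨fun a g => by simp [Mem]; omega, fun t g a b p => ?_⟩
    simp only [Finset.mem_insert, Finset.mem_singleton] at g
    rcases g with rfl | rfl | rfl | rfl <;> simp [Mem] <;> omega
  | step k V T i j l h g ih =>
    have s := h.sort.2.1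
    have s0 := s _ _ _ g
    have key : ∀ a b, a ≠ b → Mem a (i, j, l) → Mem b (i, j, l) →
        ∃ s ∈ nx V i j l k, s.2.2 = k ∧ Mem a s ∧ Mem b s := fun a b p q r => by
      simp only [Mem] at q r
      by_cases c1 : a ≠ i ∧ b ≠ i
      · exact ⟨_, nx1, rfl, by simp only [Mem]; omega⟩
      by_cases c2 : a ≠ j ∧ b ≠ j
      · exact ⟨_, nx2, rfl, by simp only [Mem]; omega⟩
      · exact ⟨_, nx3, rfl, by simp only [Mem]; omega⟩
    refine ⟨fun a p => ?_, fun t p a b q r w => ?_⟩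
    · by_cases c1 : Mem a (j, l, k)
      · exact ⟨_, nx1, c1⟩
      by_cases c2 : Mem a (i, l, k)
      · exact ⟨_, nx2, c2⟩
      obtain ⟨t, t1, t2⟩ := ih.1 a (by simp only [Mem] at c1; omega)
      exact ⟨t, mem_nx.2 (.inl ⟨by rintro rfl; simp only [Mem] at *; omega, t1⟩), t2⟩
    rcases mem_nx.1 p with p | p
    · obtain ⟨x, x1, x2, x3⟩ := ih.2 t p.2 a b q r w
      by_cases c : x = (i, j, l)
      · obtain ⟨y, y1, y2, y3⟩ := key a b q (c ▸ x3.1) (c ▸ x3.2)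
        exact ⟨y, y1, fun e => (s _ _ _ p.2).2.2.ne (e ▸ y2), y3⟩
      · exact ⟨x, mem_nx.2 (.inl ⟨c, x1⟩), x2, x3⟩
    by_cases c : a = k ∨ b = k
    · by_cases c1 : (j, l, k) ≠ t ∧ Mem a (j, l, k) ∧ Mem b (j, l, k)
      · exact ⟨_, nx1, c1⟩
      by_cases c2 : (i, l, k) ≠ t ∧ Mem a (i, l, k) ∧ Mem b (i, l, k)
      · exact ⟨_, nx2, c2⟩
      refine ⟨_, nx3, ?_⟩
      rcases p with rfl | rfl | rfl <;> simp only [Mem, ne_eq, Prod.mk.injEq] at * <;> omega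
    · obtain ⟨x, x1, x2, x3⟩ := ih.2 _ g a b q
        (by rcases p with rfl | rfl | rfl <;> simp only [Mem] at * <;> omega)
        (by rcases p with rfl | rfl | rfl <;> simp only [Mem] at * <;> omega)
      refine ⟨x, mem_nx.2 (.inl ⟨x2, x1⟩), fun e => (s _ _ _ x1).2.2.ne ?_, x3⟩
      rcases p with rfl | rfl | rfl <;> rw [e]

theorem Blow.notMem (h : Blow k V T) : (i, j, l, k) ∉ T := fun p => (h.sort.2.2 _ _ _ _ p).2.2.2.false

theorem Blow.tele (h : Blow k V T) {G : Type} [AddCommGroup G] (Λ : ℕ × ℕ × ℕ → G) :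
    ∑ q ∈ T, (Λ (q.2.1, q.2.2.1, q.2.2.2) + Λ (q.1, q.2.2.1, q.2.2.2) + Λ (q.1, q.2.1, q.2.2.2) +
      if q.2.2.2 = 3 then Λ (q.1, q.2.1, q.2.2.1) else -Λ (q.1, q.2.1, q.2.2.1)) = ∑ t ∈ V, Λ t := by
  induction h with
  | base => simp [add_assoc]
  | step k V T i j l h g ih =>
    have s := h.sort
    have s0 := s.2.1 _ _ _ g
    rw [Finset.sum_insert h.notMem, ih, Finset.sum_union, Finset.sum_erase_eq_sub g,
      Finset.sum_insert (by simp; omega), Finset.sum_pair (by simp; omega), if_neg (by simp; omega)]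
    · abel
    · refine Finset.disjoint_left.2 fun ⟨a, b, c⟩ p q => ?_
      have := s.2.1 _ _ _ (Finset.mem_of_mem_erase p)
      simp at q
      omega

variable {n : ℕ → V4} {o : ℕ → ℕ → V4} {u : ℕ × ℕ × ℕ → V4} {x y : V4}

structure Inc (n : ℕ → V4) (k i j l : ℕ) (x : V4) : Prop where
  z1 : mink (n i) x = 0
  z2 : mink (n j) x = 0
  z3 : mink (n l) x = 0
  lt : ∀ c < k, c ≠ i → c ≠ j → c ≠ l → mink (n c) x < 0

structure Ed (n : ℕ → V4) (k i j : ℕ) (x : V4) : Prop where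
  f : Fut x
  z1 : mink (n i) x = 0
  z2 : mink (n j) x = 0
  lt : ∀ c < k, c ≠ i → c ≠ j → mink (n c) x < 0

theorem Inc.mono (h : Inc n (k + 1) i j l x) : Inc n k i j l x :=
  ⟨h.z1, h.z2, h.z3, fun c g => h.lt c (by omega)⟩

theorem Ed.mono (h : Ed n (k + 1) i j x) : Ed n k i j x :=
  ⟨h.f, h.z1, h.z2, fun c g => h.lt c (by omega)⟩

theorem Inc.le (h : Inc n k i j l x) (c : ℕ) (g : c < k) : mink (n c) x ≤ 0 := by
  by_cases p : c = i ∨ c = j ∨ c = l
  · rcases p with rfl | rfl | rfl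
    exacts [h.z1.le, h.z2.le, h.z3.le]
  · exact (h.lt c g (by omega) (by omega) (by omega)).le

/-- a polyhedral cone with rays for its vertices and a point on every edge -/
structure Geo (n : ℕ → V4) (o : ℕ → ℕ → V4) (u : ℕ × ℕ × ℕ → V4) (k : ℕ)
    (V : Finset (ℕ × ℕ × ℕ)) : Prop where
  unit : ∀ c < k, mink (n c) (n c) = 1
  vx : ∀ i j l, (i, j, l) ∈ V → Inc n k i j l (u (i, j, l))
  ed : ∀ i j l, (i, j, l) ∈ V → Ed n k j l (o j l) ∧ Ed n k i l (o i l) ∧ Ed n k i j (o i j)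

def Nq (n : ℕ → V4) (q : ℕ × ℕ × ℕ × ℕ) : Fin 4 → V4 := ![n q.1, n q.2.1, n q.2.2.1, n q.2.2.2]

def Uq (u : ℕ × ℕ × ℕ → V4) (q : ℕ × ℕ × ℕ × ℕ) : Fin 4 → V4 :=
  ![u (q.2.1, q.2.2.1, q.2.2.2), u (q.1, q.2.2.1, q.2.2.2), u (q.1, q.2.1, q.2.2.2),
    if q.2.2.2 = 3 then u (q.1, q.2.1, q.2.2.1) else -u (q.1, q.2.1, q.2.2.1)]

structure Pq (N U : Fin 4 → V4) (o : ℕ → ℕ → V4) (i j l m : ℕ) : Prop extends Pc N U where
  a : On N 2 3 (o i j)
  b : On N 0 2 (o j m)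
  c : On N 0 3 (o j l)
  d : On N 1 2 (o i m)
  e : On N 1 3 (o i l)
  f : On N 0 1 (o l m)

theorem Geo.pq (h : Geo n o u k V) (s : i < j ∧ j < l ∧ l < m ∧ m < k) (h0 : (j, l, m) ∈ V)
    (h1 : (i, l, m) ∈ V) (h2 : (i, j, m) ∈ V) (h3 : mink (n i) x = 0) (h4 : mink (n j) x = 0)
    (h5 : mink (n l) x = 0) (h6 : mink (n m) x < 0) :
    Pq ![n i, n j, n l, n m] ![u (j, l, m), u (i, l, m), u (i, j, m), x] o i j l m := by
  obtain ⟨ef, eb, ec⟩ := h.ed _ _ _ h0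
  obtain ⟨-, ed, ee⟩ := h.ed _ _ _ h1
  obtain ⟨-, -, ea⟩ := h.ed _ _ _ h2
  have v0 := h.vx _ _ _ h0
  have v1 := h.vx _ _ _ h1
  have v2 := h.vx _ _ _ h2
  have a : On ![n i, n j, n l, n m] 2 3 (o i j) := ⟨ea.f, ea.lt l (by omega) (by omega) (by omega),
    ea.lt m (by omega) (by omega) (by omega), by simp [Fin.forall_fin_succ, ea.z1, ea.z2]⟩
  have b : On ![n i, n j, n l, n m] 0 2 (o j m) := ⟨eb.f, eb.lt i (by omega) (by omega) (by omega),
    eb.lt l (by omega) (by omega) (by omega), by simp [Fin.forall_fin_succ, eb.z1, eb.z2]⟩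
  have c : On ![n i, n j, n l, n m] 0 3 (o j l) := ⟨ec.f, ec.lt i (by omega) (by omega) (by omega),
    ec.lt m (by omega) (by omega) (by omega), by simp [Fin.forall_fin_succ, ec.z1, ec.z2]⟩
  have d : On ![n i, n j, n l, n m] 1 2 (o i m) := ⟨ed.f, ed.lt j (by omega) (by omega) (by omega),
    ed.lt l (by omega) (by omega) (by omega), by simp [Fin.forall_fin_succ, ed.z1, ed.z2]⟩
  have e : On ![n i, n j, n l, n m] 1 3 (o i l) := ⟨ee.f, ee.lt j (by omega) (by omega) (by omega),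
    ee.lt m (by omega) (by omega) (by omega), by simp [Fin.forall_fin_succ, ee.z1, ee.z2]⟩
  have f : On ![n i, n j, n l, n m] 0 1 (o l m) := ⟨ef.f, ef.lt i (by omega) (by omega) (by omega),
    ef.lt j (by omega) (by omega) (by omega), by simp [Fin.forall_fin_succ, ef.z1, ef.z2]⟩
  refine ⟨⟨⟨?_, fun p => ?_⟩, fun p => ?_, fun p q g => ?_⟩, a, b, c, d, e, f⟩
  · simp [Fin.forall_fin_succ, v0.z1, v0.z2, v0.z3, v1.z1, v1.z2, v1.z3, v2.z1, v2.z2, v2.z3, h3, h4,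
      h5]
  · fin_cases p
    exacts [v0.lt i (by omega) (by omega) (by omega) (by omega),
      v1.lt j (by omega) (by omega) (by omega) (by omega),
      v2.lt l (by omega) (by omega) (by omega) (by omega), h6]
  · fin_cases p <;> exact h.unit _ (by omega)
  · fin_cases p <;> fin_cases q
    exacts [absurd rfl g, ⟨_, f⟩, ⟨_, b⟩, ⟨_, c⟩, ⟨_, f.symm⟩, absurd rfl g, ⟨_, d⟩, ⟨_, e⟩,
      ⟨_, b.symm⟩, ⟨_, d.symm⟩, absurd rfl g, ⟨_, a⟩, ⟨_, c.symm⟩, ⟨_, e.symm⟩, ⟨_, a.symm⟩,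
      absurd rfl g]

/-- the cones of all the intermediate graphs -/
inductive Dec (n : ℕ → V4) (o : ℕ → ℕ → V4) (u : ℕ × ℕ × ℕ → V4) :
    ℕ → Finset (ℕ × ℕ × ℕ) → Finset (ℕ × ℕ × ℕ × ℕ) → Prop
  | base : Geo n o u 4 {(1, 2, 3), (0, 2, 3), (0, 1, 3), (0, 1, 2)} →
      Dec n o u 4 {(1, 2, 3), (0, 2, 3), (0, 1, 3), (0, 1, 2)} {(0, 1, 2, 3)}
  | step (k : ℕ) (V : Finset (ℕ × ℕ × ℕ)) (T : Finset (ℕ × ℕ × ℕ × ℕ)) (i j l : ℕ) :
      Dec n o u k V T → (i, j, l) ∈ V → Geo n o u (k + 1) (nx V i j l k) →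
      0 < mink (n k) (u (i, j, l)) → Dec n o u (k + 1) (nx V i j l k) (insert (i, j, l, k) T)

theorem Dec.blow (h : Dec n o u k V T) : Blow k V T := by
  induction h with
  | base => exact .base
  | step k V T i j l _ g _ _ ih => exact .step k V T i j l ih g

theorem Dec.geo (h : Dec n o u k V T) : Geo n o u k V := by cases h <;> assumption

theorem pq_base (h : Geo n o u 4 {(1, 2, 3), (0, 2, 3), (0, 1, 3), (0, 1, 2)}) :
    Pq (Nq n (0, 1, 2, 3)) (Uq u (0, 1, 2, 3)) o 0 1 2 3 :=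
  have v := h.vx 0 1 2 (by simp)
  h.pq (by decide) (by simp) (by simp) (by simp) v.z1 v.z2 v.z3
    (v.lt 3 (by omega) (by omega) (by omega) (by omega))

theorem Dec.pq_step (h : Dec n o u k V T) (g : (i, j, l) ∈ V) (G : Geo n o u (k + 1) (nx V i j l k))
    (p : 0 < mink (n k) (u (i, j, l))) :
    Pq ![n i, n j, n l, n k] ![u (j, l, k), u (i, l, k), u (i, j, k), -u (i, j, l)] o i j l k :=
  have v := h.geo.vx _ _ _ g
  have := h.blow.sort.2.1 _ _ _ g
  G.pq (by omega) nx1 nx2 nx3 (by simp [v.z1]) (by simp [v.z2]) (by simp [v.z3]) (by simpa using p)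

theorem Dec.pq (h : Dec n o u k V T) :
    ∀ q ∈ T, Pq (Nq n q) (Uq u q) o q.1 q.2.1 q.2.2.1 q.2.2.2 := by
  induction h with
  | base h => exact fun q g => Finset.mem_singleton.1 g ▸ pq_base h
  | step k V T i j l h g G p ih =>
    refine Finset.forall_mem_insert _ _ _ |>.2 ⟨?_, ih⟩
    have := h.blow.sort.1
    simpa only [Nq, Uq, if_neg (show k ≠ 3 by omega)] using h.pq_step g G p

theorem Blow.dec (h : Blow k V T) : ∀ u, Geo n o u k V →
    ∃ u', (∀ t, t ∈ V ∨ k ≤ t.2.2 → u' t = u t) ∧ Dec n o u' k V T := by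
  induction h with
  | base => exact fun u g => ⟨u, fun _ _ => rfl, .base g⟩
  | step k V T i j l h g ih =>
    intro u G
    have s := h.sort.2.1
    have s0 := s _ _ _ g
    have v := G.vx _ _ _ nx3
    have e := (G.ed _ _ _ nx3).2.2
    have v1 := v.lt l (by omega) (by omega) (by omega) (by omega)
    obtain ⟨x, x1, x2, x3, x4⟩ : ∃ x, mink (n i) x = 0 ∧ mink (n j) x = 0 ∧ mink (n l) x = 0 ∧
        mink (n k) x < 0 := ⟨o i j - (mink (n l) (o i j) / mink (n l) (u (i, j, k))) • u (i, j, k),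
      by simp [v.z1, e.z1], by simp [v.z2, e.z2], by simp [v1.ne],
      by simpa [v.z3] using e.lt k (by omega) (by omega) (by omega)⟩
    have P := G.pq (by omega) nx1 nx2 nx3 x1 x2 x3 x4
    have I : Inc n k i j l (-x) := ⟨by simp [x1], by simp [x2], by simp [x3], fun c c0 c1 c2 c3 => by
      obtain ⟨⟨a, b, d⟩, t1, t2⟩ := h.two.1 c c0
      have w := G.vx a b d (mem_nx.2 (.inl ⟨by rintro ⟨⟩; simp only [Mem] at t2; omega, t1⟩))
      have w0 : mink (n c) (u (a, b, d)) = 0 := by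
        rcases t2 with rfl | rfl | rfl
        exacts [w.z1, w.z2, w.z3]
      have p := P.pair (n c) (u (a, b, d))
      have q := fun r => div_nonneg_of_nonpos (show mink (![n i, n j, n l, n k] r) (u (a, b, d)) ≤ 0 by
        fin_cases r <;> exact w.le _ (by omega)) (P.outer r).le
      have q0 := q 0
      have q1 := q 1
      have q2 := q 2
      have q3 := q 3
      have p0 := (G.vx _ _ _ nx1).lt c (by omega) c2 c3 c0.ne
      have p1 := (G.vx _ _ _ nx2).lt c (by omega) c1 c3 c0.ne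
      have p2 := v.lt c (by omega) c1 c2 c0.ne
      have r : ∀ r, r < k → r ≠ a → r ≠ b → r ≠ d → ∀ y, mink (n r) y < 0 →
          0 < mink (n r) (u (a, b, d)) / mink (n r) y := fun r r0 r1 r2 r3 y =>
        div_pos_of_neg_of_neg (w.lt r (by omega) r1 r2 r3)
      simp only [Fin.sum_univ_four, cons_val, w0] at p q0 q1 q2 q3
      rw [mk_neg, neg_lt_zero]
      by_contra! z
      have z0 := mul_nonpos_of_nonneg_of_nonpos q0 p0.le
      have z1 := mul_nonpos_of_nonneg_of_nonpos q1 p1.le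
      have z2 := mul_nonpos_of_nonneg_of_nonpos q2 p2.le
      have z3 := mul_nonpos_of_nonneg_of_nonpos q3 z
      simp only [Mem] at t2
      by_cases c4 : i ≠ a ∧ i ≠ b ∧ i ≠ d
      · linarith [mul_neg_of_pos_of_neg (r i (by omega) c4.1 c4.2.1 c4.2.2 (u (j, l, k)) (P.outer 0)) p0]
      by_cases c5 : j ≠ a ∧ j ≠ b ∧ j ≠ d
      · linarith [mul_neg_of_pos_of_neg (r j (by omega) c5.1 c5.2.1 c5.2.2 (u (i, l, k)) (P.outer 1)) p1]
      · linarith [mul_neg_of_pos_of_neg (r l (by omega) (by omega) (by omega) (by omega) _ v1) p2]⟩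
    obtain ⟨u', e1, e2⟩ := ih (Function.update u (i, j, l) (-x)) ⟨fun c p => G.unit c (by omega),
      fun a b d p => by
        by_cases c : (a, b, d) = (i, j, l)
        · cases c; simpa using I
        · rw [Function.update_of_ne c]; exact (G.vx _ _ _ (mem_nx.2 (.inl ⟨c, p⟩))).mono,
      fun a b d p => by
        by_cases c : (a, b, d) = (i, j, l)
        · cases c; exact ⟨(G.ed _ _ _ nx1).2.2.mono, (G.ed _ _ _ nx2).2.2.mono, e.mono⟩
        · exact (G.ed _ _ _ (mem_nx.2 (.inl ⟨c, p⟩))).imp .mono (.imp .mono .mono)⟩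
    have e3 : ∀ t, t ∈ nx V i j l k ∨ k + 1 ≤ t.2.2 → u' t = u t := fun t p => by
      have : t ≠ (i, j, l) ∧ (t ∈ V ∨ k ≤ t.2.2) := by
        rcases p with p | p
        · rcases mem_nx.1 p with p | rfl | rfl | rfl
          · exact ⟨p.1, .inl p.2⟩
          all_goals exact ⟨by simp; omega, .inr le_rfl⟩
        · exact ⟨by rintro rfl; simp at p; omega, .inr (by omega)⟩
      rw [e1 t this.2, Function.update_of_ne this.1]
    exact ⟨u', e3, .step k V T i j l e2 g ⟨G.unit, fun a b d p => e3 _ (.inl p) ▸ G.vx a b d p,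
      G.ed⟩ (by simpa [e1 _ (.inl g)] using x4)⟩

end Pool.Agent.MP_b0afd3_gt.H50
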