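import Pool.Agent.MP_b0afd3_gt.H50.Map

set_option autoImplicit false

namespace Pool.Agent.MP_b0afd3_gt.H50

open Real Filter Topology Pool.Agent.MP_b0afd3_gt.H80 Matrix MeasureTheory

variable {k : ℕ} {V : Finset (ℕ × ℕ × ℕ)} {T : Finset (ℕ × ℕ × ℕ × ℕ)} {n : ℕ → V4}
  {o : ℕ → ℕ → V4} {u : ℕ × ℕ × ℕ → V4} {w : V4} {s t : ℝ}

/-- the damped Gaussian integral -/
noncomputable def Iv (C : Set V4) (w : V4) (s : ℝ) : ℝ :=
  ∫ x in C, E x * exp (s * -(mink w x ^ 2 / 2))

theorem E_cont : Continuous E := by unfold E mink; fun_prop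

theorem Geo.vol (g : Geo n o u k V) (h : Fut w) (ht : 0 ≤ t) :
    ∫ x in {x | ∀ a < k, mink (nt w t (n a)) x < 0}, E x =
      (1 - t * mink w w) * Iv {x | ∀ a < k, mink (n a) x < 0} w (sg w t) := by
  let M : Matrix (Fin 4) (Fin 4) ℝ := 1 - t • vecMulVec w ![-w 0, w 1, w 2, w 3]
  have e : ∀ x, M *ᵥ x = Am w t x := fun x => by
    ext i
    simp only [M, Am, sub_mulVec, one_mulVec, Pi.sub_apply, Pi.smul_apply, smul_eq_mul]
    simp only [mulVec, mink, dotProduct, Fin.sum_univ_four, Matrix.smul_apply, vecMulVec_apply, cons_val,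
      smul_eq_mul]
    ring
  have d : M.det = 1 - t * mink w w := by
    simp [M, det_succ_row_zero, Fin.sum_univ_succ, Fin.succAbove, mink, one_apply]
    ring
  rw [← integral_indicator (meas_lt (fun a => nt w t (n a)) _), (cov (d ▸ (h.dt ht).ne') _).1, d,
    abs_of_pos (h.dt ht), Iv, ← integral_indicator (meas_lt n _)]
  congr 2
  funext x
  simp only [Set.indicator, Set.mem_ofPred_eq, e, E, AA, ← exp_add]
  exact if_congr (forall₂_congr fun a p => (h.lt ht (g.unit a p)).1) (by ring_nf) rfl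

theorem Dec.int (g : Dec n o u k V T) (hV : ∀ t ∈ V, mink (u t) (u t) ≤ 0 ∧ 0 < u t 0) (h : Fut w)
    (hs : 0 < s) : IntegrableOn (fun x => E x * exp (s * -(mink w x ^ 2 / 2)))
      {x | ∀ a < k, mink (n a) x < 0} := by
  obtain ⟨τ, τ0, f⟩ : ∃ τ > (0 : ℝ), Fut (w - τ • ![1, 0, 0, 0]) := by
    have c : Continuous fun τ : ℝ => w - τ • (![1, 0, 0, 0] : V4) := by fun_prop
    have c1 : Continuous fun x : V4 => mink x x := by unfold mink; fun_prop
    have := c.tendsto' 0 w (by rw [zero_smul, sub_zero])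
    exact ((((continuous_apply 0).tendsto _ |>.comp this).eventually (lt_mem_nhds h.1)).and
      (((c1.tendsto _).comp this).eventually (gt_mem_nhds h.2))).exists_gt
  refine ((Integrable.fintype_prod (ι := Fin 4) fun _ => integrable_exp_neg_mul_sq
    (show 0 < s * τ ^ 2 / 4 by positivity)).integrableOn).mono'
    ((E_cont.mul (by have := mk_cont w; fun_prop)).aestronglyMeasurable) ?_
  filter_upwards [ae_restrict_mem (meas_lt n _)] with x hx
  obtain ⟨k1, k2, k3⟩ := g.cone hV fun a p => (hx a p).le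
  have k4 : τ * x 0 ≤ -mink w x := by
    have := k1 _ f
    simp only [sub_mk, smul_mk] at this
    simp [mink] at this ⊢
    linarith
  have k5 := mul_le_mul_of_nonneg_left (pow_le_pow_left₀ (by positivity) k4 2) hs.le
  rw [E, ← exp_add, ← exp_sum, Real.norm_of_nonneg (exp_pos _).le, exp_le_exp, Fin.sum_univ_four]
  have k6 := mul_nonneg (show 0 ≤ s * τ ^ 2 by positivity) (neg_nonneg.2 k3)
  simp only [mink] at k3 k6
  rw [show mink x x = x 1 * x 1 + x 2 * x 2 + x 3 * x 3 - x 0 * x 0 from rfl]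
  nlinarith

theorem Iv_an {C : Set V4} (h : ∀ s > 0, IntegrableOn (fun x => E x * exp (s * -(mink w x ^ 2 / 2))) C)
    (hs : 0 < s) : AnalyticAt ℝ (Iv C w) s := by
  have m : Measurable fun x => ENNReal.ofReal (E x) := E_cont.measurable.ennreal_ofReal
  have p : ∀ x, (ENNReal.ofReal (E x)).toReal = E x := fun x => ENNReal.toReal_ofReal (exp_pos _).le
  have := ProbabilityTheory.analyticAt_mgf (X := fun x => -(mink w x ^ 2 / 2))
    (μ := (volume.restrict C).withDensity fun x => ENNReal.ofReal (E x)) (t := s)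
    (interior_maximal (fun s hs => (integrable_withDensity_iff_integrable_smul' m
      (.of_forall fun _ => ENNReal.ofReal_lt_top)).2 (by simp only [p]; exact h s hs)) isOpen_Ioi hs)
  convert this using 1
  funext s
  rw [ProbabilityTheory.mgf, integral_withDensity_eq_integral_toReal_smul m
    (.of_forall fun _ => ENNReal.ofReal_lt_top)]
  simp only [p, Iv, smul_eq_mul]

theorem Dec.gen (g : Dec n o u k V T) : ∃ w, Fut w ∧ ∀ q ∈ T, ∀ r, mink w (Uq u q r) ≠ 0 := by
  have c1 : Continuous fun x : V4 => mink x x := by unfold mink; fun_prop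
  refine Measure.exists_mem_of_measure_ne_zero_of_ae (μ := volume) (s := {x | Fut x})
    (IsOpen.measure_ne_zero _ ((isOpen_lt continuous_const (continuous_apply 0)).inter
      (isOpen_lt c1 continuous_const)) ⟨![1, 0, 0, 0], by simp [Fut, mink]⟩)
    (ae_restrict_of_ae ((eventually_all_finset T).2 fun q p => ae_all_iff.2 fun r => ?_))
  exact (hyp_null (mk_comm _ _ ▸ ((g.pq q p).outer r).ne)).mono fun _ e => mk_comm _ _ ▸ e

theorem Dec.flow (g : Dec n o u k V T) (hV : ∀ t ∈ V, mink (u t) (u t) ≤ 0 ∧ 0 < u t 0) (h : Fut w)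
    (hw : ∀ q ∈ T, ∀ r, mink w (Uq u q r) ≠ 0) (ht : 0 < t) (h1 : t ≤ 1) :
    ∑ q ∈ T, ap W (Nq (fun a => nt w t (n a)) q) =
      (1 - t * mink w w) * Iv {x | ∀ a < k, mink (n a) x < 0} w (sg w t) / 2 := by
  set D := fun t => ∑ q ∈ T, ap W (Nq (fun a => nt w t (n a)) q)
  set F := fun t => (1 - t * mink w w) * Iv {x | ∀ a < k, mink (n a) x < 0} w (sg w t) / 2
  set G := fun t => (∑ s ∈ V, La n o w t s (Am w t (u s))) / 2
  have aF : ∀ t > 0, AnalyticAt ℝ F t := fun t p => (AnalyticAt.mul (by fun_prop)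
    ((Iv_an (fun _ => g.int hV h) (by linarith [h.sg t])).comp (by unfold sg; fun_prop))).div_const
  have aG : ∀ t > 0, AnalyticAt ℝ G t := fun t p => (Finset.analyticAt_fun_sum _ fun ⟨i, j, l⟩ q =>
    g.geo.la h p q (g.blow.sort.2.1 _ _ _ q) (hV _ q).1 (hV _ q).2).div_const
  obtain ⟨b, hb⟩ := eventually_atTop.1 ((eventually_ge_atTop 1).and ((eventually_all_finset T).2
    fun q p => eventually_all.2 fun r => show ∀ᶠ t in atTop,
      mink (Am w t (Uq u q r)) (Am w t (Uq u q r)) < 0 from by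
        have c := mul_self_pos.2 (hw q p r)
        filter_upwards [eventually_gt_atTop (mink (Uq u q r) (Uq u q r) / 2 /
          (mink w (Uq u q r) * mink w (Uq u q r)))] with t p
        rw [div_lt_iff₀ c] at p
        rw [AA]
        linarith [mul_le_mul_of_nonneg_right (h.sg t) c.le]))
  have e : ∀ t ≥ b, D t = F t := fun t p => by
    have t0 : 0 < t := one_pos.trans_le (hb t p).1
    simp only [D, F]
    rw [(g.map h t0.le).vol (fun q c r => Uq_map q r ▸ (hb t p).2 q c r)
      fun s c => (h.am t0.le (hV s c).1 (hV s c).2 (.inr t0)).1, g.geo.vol h t0.le]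
  have b1 := (hb b le_rfl).1
  have z := AnalyticOnNhd.eqOn_zero_of_preconnected_of_eventuallyEq_zero (𝕜 := ℝ)
    (f := fun t => G t - deriv F t) (U := Set.Ioi 0) (fun t p => (aG t p).sub (aF t p).deriv)
    isPreconnected_Ioi (z₀ := b + 1) (show 0 < b + 1 by linarith) (by
      filter_upwards [lt_mem_nhds (lt_add_one b)] with t p
      rw [← EventuallyEq.deriv_eq ((lt_mem_nhds p).mono fun s q => e s q.le),
        (g.der h (by linarith) fun q c r => ((hb t p.le).2 q c r).ne).deriv, sub_self, Pi.zero_apply])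
  have := integral_eq_of_hasDerivAt_off_countable_of_le (fun t => D t - F t) (fun _ => 0)
    (h1.trans b1) (s := ⋃ q, ⋃ r, {t | 0 < t ∧ q ∈ T ∧ mink (Am w t (Uq u q r)) (Am w t (Uq u q r)) = 0})
    (Set.countable_iUnion fun q => Set.countable_iUnion fun r => Set.Subsingleton.countable
      fun x p y c => ?_) (fun s p => ((g.cont h (ht.le.trans p.1)).sub
      (aF s (ht.trans_le p.1)).continuousAt).continuousWithinAt) (fun s p => ?_)
    intervalIntegrable_const
  · simp only [intervalIntegral.integral_zero, e b le_rfl] at this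
    change D t = F t
    linarith
  · have := mul_right_cancel₀ (mul_self_ne_zero.2 (hw q p.2.1 r))
      (sub_right_injective (AA.symm.trans (p.2.2.trans c.2.2.symm) |>.trans AA))
    refine sub_eq_zero.1 (eq_zero_of_ne_zero_of_mul_left_eq_zero (x := 2 - (x + y) * mink w w)
      (by nlinarith [p.1, c.1, h.2]) ?_)
    simp only [sg] at this
    linarith
  · have s0 := ht.trans p.1.1
    refine ((g.der h s0.le fun q c r e => p.2 ?_).sub (aF s s0).differentiableAt.hasDerivAt).congr_deriv
      (z s0)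
    exact Set.mem_iUnion₂.2 ⟨q, r, s0, c, e⟩

theorem Dec.total (g : Dec n o u k V T) (hV : ∀ t ∈ V, mink (u t) (u t) ≤ 0 ∧ 0 < u t 0) :
    ∑ q ∈ T, ap W (Nq n q) = (∫ x in {x | ∀ a < k, mink (n a) x < 0}, E x) / 2 := by
  obtain ⟨w, h, hw⟩ := g.gen
  have t0 : ∀ m : ℕ, 0 < 1 / ((m : ℝ) + 1) := fun m => by positivity
  have t1 := tendsto_one_div_add_atTop_nhds_zero_nat (𝕜 := ℝ)
  have e0 : ∑ q ∈ T, ap W (Nq (fun a => nt w 0 (n a)) q) = ∑ q ∈ T, ap W (Nq n q) :=
    Finset.sum_congr rfl fun q p => congrArg _ (funext fun r => by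
      rw [← nt_zero (w := w) ((g.pq q p).unit r)]; fin_cases r <;> rfl)
  have L : Tendsto (fun m : ℕ => Iv {x | ∀ a < k, mink (n a) x < 0} w (sg w (1 / (m + 1)))) atTop
      (𝓝 (2 * ∑ q ∈ T, ap W (Nq n q))) := by
    have := (((g.cont h le_rfl).tendsto.comp t1).const_mul 2).div
      ((t1.mul_const (mink w w)).const_sub 1) (by simp)
    rw [e0, zero_mul, sub_zero, div_one] at this
    refine this.congr fun m => ?_
    have d := (h.dt (t0 m).le).ne'
    simp only [Pi.div_apply, Function.comp]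
    rw [g.flow hV h hw (t0 m) (by rw [div_le_one (by positivity)]; simp), div_eq_iff d]
    ring
  have P : ∀ s x, 0 ≤ E x * exp (s * -(mink w x ^ 2 / 2)) := fun s x => by unfold E; positivity
  have M := lintegral_tendsto_of_tendsto_of_monotone
    (μ := volume.restrict {x | ∀ a < k, mink (n a) x < 0}) (F := fun x => ENNReal.ofReal (E x))
    (f := fun (m : ℕ) x => ENNReal.ofReal (E x * exp (sg w (1 / (m + 1)) * -(mink w x ^ 2 / 2))))
    (fun m => (E_cont.mul (by have := mk_cont w; fun_prop)).measurable.ennreal_ofReal.aemeasurable)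
    (.of_forall fun x a b p => ENNReal.ofReal_le_ofReal (mul_le_mul_of_nonneg_left (exp_le_exp.2
      (mul_le_mul_of_nonpos_right ?_ (neg_nonpos.2 (by positivity)))) (exp_pos _).le))
    (.of_forall fun x => ENNReal.tendsto_ofReal ?_)
  · have N := (ENNReal.tendsto_ofReal L).congr fun m => ofReal_integral_eq_lintegral_ofReal
      (g.int hV h (by linarith [h.sg (1 / (m + 1)), t0 m])) (.of_forall (P _))
    rw [integral_eq_lintegral_of_nonneg_ae (f := E) (.of_forall fun x => (exp_pos _).le)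
      E_cont.aestronglyMeasurable, tendsto_nhds_unique M N,
      ENNReal.toReal_ofReal (ge_of_tendsto' L fun m => integral_nonneg (P _))]
    ring
  · have := Nat.one_div_le_one_div (α := ℝ) p
    simp only [sg]
    nlinarith [mul_le_mul_of_nonpos_right (pow_le_pow_left₀ (t0 b).le this 2) h.2.le]
  · have c : Continuous fun t => E x * exp (sg w t * -(mink w x ^ 2 / 2)) := by unfold sg; fun_prop
    exact (c.tendsto' 0 _ (by simp [sg])).comp t1

end Pool.Agent.MP_b0afd3_gt.H50
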