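import Pool.Agent.MP_b0afd3_gt.H50.Piece

set_option autoImplicit false

namespace Pool.Agent.MP_b0afd3_gt.H50

open Real Filter Topology Pool.Agent.MP_b0afd3_gt.H80 Matrix H14 MeasureTheory

variable {N U : Fin 4 → V4} {i j : Fin 4} {y : V4}

/-- the Gaussian weight -/
noncomputable def E (x : V4) : ℝ := exp (mink x x / 2)

theorem cov {M : Matrix (Fin 4) (Fin 4) ℝ} (h : M.det ≠ 0) (F : V4 → ℝ) :
    (∫ y, F y = |M.det| * ∫ x, F (M *ᵥ x)) ∧ (Integrable F ↔ Integrable fun x => F (M *ᵥ x)) := by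
  have m : MeasurableEmbedding (toLin' M) := (LinearMap.continuous_of_finiteDimensional
    _).measurableEmbedding (mulVec_injective_of_det_ne_zero h)
  have e := Real.map_matrix_volume_pi_eq_smul_volume_pi h
  have p := abs_pos.2 h
  constructor
  · have := m.integral_map (μ := volume) F
    rw [e, integral_smul_measure, ENNReal.toReal_ofReal (abs_nonneg _), abs_inv] at this
    simp only [toLin'_apply] at this
    rw [← this, smul_eq_mul, mul_inv_cancel_left₀ p.ne']
  · have := m.integrable_map_iff (μ := volume) (g := F)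
    rwa [e, integrable_smul_measure (by simpa using h) ENNReal.ofReal_ne_top] at this

theorem hyp_null {n : V4} (h : mink n y ≠ 0) : ∀ᵐ x, mink n x ≠ 0 := by
  let L : V4 →ₗ[ℝ] ℝ := ⟨⟨mink n, mk_add n⟩, fun t y => mk_smul t n y⟩
  exact measure_eq_zero_iff_ae_notMem.1 (Measure.addHaar_submodule volume (LinearMap.ker L)
    fun g => h (show y ∈ LinearMap.ker L from g ▸ Submodule.mem_top))

theorem mk_cont (n : V4) : Continuous (mink n) := by unfold mink; fun_prop

theorem meas_lt {X : Type} [Countable X] (n : X → V4) (p : X → Prop) :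
    MeasurableSet {x | ∀ i, p i → mink (n i) x < 0} := by
  simp only [Set.ofPred_forall]
  exact .iInter fun i => .iInter fun _ => measurableSet_lt (mk_cont _).measurable measurable_const

theorem Pc.gauss (h : Pc N U) (g : ∀ i, Fut (U i)) : ap Reg N ∧ ap PosC N ∧
    IntegrableOn E {x | ∀ i, mink (N i) x < 0} ∧
    ap (fun a b c d e f => gvol (cos a) (cos b) (cos c) (cos d) (cos e) (cos f)) N =
      (∫ x in {x | ∀ i, mink (N i) x < 0}, E x) / 2 := by
  have K := fun i j => (h.pos i j).2 ((g i).cone (g j).2.le (g j).1)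
  have c := fun i j g => (xi_of (h.ang i j g)).1
  have P : ap PosC N := ⟨K 0 0, K 1 1, K 2 2, K 3 3, K 0 1, K 0 2, K 0 3, K 1 2, K 1 3, K 2 3⟩
  have R : ap Reg N := ⟨tri_of_vtx (c 2 3 (by decide)) (c 1 3 (by decide)) (c 1 2 (by decide)) P.v0,
    tri_of_vtx (c 2 3 (by decide)) (c 0 3 (by decide)) (c 0 2 (by decide)) P.v1,
    tri_of_vtx (c 0 1 (by decide)) (c 1 3 (by decide)) (c 0 3 (by decide)) P.v2,
    tri_of_vtx (c 0 1 (by decide)) (c 1 2 (by decide)) (c 0 2 (by decide)) P.v3⟩
  obtain ⟨g1, g2, g3⟩ := h.gram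
  have hWN := mul_eq_one_comm.1 h.inv
  have d : (-nm N).det = (nm N).det := by rw [det_neg]; norm_num
  have m : MeasurableSet {x | ∀ i, mink (N i) x < 0} := by simpa using meas_lt N fun _ => True
  have e : ap (fun a b c d e f => gvol (cos a) (cos b) (cos c) (cos d) (cos e) (cos f)) N =
      (∫ x in {x | ∀ i, mink (N i) x < 0}, E x) / 2 := by
    show 1 / (2 * √(-ap H80.gd N)) * _ = _
    rw [← integral_indicator (by
      simp only [Set.ofPred_forall]
      exact .iInter fun i => measurableSet_lt measurable_const (measurable_pi_apply i)),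
      (cov (d ▸ g1) _).1, d, g2, neg_neg, sqrt_sq_eq_abs, ← integral_indicator m]
    have := abs_pos.2 g1
    field_simp
    refine integral_congr_ae (.of_forall fun x => ?_)
    simp only [Set.indicator, Set.mem_ofPred_eq, neg_mulVec, Pi.neg_apply, nm_mulVec, neg_pos]
    congr 2
    rw [adjq_eq, mulVec_neg, neg_dotProduct_neg]
    show _ ⬝ᵥ ap amc N *ᵥ _ / (2 * ap H80.gd N) = _
    rw [g3, smul_mulVec, dotProduct_smul, mulVec_mulVec, Matrix.mul_assoc, hWN, Matrix.mul_one,
      ← mulVec_mulVec, dotProduct_mulVec, vecMul_transpose, mulVec_mulVec, hWN, one_mulVec,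
      mink_eq, smul_eq_mul]
    field_simp [h.gd.ne]
  refine ⟨R, P, Integrable.of_integral_ne_zero fun k => ?_, e⟩
  exact (vol_pos R h.gd P).ne' (e.trans (by rw [k, zero_div]))

theorem xi_neg (x y : V4) : xi (-x) y = π - xi x y := by
  rw [xi, xi, neg_mk, neg_neg, arccos_neg, sub_sub_cancel]

theorem Pc.vol0 (h : Pc N U) (g : Fut (-U 0)) :
    IntegrableOn E {x | 0 < mink (N 0) x ∧ ∀ j, j ≠ 0 → mink (N j) x < 0} ∧
    ap W N = -(∫ x in {x | 0 < mink (N 0) x ∧ ∀ j, j ≠ 0 → mink (N j) x < 0}, E x) / 2 := by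
  have F := h.other (i := 0) ⟨by simpa using g.2.le, neg_pos.1 g.1⟩
  have F' : ∀ i, Fut (![-U 0, U 1, U 2, U 3] i) := fun i => by
    fin_cases i
    exacts [g, F 1 (by decide), F 2 (by decide), F 3 (by decide)]
  have k : Pc ![-N 0, N 1, N 2, N 3] ![-U 0, U 1, U 2, U 3] := Sx.pc ⟨fun i j k => by
    fin_cases i <;> fin_cases j <;> simp [h.face] at k ⊢, fun j => by
    fin_cases j <;> simp [h.outer]⟩ (fun j => by fin_cases j <;> simp [h.unit]) F'
  obtain ⟨R, P, I, e⟩ := k.gauss F'
  have G := k.gd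
  have s : {x | ∀ i, mink (![-N 0, N 1, N 2, N 3] i) x < 0} =
      {x | 0 < mink (N 0) x ∧ ∀ j, j ≠ 0 → mink (N j) x < 0} := by
    ext x; simp [Fin.forall_fin_succ]
  simp only [ap, cons_val, xi_neg, s] at R P I e G
  exact ⟨I, by rw [neg_div, ← e]; exact W_neg R G P⟩

open Classical in
/-- the indicator of a proposition -/
noncomputable def ind (p : Prop) : ℝ := if p then 1 else 0

theorem ind_pos {p : Prop} (h : p) : ind p = 1 := if_pos h

theorem ind_neg {p : Prop} (h : ¬p) : ind p = 0 := if_neg h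

theorem ind_mul (p : V4 → Prop) (F : V4 → ℝ) :
    (fun x => ind (p x) * F x) = {x | p x}.indicator F := funext fun x => by
  simp [ind, Set.indicator]

noncomputable def fq (N U : Fin 4 → V4) (x : V4) : ℝ :=
  (ind (∀ i, mink (N i) x < 0) - ∑ i, ind (U i 0 < 0 ∧ ∀ j, j ≠ i → mink (N j) x < 0)) * E x

theorem Pc.vol (h : Pc N U) (g : ∀ i, mink (U i) (U i) < 0) :
    Integrable (fq N U) ∧ ap W N = (∫ x, fq N U x) / 2 := by
  by_cases k : ∀ i, ¬Past (U i)
  · have F : ∀ i, Fut (U i) := fun i => ⟨h.fut (k i) (g i).le, g i⟩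
    obtain ⟨R, P, I, e⟩ := h.gauss F
    have m : MeasurableSet {x | ∀ i, mink (N i) x < 0} := by simpa using meas_lt N fun _ => True
    have : fq N U = {x | ∀ i, mink (N i) x < 0}.indicator E := by
      rw [← ind_mul]
      funext x
      rw [fq, Finset.sum_eq_zero fun i _ => ind_neg fun p => p.1.not_gt (F i).1, sub_zero]
    rw [this, integral_indicator m, integrable_indicator_iff m]
    exact ⟨I, (W_pos R h.gd P).trans e⟩
  obtain ⟨i, k⟩ : ∃ i, Past (U i) := by simpa using k
  obtain ⟨I, e⟩ := (h.perm (Equiv.swap 0 i)).vol0 ⟨by simpa using k.2, by simpa using g i⟩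
  have s : {x | 0 < mink ((N ∘ Equiv.swap 0 i) 0) x ∧
      ∀ j, j ≠ 0 → mink ((N ∘ Equiv.swap 0 i) j) x < 0} =
      {x | 0 < mink (N i) x ∧ ∀ j, j ≠ i → mink (N j) x < 0} := by
    ext x
    refine and_congr (by simp) ⟨fun H j p => ?_, fun H j p => H _ ?_⟩
    · simpa using H (Equiv.swap 0 i j) (by simpa [Equiv.swap_apply_eq_iff] using p)
    · simpa [Equiv.swap_apply_eq_iff] using p
  rw [W_swap h.gd, s] at e
  rw [s] at I
  have m : MeasurableSet {x | 0 < mink (N i) x ∧ ∀ j, j ≠ i → mink (N j) x < 0} :=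
    (measurableSet_lt measurable_const (mk_cont _).measurable).inter (meas_lt N _)
  have : fq N U =ᵐ[volume] -{x | 0 < mink (N i) x ∧ ∀ j, j ≠ i → mink (N j) x < 0}.indicator E := by
    filter_upwards [hyp_null (h.outer i).ne] with x hx
    rw [fq, Finset.sum_eq_single i (fun j _ p => ind_neg fun q => q.1.not_gt
      (h.other k j p.symm).1) (by simp), ← ind_mul, Pi.neg_apply, ← neg_mul]
    congr 1
    by_cases w : ∀ j, j ≠ i → mink (N j) x < 0
    · rcases hx.lt_or_gt with q | q
      · rw [ind_pos fun j => if p : j = i then p ▸ q else w j p, ind_pos ⟨k.2, w⟩,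
          ind_neg fun p => p.1.not_gt q, sub_self, neg_zero]
      · rw [ind_neg fun p => (p i).not_gt q, ind_pos ⟨k.2, w⟩, ind_pos ⟨q, w⟩, zero_sub]
    · rw [ind_neg fun p => w fun j _ => p j, ind_neg fun p => w p.2, ind_neg fun p => w p.2,
        sub_self, neg_zero]
  rw [integral_congr_ae this, integrable_congr this, e]
  exact ⟨((integrable_indicator_iff m).2 I).neg, by
    simp only [Pi.neg_apply, integral_neg, integral_indicator m]⟩

end Pool.Agent.MP_b0afd3_gt.H50
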