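import Pool.Agent.MP_b0afd3_gt.H50.Odd

set_option autoImplicit false

namespace Pool.Agent.MP_b0afd3_gt.H50

open Real Filter Topology Pool.Agent.MP_b0afd3_gt.H80 Col

variable {a b c d e f a' b' c' d' e' f' x y z V : ℝ}

/-- the growth rate is `V` for all sequences with the given limits -/
def H (a b c d e f V : ℝ) : Prop :=
  ∀ C : ℕ → Col, Lim5 C b c d e f → Tendsto (fun m => an m (C m).a) atTop (𝓝 a) →
    (∀ᶠ m in atTop, (C m).Ad m) → Up C V ∧ Lw C V

theorem gr_congr {C D : ℕ → Col} (h : ∀ᶠ m in atTop, (D m).u m = (C m).u m)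
    (g : Up D V ∧ Lw D V) : Up C V ∧ Lw C V :=
  ⟨fun ε hε => (h.and (g.1 ε hε)).mono fun _ k => k.1 ▸ k.2,
    fun ε hε => (h.and (g.2 ε hε)).mono fun _ k => k.1 ▸ k.2⟩

def p12 (D : Col) : Col :=
  ⟨D.a, D.d, D.e, D.b, D.c, D.f, D.T2, D.T1, D.T3, D.T4, D.Q2, D.Q1, D.Q3, D.t2, D.t1,
    by linarith [D.t3], by linarith [D.t4], by linarith [D.q2], by linarith [D.q1],
    by linarith [D.q3]⟩

def p34 (D : Col) : Col :=
  ⟨D.a, D.c, D.b, D.e, D.d, D.f, D.T1, D.T2, D.T4, D.T3, D.Q2, D.Q1, D.Q3, by linarith [D.t1],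
    by linarith [D.t2], D.t4, D.t3, D.q2, D.q1, by linarith [D.q3]⟩

def p23 (D : Col) : Col :=
  ⟨D.e, D.f, D.c, D.d, D.a, D.b, D.T1, D.T3, D.T2, D.T4, D.Q1, D.Q3, D.Q2, by linarith [D.t1],
    by linarith [D.t3], by linarith [D.t2], by linarith [D.t4], by linarith [D.q1],
    by linarith [D.q3], by linarith [D.q2]⟩

theorem u_perm {D E : Col} {m : ℕ} (hP : E.P m = D.P m) (ht : ∀ z, E.term m z = D.term m z) :
    E.u m = D.u m := by simp only [u, S, hP, ht]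

theorem H.s12 (h : H a b c d e f V) : H a d e b c f V := fun C L La A =>
  gr_congr (.of_forall fun _ => u_perm (by simp only [P, p12]; ring)
    fun _ => by simp only [term, p12]; ring)
    (h (fun m => p12 (C m)) ⟨L.d, L.e, L.b, L.c, L.f⟩ La
      (A.mono fun m g => by simp only [Ad, p12] at g ⊢; omega))

theorem H.s34 (h : H a b c d e f V) : H a c b e d f V := fun C L La A =>
  gr_congr (.of_forall fun _ => u_perm (by simp only [P, p34]; ring)
    fun _ => by simp only [term, p34]; ring)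
    (h (fun m => p34 (C m)) ⟨L.c, L.b, L.e, L.d, L.f⟩ La
      (A.mono fun m g => by simp only [Ad, p34] at g ⊢; omega))

theorem H.s23 (h : H a b c d e f V) : H e f c d a b V := fun C L La A =>
  gr_congr (.of_forall fun _ => u_perm (by simp only [P, p23]; ring)
    fun _ => by simp only [term, p23]; ring)
    (h (fun m => p23 (C m)) ⟨L.f, L.c, L.d, La, L.b⟩ L.e
      (A.mono fun m g => by simp only [Ad, p23] at g ⊢; omega))

theorem an_fl' {x : ℕ → ℤ} (h : Tendsto (fun m => an m (x m)) atTop (𝓝 y)) :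
    Tendsto (fun m : ℕ => an m (2 * m - 1 - x m)) atTop (𝓝 (2 * π - y)) :=
  (h.const_sub _).congr fun m => by
    simp only [an, ← hb_mul m]
    push_cast
    ring

theorem H.f1 (h : H (2 * π - a) (2 * π - b) (2 * π - c) d e f V) : H a b c d e f V :=
  fun C L La A => gr_congr (A.mono fun _ g => g.fl.1.2) (h (fun m => (C m).fl1 (2 * m - 1))
    ⟨an_fl' L.b, an_fl' L.c, L.d, L.e, L.f⟩ (an_fl' La) (A.mono fun _ g => g.fl.1.1))

theorem H.f2 (h : H a b (2 * π - c) d (2 * π - e) (2 * π - f) V) : H a b c d e f V :=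
  fun C L La A => gr_congr (A.mono fun _ g => g.fl.2.1.2) (h (fun m => (C m).fl2 (2 * m - 1))
    ⟨L.b, an_fl' L.c, L.d, an_fl' L.e, an_fl' L.f⟩ La (A.mono fun _ g => g.fl.2.1.1))

theorem H.f3 (h : H a (2 * π - b) c (2 * π - d) e (2 * π - f) V) : H a b c d e f V :=
  fun C L La A => gr_congr (A.mono fun _ g => g.fl.2.2.2) (h (fun m => (C m).fl3 (2 * m - 1))
    ⟨an_fl' L.b, L.c, an_fl' L.d, L.e, an_fl' L.f⟩ La (A.mono fun _ g => g.fl.2.2.1))

/-- the two possible limits -/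
def Sc (x x' : ℝ) : Prop := x' = x ∨ x' = 2 * π - x

theorem Sc.fl (h : Sc x y) : Sc x (2 * π - y) := by rcases h with g | g <;> simp [Sc, g]

theorem sectors (h : ∀ b' c' f', Sc b b' → Sc c c' → Sc f f' → H a b' c' d e f' V) (ha : Sc a a')
    (hb : Sc b b') (hc : Sc c c') (hd : Sc d d') (he : Sc e e') (hf : Sc f f') :
    H a' b' c' d' e' f' V := by
  wlog k1 : a' = a generalizing a' b' c' with G
  · exact (G ha.fl hb.fl hc.fl (by rw [ha.resolve_left k1]; ring)).f1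
  wlog k2 : e' = e generalizing c' e' f' with G
  · exact (G (hc := hc.fl) (he := he.fl) (hf := hf.fl) (by rw [he.resolve_left k2]; ring)).f2
  wlog k3 : d' = d generalizing b' d' f' with G
  · exact (G (hb := hb.fl) (hd := hd.fl) (hf := hf.fl) (by rw [hd.resolve_left k3]; ring)).f3
  exact k1 ▸ k2 ▸ k3 ▸ h _ _ _ hb hc hf

theorem Wk.s1 (h : Wk 0 x y z) : Wk 0 y x z :=
  let ⟨⟨h1, h2, h3⟩, h4, h5, h6⟩ := h; ⟨⟨h2, h1, by linarith⟩, h5, h4, h6⟩

theorem Wk.s2 (h : Wk 0 x y z) : Wk 0 x z y :=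
  let ⟨⟨h1, h2, h3⟩, h4, h5, h6⟩ := h; ⟨⟨by linarith, h3, h2⟩, h4, h6, h5⟩

theorem Wk.tri (h : Wk 0 x y z) (g : x + y + z < 2 * π) : Tri x y z :=
  let ⟨⟨h1, h2, h3⟩, _⟩ := h; ⟨by linarith, by linarith, by linarith, g⟩

theorem Wk.lt (h : Wk 0 x y z) (g : 0 < vtx (cos x) (cos y) (cos z)) : x + y + z < 2 * π := by
  rcases lt_trichotomy (x + y + z) (2 * π) with k | k | k
  · exact k
  · simp [vtx_sin, k] at g
  · exact absurd (h.vtx_neg k) g.not_gt

/-- no vertex lies in the past -/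
structure TF (a b c d e f : ℝ) : Prop where
  w : Wk4 0 a b c d e f
  g : gd a b c d e f < 0
  c01 : 0 ≤ vtx (cos f) (cos b) (cos c) * vtx (cos f) (cos d) (cos e) →
    0 < cof (cos f) (cos b) (cos d) (cos c) (cos e) (cos a)
  c02 : 0 ≤ vtx (cos f) (cos b) (cos c) * vtx (cos a) (cos b) (cos d) →
    0 < cof (cos b) (cos f) (cos d) (cos c) (cos a) (cos e)
  c03 : 0 ≤ vtx (cos f) (cos b) (cos c) * vtx (cos a) (cos c) (cos e) →
    0 < cof (cos c) (cos f) (cos e) (cos b) (cos a) (cos d)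
  c12 : 0 ≤ vtx (cos f) (cos d) (cos e) * vtx (cos a) (cos b) (cos d) →
    0 < cof (cos d) (cos f) (cos b) (cos e) (cos a) (cos c)
  c13 : 0 ≤ vtx (cos f) (cos d) (cos e) * vtx (cos a) (cos c) (cos e) →
    0 < cof (cos e) (cos f) (cos c) (cos d) (cos a) (cos b)
  c23 : 0 ≤ vtx (cos a) (cos b) (cos d) * vtx (cos a) (cos c) (cos e) →
    0 < cof (cos a) (cos b) (cos c) (cos d) (cos e) (cos f)

theorem imp_eq {p q p' q' : ℝ} (h : 0 ≤ p → 0 < q) (h1 : p = p') (h2 : q = q') : 0 ≤ p' → 0 < q' :=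
  h1 ▸ h2 ▸ h

theorem TF.s12 (h : TF a b c d e f) : TF a d e b c f := by
  refine ⟨⟨h.w.t2, h.w.t1, h.w.t3.s2, h.w.t4.s2⟩, gd_sw12.trans_lt h.g, imp_eq h.c01 ?_ ?_,
    imp_eq h.c12 ?_ ?_, imp_eq h.c13 ?_ ?_, imp_eq h.c02 ?_ ?_, imp_eq h.c03 ?_ ?_,
    imp_eq h.c23 ?_ ?_⟩ <;> simp only [vtx, cof] <;> ring

theorem TF.s34 (h : TF a b c d e f) : TF a c b e d f := by
  refine ⟨⟨h.w.t1.s2, h.w.t2.s2, h.w.t4, h.w.t3⟩, gd_sw34.trans_lt h.g, imp_eq h.c01 ?_ ?_,
    imp_eq h.c03 ?_ ?_, imp_eq h.c02 ?_ ?_, imp_eq h.c13 ?_ ?_, imp_eq h.c12 ?_ ?_,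
    imp_eq h.c23 ?_ ?_⟩ <;> simp only [vtx, cof] <;> ring

theorem TF.s23 (h : TF a b c d e f) : TF e f c d a b := by
  refine ⟨⟨h.w.t1.s1, h.w.t3.s1.s2, h.w.t2.s2.s1, h.w.t4.s1.s2.s1⟩, gd_sw23.trans_lt h.g,
    imp_eq h.c02 ?_ ?_, imp_eq h.c01 ?_ ?_, imp_eq h.c03 ?_ ?_, imp_eq h.c12 ?_ ?_,
    imp_eq h.c23 ?_ ?_, imp_eq h.c13 ?_ ?_⟩ <;> simp only [vtx, cof] <;> ring

def K (a b c d e f a' b' c' d' e' f' : ℝ) : Prop :=
  TF a b c d e f → H a' b' c' d' e' f' (W a b c d e f)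

theorem K.s12 (h : K a b c d e f a' b' c' d' e' f') : K a d e b c f a' d' e' b' c' f' :=
  fun g => W_sw12 g.s12.g ▸ (h g.s12).s12

theorem K.s34 (h : K a b c d e f a' b' c' d' e' f') : K a c b e d f a' c' b' e' d' f' :=
  fun g => W_sw34 g.s34.g ▸ (h g.s34).s34

theorem K.s23 (h : K a b c d e f a' b' c' d' e' f') : K e f c d a b e' f' c' d' a' b' :=
  fun g => W_sw23 g.s23.g ▸ (h g.s23).s23

theorem le_of_lo (h : lo a b c d e f ≤ hi a b c d e f) :
    f ≤ b + c ∧ f ≤ d + e ∧ a ≤ b + d ∧ a ≤ c + e ∧ b ≤ a + d ∧ c ≤ a + e := by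
  simp only [lo, hi, max_le_iff, le_min_iff] at h
  obtain ⟨⟨⟨h1, h2⟩, h3, h4⟩, ⟨⟨h5, h6⟩, h7, h8⟩⟩ := h
  refine ⟨?_, ?_, ?_, ?_, ?_, ?_⟩ <;> linarith [h1.1, h1.2, h2.1, h2.2, h3.1, h3.2, h4.1, h4.2]

theorem TF.odd (h : TF a b c d e f) (hf : Sc f f') :
    W (2 * π - a) b c d e f' = W a b c d e f' ∧ gd (2 * π - a) b c d e f' < 0 := by
  obtain ⟨⟨-, k2, k3⟩, k4, -⟩ := h.w.t3
  obtain ⟨⟨-, k5, k6⟩, k7, -⟩ := h.w.t1
  have s := sin_pos_of_pos_of_lt_pi (x := f) (by linarith) (by linarith)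
  have e1 : cos f' = cos f := by rcases hf with g | g <;> simp [g]
  have e2 : gd a b c d e f' < 0 := by rw [gd, e1]; exact h.g
  refine ⟨H50.odd (by linarith) (by linarith) e2 ?_ (by rw [ell, e1]; exact h.c01), gd_fl.trans_lt e2⟩
  rcases hf with g | g <;> simp [g, s.ne']

theorem go1 : K a b c d e f (2 * π - a) b c d e f := fun h C L La A => by
  obtain ⟨-, -, g1, g2, -⟩ := le_of_lo (lo_le_hi L La A)
  obtain ⟨⟨k1, k2, k3⟩, k4, k5, k6⟩ := h.w.t3
  obtain ⟨⟨k7, k8, k9⟩, -, k11, k12⟩ := h.w.t4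
  exact (h.odd (.inl rfl)).1 ▸ hyper L La A ⟨h.w.t1.sm, h.w.t2.sm,
    ⟨by linarith, by linarith, by linarith⟩, ⟨by linarith, by linarith, by linarith⟩⟩
    (lt_max_of_lt_right (lt_max_of_lt_left (by linarith))) (h.odd (.inl rfl)).2

theorem W_rot (hg : gd a b c d e f < 0) : W f b d c e a = W a b c d e f :=
  W_congr hg (by simp only [gd, gdet]; ring) (fun _ => by simp only [sX]; ring_nf)
    (fun _ => by simp only [sY]; ring_nf) fun _ => by simp only [U, dl]; ring_nf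

theorem go2 : K a b c d e f (2 * π - a) b c d e (2 * π - f) := fun h C L La A => by
  obtain ⟨g3, g4, g1, g2, -⟩ := le_of_lo (lo_le_hi L La A)
  obtain ⟨⟨k1, k2, k3⟩, k4, k5, k6⟩ := h.w.t3
  obtain ⟨⟨k7, k8, k9⟩, -, k11, k12⟩ := h.w.t4
  obtain ⟨⟨j1, j2, j3⟩, j4, -⟩ := h.w.t1
  obtain ⟨⟨j7, j8, j9⟩, -⟩ := h.w.t2
  have o := h.s23.s12.s34.s23.odd (.inl rfl)
  rw [← W_rot h.g, ← o.1, ← W_rot o.2, ← (h.odd (.inr rfl)).1]
  exact hyper L La A ⟨⟨by linarith, by linarith, by linarith⟩,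
    ⟨by linarith, by linarith, by linarith⟩, ⟨by linarith, by linarith, by linarith⟩,
    ⟨by linarith, by linarith, by linarith⟩⟩
    (lt_max_of_lt_right (lt_max_of_lt_left (by linarith))) (h.odd (.inr rfl)).2

theorem gi (h1 : f + b + c ≤ 2 * π) (h2 : f + d + e ≤ 2 * π) (h3 : a + b + d = 2 * π)
    (h4 : a + c + e ≤ 2 * π) : K a b c d e f a b c d e f := fun h C L La _ =>
  ideal L La h.w h3 (le_antisymm (max_le (max_le (by linarith) (by linarith))
    (max_le (by linarith) (by linarith))) (le_max_of_le_right (le_max_of_le_left (by linarith))))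
    h.g (.inl (h.c23 (by simp [vtx_sin a b d, h3])))

theorem go0 : K a b c d e f a b c d e f := by
  rcases lt_or_ge π (lo a b c d e f) with k | k
  · exact fun h C L La A => hyper L La A h.w.small k h.g
  simp only [lo, max_le_iff] at k
  obtain ⟨⟨k1, k2⟩, k3, k4⟩ := k
  rcases k3.eq_or_lt with j3 | j3
  · exact gi (by linarith) (by linarith) (by linarith) (by linarith)
  rcases k4.eq_or_lt with j4 | j4
  · exact (gi (by linarith) (by linarith) (by linarith) (by linarith)).s34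
  rcases k2.eq_or_lt with j2 | j2
  · exact (gi (by linarith) (by linarith) (by linarith) (by linarith)).s23
  rcases k1.eq_or_lt with j1 | j1
  · exact (gi (by linarith) (by linarith) (by linarith) (by linarith)).s23.s12
  intro h C L La _
  have R : Reg a b c d e f := ⟨h.w.t1.tri (by linarith), h.w.t2.tri (by linarith),
    h.w.t3.tri (by linarith), h.w.t4.tri (by linarith)⟩
  have v1 := R.t1.vtx_pos
  have v2 := R.t2.vtx_pos
  have v3 := R.t3.vtx_pos
  have v4 := R.t4.vtx_pos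
  have P : PosC a b c d e f := ⟨v1, v2, v3, v4, h.c01 (by positivity), h.c02 (by positivity),
    h.c03 (by positivity), h.c12 (by positivity), h.c13 (by positivity), h.c23 (by positivity)⟩
  exact W_pos R h.g P ▸ of_lim (main L La R h.g P).1 (vol_pos R h.g P).ne'

theorem TF.all (h : TF a b c d e f) (ha : Sc a a') (hb : Sc b b') (hc : Sc c c') (hd : Sc d d')
    (he : Sc e e') (hf : Sc f f') : H a' b' c' d' e' f' (W a b c d e f) := by
  refine sectors ?_ ha hb hc hd he hf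
  rintro _ _ _ (rfl | rfl) (rfl | rfl) (rfl | rfl)
  · exact go0 h
  · exact go1.s23.s34.s12.s23 h
  · exact go1.s23.s12 h
  · exact H.f2 (by simpa only [sub_sub_cancel] using go1.s23 h)
  · exact go1.s23.s34.s12 h
  · exact H.f3 (by simpa only [sub_sub_cancel] using go1.s23.s34 h)
  · exact H.f1 (by simpa only [sub_sub_cancel] using go1 h)
  · exact H.f1 (by simpa only [sub_sub_cancel] using go2 h)

/-- the vertex `0` lies in the past -/
structure TP (a b c d e f : ℝ) : Prop where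
  w : Wk4 0 a b c d e f
  g : gd a b c d e f < 0
  v2 : 0 < vtx (cos f) (cos d) (cos e)
  v3 : 0 < vtx (cos a) (cos b) (cos d)
  v4 : 0 < vtx (cos a) (cos c) (cos e)
  c01 : cof (cos f) (cos b) (cos d) (cos c) (cos e) (cos a) < 0
  c02 : cof (cos b) (cos f) (cos d) (cos c) (cos a) (cos e) < 0
  c03 : cof (cos c) (cos f) (cos e) (cos b) (cos a) (cos d) < 0
  c12 : 0 < cof (cos d) (cos f) (cos b) (cos e) (cos a) (cos c)
  c13 : 0 < cof (cos e) (cos f) (cos c) (cos d) (cos a) (cos b)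
  c23 : 0 < cof (cos a) (cos b) (cos c) (cos d) (cos e) (cos f)

theorem TP.base (h : TP a b c d e f) : H a b c d e f (W a b c d e f) := by
  have k2 := h.w.t2.lt h.v2
  have k3 := h.w.t3.lt h.v3
  have k4 := h.w.t4.lt h.v4
  rcases lt_trichotomy (f + b + c) (2 * π) with k | k | k
  · intro C L La _
    have R : Reg (π - a) b c (π - d) (π - e) f := H79.reg_flip (by
      simpa using (⟨h.w.t1.tri k, h.w.t2.tri k2, h.w.t3.tri k3, h.w.t4.tri k4⟩ : Reg a b c d e f))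
    have g : gd (π - a) b c (π - d) (π - e) f < 0 := by
      have := h.g
      simp only [gd, gdet, cos_pi_sub] at this ⊢
      linarith
    have P : PosC (π - a) b c (π - d) (π - e) f := by
      obtain ⟨-, -, -, -, -, j1, j2, j3, j4, j5, j6⟩ := h
      refine ⟨R.t1.vtx_pos, R.t2.vtx_pos, R.t3.vtx_pos, R.t4.vtx_pos, ?_, ?_, ?_, ?_, ?_, ?_⟩ <;>
        simp only [cof, cos_pi_sub] at * <;> linarith
    exact W_neg R g P ▸ of_lim (H79.neg_vol R g P L La) (neg_ne_zero.2 (vol_pos R g P).ne')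
  · refine H.s23 (H.s12 (H.s34 (H.s23 fun C L La _ => W_rot h.g ▸ ?_)))
    exact ideal L La ⟨h.w.t3, h.w.t4, h.w.t1, h.w.t2⟩ k (le_antisymm (max_le (max_le (by linarith)
      (by linarith)) (max_le (by linarith) (by linarith)))
      (le_max_of_le_right (le_max_of_le_left (by linarith))))
      (by have := h.g; simp only [gd, gdet] at this ⊢; linarith) (.inr ⟨h.v3.ne', h.v4.ne', h.v2.ne'⟩)
  · exact fun C L La A => hyper L La A h.w.small
      (lt_max_of_lt_left (lt_max_of_lt_left (by linarith))) h.g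

theorem TP.all (h : TP a b c d e f) (ha : Sc a a') (hb : Sc b b') (hc : Sc c c') (hd : Sc d d')
    (he : Sc e e') (hf : Sc f f') : H a' b' c' d' e' f' (W a b c d e f) := by
  refine sectors (fun b' c' f' hb hc hf C L La A => ?_) ha hb hc hd he hf
  obtain ⟨-, g1, -, -, g2, g3⟩ := le_of_lo (lo_le_hi L La A)
  obtain rfl := hf.resolve_right fun k => by linarith [h.w.t2.lt h.v2]
  obtain rfl := hb.resolve_right fun k => by linarith [h.w.t3.lt h.v3]
  obtain rfl := hc.resolve_right fun k => by linarith [h.w.t4.lt h.v4]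
  exact h.base C L La A

/-- the growth rate is `V` in all sign sectors -/
def HA (a b c d e f V : ℝ) : Prop := ∀ a' b' c' d' e' f', Sc a a' → Sc b b' → Sc c c' → Sc d d' →
  Sc e e' → Sc f f' → H a' b' c' d' e' f' V

theorem HA.fin {ta tb tc td te tf : ℝ}
    (hV : HA (π - ta) (π - tb) (π - tc) (π - td) (π - te) (π - tf) V) {a b c d e f : ℕ → ℕ}
    (adm : ∀ᶠ m : ℕ in atTop, Adm (2 * m + 1) (f m) (b m) (c m) ∧ Adm (2 * m + 1) (f m) (d m) (e m) ∧
      Adm (2 * m + 1) (b m) (d m) (a m) ∧ Adm (2 * m + 1) (c m) (e m) (a m))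
    (ha : H79.Conv a ta) (hb' : H79.Conv b tb) (hc : H79.Conv c tc) (hd : H79.Conv d td)
    (he : H79.Conv e te) (hf : H79.Conv f tf) :
    H79.Lim (fun m => bracket (2 * m + 1) (f m) (b m) (c m) (d m) (e m) (a m)) V := by
  choose C hC using fun m => exists_col m (a m) (b m) (c m) (d m) (e m) (f m)
  have E := ((eventually_ge_atTop 1).and adm).mono fun m g =>
    And.intro g.1 (hC m g.1 g.2.1 g.2.2.1 g.2.2.2.1 g.2.2.2.2)
  obtain ⟨_, a3, a4⟩ := an_lim (E.mono fun _ g => g.2.1) ha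
  obtain ⟨_, b3, b4⟩ := an_lim (E.mono fun _ g => g.2.2.1) hb'
  obtain ⟨_, c3, c4⟩ := an_lim (E.mono fun _ g => g.2.2.2.1) hc
  obtain ⟨_, d3, d4⟩ := an_lim (E.mono fun _ g => g.2.2.2.2.1) hd
  obtain ⟨_, e3, e4⟩ := an_lim (E.mono fun _ g => g.2.2.2.2.2.1) he
  obtain ⟨_, f3, f4⟩ := an_lim (E.mono fun _ g => g.2.2.2.2.2.2.1) hf
  obtain ⟨M1, M2⟩ := hV _ _ _ _ _ _ a3 b3 c3 d3 e3 f3 C ⟨b4, c4, d4, e4, f4⟩ a4
    (E.mono fun _ g => g.2.2.2.2.2.2.2)
  obtain ⟨U, M⟩ := to_lim M1 M2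
  have B := E.mono fun m g => bracket_eq (C m) g.1 g.2.2.2.2.2.2.2 g.2.1 g.2.2.1 g.2.2.2.1
    g.2.2.2.2.1 g.2.2.2.2.2.1 g.2.2.2.2.2.2.1
  have S := E.mono fun m g => show 0 < |2 * sin (hb m)| / (2 * m + 1 : ℕ) from
    div_pos (abs_pos.2 (s_ne g.1)) (by positivity)
  refine ⟨by filter_upwards [B, U, S] with m k1 k2 k3 using k1 ▸ mul_pos k3 k2, ?_⟩
  have := pref_lim.add M
  rw [zero_add] at this
  refine this.congr' ?_
  filter_upwards [B, U, S] with m k1 k2 k3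
  rw [k1, log_mul k3.ne' k2.ne', log_abs, hb]
  ring

end Pool.Agent.MP_b0afd3_gt.H50
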