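import Pool.Agent.MP_b0afd3_gt.H80.Final

set_option autoImplicit false

namespace Pool.Agent.MP_b0afd3_gt.H50

open Real Filter Topology Pool.Agent.MP_b0afd3_gt.H80

/-- half the derivative of the critical point equation -/
noncomputable def Dd (a b c d e f ξ : ℝ) : ℝ :=
  e1 a b c d e f * sin (2 * ξ - (b + c + d + e) / 2) -
    e2 a b c d e f * cos (2 * ξ - (b + c + d + e) / 2)

/-- the value of the potential at the geometric critical point -/
noncomputable def W (a b c d e f : ℝ) : ℝ := U a b c d e f (rt 1 a b c d e f)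

/-- half of the signed length of the edge `a` -/
noncomputable def hl (a b c d e f : ℝ) : ℝ :=
  (log (cof (cos a) (cos b) (cos c) (cos d) (cos e) (cos f) + sin a * √(-gd a b c d e f)) -
    log (vtx (cos a) (cos b) (cos d) * vtx (cos a) (cos c) (cos e)) / 2) / 2

variable {a b c d e f ξ : ℝ}

theorem K12 (a b c d e f η : ℝ) :
    cA b c d e a * (cos ((b + d - c - e) / 2) - cos (η - a)) -
      cof (cos a) (cos b) (cos c) (cos d) (cos e) (cos f) *
        (cos ((b + e - c - d) / 2) - cos (η - a - f)) +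
      sin a * (e1 a b c d e f * sin η - e2 a b c d e f * cos η) *
        (cos ((b + e - c - d) / 2) - cos (η - a - f)) =
      (sin a * sin (η - a - f) - (cos ((b + c - d - e) / 2) - cos ((b + e - c - d) / 2) * cos a)) *
        (e0 a b c d e f - e1 a b c d e f * cos η - e2 a b c d e f * sin η) ∧
    cC b c d e a * (cos ((b + e - c - d) / 2) - cos (η - a - f)) -
      cof (cos a) (cos b) (cos c) (cos d) (cos e) (cos f) *
        (cos ((b + d - c - e) / 2) - cos (η - a)) -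
      sin a * (e1 a b c d e f * sin η - e2 a b c d e f * cos η) *
        (cos ((b + d - c - e) / 2) - cos (η - a)) =
      (-(sin a * sin (η - a)) + (cos ((b + c + d + e) / 2) - cos ((b + d - c - e) / 2) * cos a)) *
        (e0 a b c d e f - e1 a b c d e f * cos η - e2 a b c d e f * sin η) := by
  obtain ⟨u, v, rfl, rfl⟩ : ∃ u v, b = u + v ∧ d = u - v := ⟨(b + d) / 2, (b - d) / 2, by ring, by ring⟩
  obtain ⟨x, y, rfl, rfl⟩ : ∃ x y, c = x + y ∧ e = x - y := ⟨(c + e) / 2, (c - e) / 2, by ring, by ring⟩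
  rw [e0, e1, e2, cA, cC, cof, show (u + v + (x - y) - (x + y) - (u - v)) / 2 = v - y by ring,
    show (u + v + (x + y) + (u - v) + (x - y)) / 2 = u + x by ring,
    show (u + v + (u - v) - (x + y) - (x - y)) / 2 = u - x by ring,
    show (u + v + (x + y) - (u - v) - (x - y)) / 2 = v + y by ring,
    show u + v - (u - v) = v + v by ring, show x + y - (x - y) = y + y by ring,
    show u + v + (u - v) = u + u by ring, show x + y + (x - y) = x + x by ring]
  simp only [cos_add, cos_sub, sin_add, sin_sub]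
  have := sin_sq_add_cos_sq u
  have := sin_sq_add_cos_sq v
  have := sin_sq_add_cos_sq x
  have := sin_sq_add_cos_sq y
  have := sin_sq_add_cos_sq a
  have := sin_sq_add_cos_sq f
  have := sin_sq_add_cos_sq η
  constructor <;> grind

theorem K1 (h0 : sY a b c d e f ξ = sX a b c d e f ξ) :
    cA b c d e a * (sin (ξ - (a + b + d) / 2) * sin (ξ - (a + c + e) / 2)) =
      (cof (cos a) (cos b) (cos c) (cos d) (cos e) (cos f) - sin a * Dd a b c d e f ξ) *
        (sin ((a + f + b + e) / 2 - ξ) * sin ((a + f + c + d) / 2 - ξ)) ∧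
    cC b c d e a * (sin ((a + f + b + e) / 2 - ξ) * sin ((a + f + c + d) / 2 - ξ)) =
      (cof (cos a) (cos b) (cos c) (cos d) (cos e) (cos f) + sin a * Dd a b c d e f ξ) *
        (sin (ξ - (a + b + d) / 2) * sin (ξ - (a + c + e) / 2)) := by
  have m : ∀ x y, cos (x - y) - cos (x + y) = 2 * (sin x * sin y) := fun x y => by
    rw [cos_sub, cos_add]; ring
  have x0 : cos ((b + d - c - e) / 2) - cos (2 * ξ - (b + c + d + e) / 2 - a) =
      2 * (sin (ξ - (a + c + e) / 2) * sin (ξ - (a + b + d) / 2)) := by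
    rw [← m]; congr 2 <;> ring
  have y0 : cos ((b + e - c - d) / 2) - cos (2 * ξ - (b + c + d + e) / 2 - a - f) =
      2 * (sin ((a + f + b + e) / 2 - ξ) * sin ((a + f + c + d) / 2 - ξ)) := by
    rw [← m, ← cos_neg (_ - f)]; congr 2 <;> ring
  have n := normal a b c d e f ξ
  obtain ⟨k1, k2⟩ := K12 a b c d e f (2 * ξ - (b + c + d + e) / 2)
  rw [← n, h0, sub_self, mul_zero, mul_zero, x0, y0] at k1 k2
  rw [Dd]
  constructor
  · linear_combination k1 / 2
  · linear_combination k2 / 2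

theorem N_deriv (a b c d e f ξ : ℝ) :
    HasDerivAt (fun t => 4 * (sY a b c d e f t - sX a b c d e f t)) (2 * Dd a b c d e f ξ) ξ := by
  simp only [normal]
  have h : HasDerivAt (fun t : ℝ => 2 * t - (b + c + d + e) / 2) 2 ξ := by
    simpa using ((hasDerivAt_id' ξ).const_mul 2).sub_const ((b + c + d + e) / 2)
  refine (((h.cos.const_mul _).const_sub _).sub (h.sin.const_mul _)).congr_deriv ?_
  rw [Dd]; ring

theorem Dd_congr {a' b' c' d' e' f' : ℝ} (hX : ∀ t, sX a' b' c' d' e' f' t = sX a b c d e f t)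
    (hY : ∀ t, sY a' b' c' d' e' f' t = sY a b c d e f t) :
    Dd a' b' c' d' e' f' ξ = Dd a b c d e f ξ := by
  have h1 := N_deriv a' b' c' d' e' f' ξ
  simp only [hX, hY] at h1
  linarith [h1.unique (N_deriv a b c d e f ξ)]

theorem E1_ne (hg : gd a b c d e f < 0) : E1 a b c d e f ≠ 0 := fun g => by
  have h1 := E1_sq a b c d e f
  rw [g, norm_zero] at h1
  nlinarith [sq_nonneg (e0 a b c d e f)]

theorem om_abs (hg : gd a b c d e f < 0) :
    -1 < -e0 a b c d e f / ‖E1 a b c d e f‖ ∧ -e0 a b c d e f / ‖E1 a b c d e f‖ < 1 := by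
  have h1 := norm_pos_iff.2 (E1_ne hg)
  have h2 := _root_.abs_lt.1 (abs_lt_of_sq_lt_sq (a := e0 a b c d e f)
    (by linarith [E1_sq a b c d e f]) h1.le)
  exact ⟨by rw [lt_div_iff₀ h1]; linarith, by rw [div_lt_iff₀ h1]; linarith⟩

theorem om_mem (hg : gd a b c d e f < 0) : 0 < om a b c d e f ∧ om a b c d e f < π :=
  ⟨arccos_pos.2 (om_abs hg).2, arccos_lt_pi.2 (om_abs hg).1⟩

theorem form (hg : gd a b c d e f < 0) (ξ : ℝ) :
    4 * (sY a b c d e f ξ - sX a b c d e f ξ) = ‖E1 a b c d e f‖ *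
      (cos (2 * ξ - (b + c + d + e) / 2 - (E1 a b c d e f).arg) - cos (om a b c d e f)) := by
  have h0 := E1_ne hg
  have h1 := norm_pos_iff.2 h0
  rw [normal, om, cos_arccos (om_abs hg).1.le (om_abs hg).2.le,
    cos_sub _ (Complex.arg _), Complex.cos_arg h0, Complex.sin_arg]
  field_simp
  simp [E1]
  ring

theorem Dd_form (hg : gd a b c d e f < 0) (ξ : ℝ) : Dd a b c d e f ξ =
    -(‖E1 a b c d e f‖ * sin (2 * ξ - (b + c + d + e) / 2 - (E1 a b c d e f).arg)) := by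
  have h0 := E1_ne hg
  have h1 := norm_pos_iff.2 h0
  rw [Dd, sin_sub _ (Complex.arg _), Complex.cos_arg h0, Complex.sin_arg]
  field_simp
  simp [E1]
  ring

theorem sin_om (hg : gd a b c d e f < 0) :
    ‖E1 a b c d e f‖ * sin (om a b c d e f) = √(-gd a b c d e f) := by
  have h1 := norm_pos_iff.2 (E1_ne hg)
  have h2 := sin_pos_of_pos_of_lt_pi (om_mem hg).1 (om_mem hg).2
  rw [eq_comm, sqrt_eq_iff_eq_sq (by linarith) (by positivity), mul_pow, sin_sq, om,
    cos_arccos (om_abs hg).1.le (om_abs hg).2.le]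
  field_simp
  linarith [E1_sq a b c d e f]

theorem rt_root (hg : gd a b c d e f < 0) :
    sY a b c d e f (rt 1 a b c d e f) = sX a b c d e f (rt 1 a b c d e f) ∧
      Dd a b c d e f (rt 1 a b c d e f) = -√(-gd a b c d e f) := by
  have h1 := form hg (rt 1 a b c d e f)
  have h2 := Dd_form hg (rt 1 a b c d e f)
  rw [show 2 * rt 1 a b c d e f - (b + c + d + e) / 2 - (E1 a b c d e f).arg = om a b c d e f by
    rw [rt]; ring] at h1 h2
  rw [sin_om hg] at h2
  exact ⟨by linarith, h2⟩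

theorem root_eq (hg : gd a b c d e f < 0) (h0 : sY a b c d e f ξ = sX a b c d e f ξ)
    (hD : Dd a b c d e f ξ ≤ 0) : ∃ k : ℤ, ξ = rt 1 a b c d e f + k * π := by
  have h1 := form hg ξ
  have h2 := Dd_form hg ξ
  have h3 := norm_pos_iff.2 (E1_ne hg)
  rw [h0, sub_self, mul_zero, eq_comm, mul_eq_zero, sub_eq_zero] at h1
  have h4 := h1.resolve_left h3.ne'
  have h5 := sin_pos_of_pos_of_lt_pi (om_mem hg).1 (om_mem hg).2
  obtain ⟨k, hk | hk⟩ := cos_eq_cos_iff.1 h4.symm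
  · exact ⟨k, by rw [rt]; linarith⟩
  · rw [hk, show 2 * k * π - om a b c d e f = -om a b c d e f + k * (2 * π) by ring,
      sin_add_int_mul_two_pi, sin_neg] at h2
    nlinarith [mul_pos h3 h5]

theorem W_eq (hg : gd a b c d e f < 0) (h0 : sY a b c d e f ξ = sX a b c d e f ξ)
    (hD : Dd a b c d e f ξ ≤ 0) : U a b c d e f ξ = W a b c d e f := by
  obtain ⟨k, rfl⟩ := root_eq hg h0 hD
  rw [U_per, W]

theorem Dd_root (hg : gd a b c d e f < 0) (h0 : sY a b c d e f ξ = sX a b c d e f ξ)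
    (hD : Dd a b c d e f ξ ≤ 0) : Dd a b c d e f ξ = -√(-gd a b c d e f) := by
  obtain ⟨k, rfl⟩ := root_eq hg h0 hD
  rw [← (rt_root hg).2, Dd, Dd, show 2 * (rt 1 a b c d e f + k * π) - (b + c + d + e) / 2 =
    2 * rt 1 a b c d e f - (b + c + d + e) / 2 + k * (2 * π) by ring, sin_add_int_mul_two_pi,
    cos_add_int_mul_two_pi]

theorem W_congr {a' b' c' d' e' f' : ℝ} (hg : gd a b c d e f < 0)
    (hg' : gd a' b' c' d' e' f' = gd a b c d e f)
    (hX : ∀ t, sX a' b' c' d' e' f' t = sX a b c d e f t)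
    (hY : ∀ t, sY a' b' c' d' e' f' t = sY a b c d e f t)
    (hU : ∀ t, U a' b' c' d' e' f' t = U a b c d e f t) : W a' b' c' d' e' f' = W a b c d e f := by
  obtain ⟨h1, h2⟩ := rt_root hg
  rw [← W_eq (ξ := rt 1 a b c d e f) (hg' ▸ hg) (by rw [hX, hY, h1])
    (by rw [Dd_congr hX hY, h2]; exact neg_nonpos.2 (sqrt_nonneg _)), hU, W]

/-- the four sines of a vertex -/
theorem vtx_sin (x y z : ℝ) : vtx (cos x) (cos y) (cos z) =
    4 * (sin ((x + y + z) / 2) * sin ((y + z - x) / 2) * sin ((x + z - y) / 2) *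
      sin ((x + y - z) / 2)) := by
  rw [vtx_eq, cos_sub_a, cos_sub_c]; ring

theorem vtx_ne {x y z : ℝ} (h : vtx (cos x) (cos y) (cos z) ≠ 0) :
    sin ((x + y + z) / 2) ≠ 0 ∧ sin ((y + z - x) / 2) ≠ 0 ∧ sin ((x + z - y) / 2) ≠ 0 ∧
      sin ((x + y - z) / 2) ≠ 0 := by
  rw [vtx_sin] at h
  simpa only [ne_eq, mul_eq_zero, not_or, and_assoc, OfNat.ofNat_ne_zero, not_false_eq_true,
    true_and] using h

theorem pa_hl (hg : gd a b c d e f < 0) (h0 : sY a b c d e f ξ = sX a b c d e f ξ)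
    (hD : Dd a b c d e f ξ ≤ 0) (h3 : vtx (cos a) (cos b) (cos d) ≠ 0)
    (h4 : vtx (cos a) (cos c) (cos e) ≠ 0) (x3 : sin (ξ - (a + b + d) / 2) ≠ 0)
    (x4 : sin (ξ - (a + c + e) / 2) ≠ 0) (y1 : sin ((a + f + b + e) / 2 - ξ) ≠ 0)
    (y2 : sin ((a + f + c + d) / 2 - ξ) ≠ 0) : pa a b c d e f ξ = hl a b c d e f := by
  have k := (K1 h0).1
  rw [Dd_root hg h0 hD, mul_neg, sub_neg_eq_add] at k
  have hAC := mul_ne_zero h3 h4
  rw [← cA_cC] at hAC
  have hA := left_ne_zero_of_mul hAC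
  have hC := right_ne_zero_of_mul hAC
  have e1 : 2 * dd a b d + 2 * dd a c e = log (cC b c d e a) - log (cA b c d e a) := by
    obtain ⟨s1, s2, s3, s4⟩ := vtx_ne h3
    obtain ⟨s5, s6, s7, s8⟩ := vtx_ne h4
    simp only [dd, ls, cA, cC, cos_sub_a, cos_sub_c]
    repeat rw [log_mul (by positivity) (by positivity)]
    ring
  have e3 := ls_mul x3 x4
  have e4 := ls_mul y1 y2
  have hX := mul_ne_zero x3 x4
  have hY := mul_ne_zero y1 y2
  rw [log_mul four_ne_zero hX] at e3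
  rw [log_mul four_ne_zero hY] at e4
  have e5 := congrArg log k
  rw [log_mul hA hX, log_mul (left_ne_zero_of_mul (k ▸ mul_ne_zero hA hX)) hY] at e5
  rw [pa, hl, ← cA_cC, log_mul hA hC]
  linarith

/-- no vertex is ideal or degenerate -/
structure NI (a b c d e f : ℝ) : Prop where
  v1 : vtx (cos f) (cos b) (cos c) ≠ 0
  v2 : vtx (cos f) (cos d) (cos e) ≠ 0
  v3 : vtx (cos a) (cos b) (cos d) ≠ 0
  v4 : vtx (cos a) (cos c) (cos e) ≠ 0

theorem sin_two {x y z : ℝ} (hx : sin x = 0) (hy : sin y = 0) (h : z = x + y ∨ z = y - x) :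
    sin z = 0 := by
  rcases h with rfl | rfl
  · rw [sin_add, hx, hy]; ring
  · rw [sin_sub, hx, hy]; ring

theorem NI.nz (h : NI a b c d e f) (h0 : sY a b c d e f ξ = sX a b c d e f ξ) :
    Nz a b c d e f ξ := by
  have : sX a b c d e f ξ ≠ 0 := fun g => by
    have g' := h0.trans g
    obtain ⟨p1, p2, p3, p4⟩ := vtx_ne h.v1
    obtain ⟨q1, q2, q3, q4⟩ := vtx_ne h.v2
    obtain ⟨r1, r2, r3, r4⟩ := vtx_ne h.v3
    obtain ⟨s1, s2, s3, s4⟩ := vtx_ne h.v4
    simp only [sX, sY, mul_eq_zero, neg_eq_zero] at g g'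
    rcases g with ((g | g) | g) | g <;> rcases g' with ((k | k) | k) | k
    exacts [s3 (sin_two g k (.inl (by ring))), r3 (sin_two g k (.inl (by ring))),
      q2 (sin_two g k (.inl (by ring))), p1 (sin_two g k (.inr (by ring))),
      r4 (sin_two g k (.inl (by ring))), s4 (sin_two g k (.inl (by ring))),
      p2 (sin_two g k (.inl (by ring))), q1 (sin_two g k (.inr (by ring))),
      q3 (sin_two g k (.inl (by ring))), p3 (sin_two g k (.inl (by ring))),
      s2 (sin_two g k (.inl (by ring))), r1 (sin_two g k (.inr (by ring))),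
      p4 (sin_two g k (.inl (by ring))), q4 (sin_two g k (.inl (by ring))),
      r2 (sin_two g k (.inl (by ring))), s1 (sin_two g k (.inr (by ring)))]
  have h1 : sX a b c d e f ξ * sY a b c d e f ξ ≠ 0 := mul_ne_zero this (h0 ▸ this)
  simpa only [Nz, sX, sY, ne_eq, mul_eq_zero, neg_eq_zero, not_or] using h1

theorem dl_deriv' {x y z : ℝ → ℝ} {x' y' z' t : ℝ} (hx : HasDerivAt x x' t) (hy : HasDerivAt y y' t)
    (hz : HasDerivAt z z' t) (h : vtx (cos (x t)) (cos (y t)) (cos (z t)) ≠ 0) :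
    HasDerivAt (fun s => dl (x s) (y s) (z s))
      (dd (x t) (y t) (z t) * x' + dd (y t) (x t) (z t) * y' + dd (z t) (x t) (y t) * z') t := by
  obtain ⟨s0, s1, s2, s3⟩ := vtx_ne h
  have := (((lob_comp (((hx.add hy).sub hz).div_const 2) s3).add
    (lob_comp (((hx.add hz).sub hy).div_const 2) s2)).add
    (lob_comp (((hy.add hz).sub hx).div_const 2) s1)).sub
    (lob_comp (((hx.add hy).add hz).div_const 2) s0)
  refine this.congr_deriv ?_
  simp only [dd, Pi.add_apply, Pi.sub_apply]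
  ring_nf

theorem U_deriv' {a b c d e f ξ : ℝ → ℝ} {a' b' c' d' e' f' ξ' t : ℝ} (ha : HasDerivAt a a' t)
    (hb : HasDerivAt b b' t) (hc : HasDerivAt c c' t) (hd : HasDerivAt d d' t)
    (he : HasDerivAt e e' t) (hf : HasDerivAt f f' t) (hξ : HasDerivAt ξ ξ' t)
    (h : NI (a t) (b t) (c t) (d t) (e t) (f t))
    (h0 : sY (a t) (b t) (c t) (d t) (e t) (f t) (ξ t) =
      sX (a t) (b t) (c t) (d t) (e t) (f t) (ξ t)) :
    HasDerivAt (fun s => U (a s) (b s) (c s) (d s) (e s) (f s) (ξ s))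
      (pa (a t) (b t) (c t) (d t) (e t) (f t) (ξ t) * a' +
        pa (b t) (f t) (d t) (c t) (a t) (e t) (ξ t) * b' +
        pa (c t) (f t) (e t) (b t) (a t) (d t) (ξ t) * c' +
        pa (d t) (f t) (b t) (e t) (a t) (c t) (ξ t) * d' +
        pa (e t) (f t) (c t) (d t) (a t) (b t) (ξ t) * e' +
        pa (f t) (b t) (d t) (c t) (e t) (a t) (ξ t) * f') t := by
  obtain ⟨⟨⟨⟨x1, x2⟩, x3⟩, x4⟩, ⟨⟨y1, y2⟩, y3⟩, y4⟩ := h.nz h0
  have := ((((((((lob_comp (hξ.sub (((hf.add hb).add hc).div_const 2)) x1).add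
    (lob_comp (hξ.sub (((hf.add hd).add he).div_const 2)) x2)).add
    (lob_comp (hξ.sub (((ha.add hb).add hd).div_const 2)) x3)).add
    (lob_comp (hξ.sub (((ha.add hc).add he).div_const 2)) x4)).add
    (lob_comp (((((ha.add hf).add hb).add he).div_const 2).sub hξ) y1)).add
    (lob_comp (((((ha.add hf).add hc).add hd).div_const 2).sub hξ) y2)).add
    (lob_comp (((((hb.add hc).add hd).add he).div_const 2).sub hξ) y3)).sub
    (lob_comp hξ y4)).sub (((((dl_deriv' hf hb hc h.v1).add (dl_deriv' hf hd he h.v2)).add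
    (dl_deriv' ha hb hd h.v3)).add (dl_deriv' ha hc he h.v4)).div_const 2)
  refine this.congr_deriv ?_
  have e : ls ((a t + f t + b t + e t) / 2 - ξ t) + ls ((a t + f t + c t + d t) / 2 - ξ t) +
      ls ((b t + c t + d t + e t) / 2 - ξ t) + ls (ξ t) = ls (ξ t - (f t + b t + c t) / 2) +
      ls (ξ t - (f t + d t + e t) / 2) + ls (ξ t - (a t + b t + d t) / 2) +
      ls (ξ t - (a t + c t + e t) / 2) := by
    have k := congrArg log h0
    simp only [sX, sY, log_neg_eq_log] at k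
    repeat rw [log_mul (by positivity) (by positivity)] at k
    simp only [ls]
    repeat rw [log_mul (by positivity) (by positivity)]
    linarith
  simp only [pa, dd, Pi.add_apply, Pi.sub_apply]
  have e' := congrArg (· * ξ') e
  beta_reduce at e'
  ring_nf at e' ⊢
  linarith

theorem W_lim {X : Type} {l : Filter X} {a' b' c' d' e' f' : X → ℝ} (hg : gd a b c d e f < 0)
    (ha : Tendsto a' l (𝓝 a)) (hb : Tendsto b' l (𝓝 b)) (hc : Tendsto c' l (𝓝 c))
    (hd : Tendsto d' l (𝓝 d)) (he : Tendsto e' l (𝓝 e)) (hf : Tendsto f' l (𝓝 f)) :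
    Tendsto (fun s => W (a' s) (b' s) (c' s) (d' s) (e' s) (f' s)) l (𝓝 (W a b c d e f)) := by
  have h0 := E1_ne hg
  have T := ha.prodMk_nhds (hb.prodMk_nhds (hc.prodMk_nhds (hd.prodMk_nhds (he.prodMk_nhds hf))))
  have c1 : Continuous fun v : ℝ × ℝ × ℝ × ℝ × ℝ × ℝ =>
      E1 v.1 v.2.1 v.2.2.1 v.2.2.2.1 v.2.2.2.2.1 v.2.2.2.2.2 := by
    unfold E1 e1 e2; fun_prop
  have c0 : Continuous fun v : ℝ × ℝ × ℝ × ℝ × ℝ × ℝ =>
      e0 v.1 v.2.1 v.2.2.1 v.2.2.2.1 v.2.2.2.2.1 v.2.2.2.2.2 := by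
    unfold e0; fun_prop
  have t1 := (c1.tendsto _).comp T
  have t0 := (c0.tendsto _).comp T
  simp only [Function.comp_def] at t1 t0
  have t2 : Tendsto (fun s => om (a' s) (b' s) (c' s) (d' s) (e' s) (f' s)) l
      (𝓝 (om a b c d e f)) :=
    (continuous_arccos.tendsto _).comp (t0.neg.div t1.norm (norm_ne_zero_iff.2 h0))
  have t3 : Tendsto (fun s => (E1 (a' s) (b' s) (c' s) (d' s) (e' s) (f' s) / E1 a b c d e f).arg) l
      (𝓝 0) := by
    have := (Complex.continuousAt_arg (x := E1 a b c d e f / E1 a b c d e f)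
      (by simp [h0])).tendsto.comp (t1.div_const _)
    simpa [h0, Function.comp_def] using this
  have t4 := (((t3.add_const (E1 a b c d e f).arg).add (t2.const_mul 1)).add
    ((((hb.add hc).add hd).add he).div_const 2)).div_const 2
  have c2 : Continuous fun p : (ℝ × ℝ × ℝ × ℝ × ℝ × ℝ) × ℝ =>
      U p.1.1 p.1.2.1 p.1.2.2.1 p.1.2.2.2.1 p.1.2.2.2.2.1 p.1.2.2.2.2.2 p.2 := by
    have := lob_cont
    unfold U dl; fun_prop
  have t5 := (c2.tendsto _).comp (T.prodMk_nhds t4)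
  simp only [Function.comp_def, zero_add] at t5
  refine t5.congr' ?_
  filter_upwards [t1.eventually_ne h0] with s hs
  have h2 := Complex.arg_mul_coe_angle (div_ne_zero hs h0) h0
  rw [div_mul_cancel₀ _ h0, ← Real.Angle.coe_add, Real.Angle.angle_eq_iff_two_pi_dvd_sub] at h2
  obtain ⟨k, hk⟩ := h2
  simp only [W, rt]
  rw [← U_per _ k]
  congr 1
  linarith

theorem W_deriv {a b c d e f : ℝ → ℝ} {a' b' c' d' e' f' t : ℝ} (ha : HasDerivAt a a' t)
    (hb : HasDerivAt b b' t) (hc : HasDerivAt c c' t) (hd : HasDerivAt d d' t)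
    (he : HasDerivAt e e' t) (hf : HasDerivAt f f' t)
    (h : NI (a t) (b t) (c t) (d t) (e t) (f t)) (hg : gd (a t) (b t) (c t) (d t) (e t) (f t) < 0) :
    HasDerivAt (fun s => W (a s) (b s) (c s) (d s) (e s) (f s))
      (hl (a t) (b t) (c t) (d t) (e t) (f t) * a' + hl (b t) (f t) (d t) (c t) (a t) (e t) * b' +
        hl (c t) (f t) (e t) (b t) (a t) (d t) * c' + hl (d t) (f t) (b t) (e t) (a t) (c t) * d' +
        hl (e t) (f t) (c t) (d t) (a t) (b t) * e' +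
        hl (f t) (b t) (d t) (c t) (e t) (a t) * f') t := by
  have k := e_diff ha hb hc hd he hf
  have h0 := E1_ne hg
  have ho : DifferentiableAt ℝ (fun s => om (a s) (b s) (c s) (d s) (e s) (f s)) t :=
    (hasDerivAt_arccos (om_abs hg).1.ne' (om_abs hg).2.ne).differentiableAt.comp t
      (k.1.neg.div (k.2.norm ℂ h0) (norm_ne_zero_iff.2 h0))
  obtain ⟨φ, h1, h2, h3⟩ := arg_lift k.2 h0
  have h6 := ((h1.hasDerivAt.add (ho.hasDerivAt.const_mul 1)).add
    ((((hb.add hc).add hd).add he).div_const 2)).div_const 2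
  obtain ⟨r1, r2⟩ := rt_root hg
  set ξ := rt 1 (a t) (b t) (c t) (d t) (e t) (f t) with hξ
  have h7 : (φ t + 1 * om (a t) (b t) (c t) (d t) (e t) (f t) + (b t + c t + d t + e t) / 2) / 2
      = ξ := by rw [hξ, rt, h2]
  have h8 := U_deriv' ha hb hc hd he hf h6 h (by simpa only [Pi.add_apply, h7] using r1)
  simp only [Pi.add_apply, h7] at h8
  obtain ⟨⟨⟨⟨x1, x2⟩, x3⟩, x4⟩, ⟨⟨y1, y2⟩, y3⟩, y4⟩ := h.nz r1
  obtain ⟨v1, v2, v3, v4⟩ := h
  have D0 : Dd (a t) (b t) (c t) (d t) (e t) (f t) ξ ≤ 0 := r2 ▸ neg_nonpos.2 (sqrt_nonneg _)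
  have P : ∀ a' b' c' d' e' f', gd a' b' c' d' e' f' = gd (a t) (b t) (c t) (d t) (e t) (f t) →
      (∀ s, sX a' b' c' d' e' f' s = sX (a t) (b t) (c t) (d t) (e t) (f t) s) →
      (∀ s, sY a' b' c' d' e' f' s = sY (a t) (b t) (c t) (d t) (e t) (f t) s) →
      NI a' b' c' d' e' f' → pa a' b' c' d' e' f' ξ = hl a' b' c' d' e' f' := by
    intro a' b' c' d' e' f' g1 g2 g3 g4
    have g5 : sY a' b' c' d' e' f' ξ = sX a' b' c' d' e' f' ξ := by rw [g2, g3, r1]
    obtain ⟨⟨⟨⟨x1, x2⟩, x3⟩, x4⟩, ⟨⟨y1, y2⟩, y3⟩, y4⟩ := g4.nz g5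
    exact pa_hl (g1 ▸ hg) g5 (Dd_congr g2 g3 ▸ D0) g4.v3 g4.v4 x3 x4 y1 y2
  have Q : ∀ x y z, vtx x y z = vtx y x z ∧ vtx x y z = vtx z x y ∧ vtx x y z = vtx y z x ∧
      vtx x y z = vtx x z y ∧ vtx x y z = vtx z y x := fun x y z => by
    simp only [vtx]; refine ⟨?_, ?_, ?_, ?_, ?_⟩ <;> ring
  rw [P _ _ _ _ _ _ rfl (fun _ => rfl) (fun _ => rfl) ⟨v1, v2, v3, v4⟩,
    P (b t) _ _ _ _ _ (by simp only [gd, gdet]; ring) (fun _ => by simp only [sX]; ring_nf)
      (fun _ => by simp only [sY]; ring_nf)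
      ⟨(Q _ _ _).2.1 ▸ v2, (Q _ _ _).2.2.2.2 ▸ v4, (Q _ _ _).1 ▸ v1, (Q _ _ _).2.2.1 ▸ v3⟩,
    P (c t) _ _ _ _ _ (by simp only [gd, gdet]; ring) (fun _ => by simp only [sX]; ring_nf)
      (fun _ => by simp only [sY]; ring_nf)
      ⟨(Q _ _ _).1 ▸ v2, (Q _ _ _).2.2.2.2 ▸ v3, (Q _ _ _).2.1 ▸ v1, (Q _ _ _).2.2.1 ▸ v4⟩,
    P (d t) _ _ _ _ _ (by simp only [gd, gdet]; ring) (fun _ => by simp only [sX]; ring_nf)
      (fun _ => by simp only [sY]; ring_nf)
      ⟨(Q _ _ _).2.1 ▸ v1, (Q _ _ _).2.2.1 ▸ v4, (Q _ _ _).1 ▸ v2, (Q _ _ _).2.2.2.2 ▸ v3⟩,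
    P (e t) _ _ _ _ _ (by simp only [gd, gdet]; ring) (fun _ => by simp only [sX]; ring_nf)
      (fun _ => by simp only [sY]; ring_nf)
      ⟨(Q _ _ _).1 ▸ v1, (Q _ _ _).2.2.1 ▸ v3, (Q _ _ _).2.1 ▸ v2, (Q _ _ _).2.2.2.2 ▸ v4⟩,
    P (f t) _ _ _ _ _ (by simp only [gd, gdet]; ring) (fun _ => by simp only [sX]; ring_nf)
      (fun _ => by simp only [sY]; ring_nf)
      ⟨v3, v4, v1, v2⟩] at h8
  refine h8.congr_of_eventuallyEq (h3.mono fun s ⟨k, hk⟩ => ?_)
  simp only [W, rt, hk]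
  rw [← U_per _ (-k)]
  congr 1
  push_cast
  ring

end Pool.Agent.MP_b0afd3_gt.H50
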