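import Pool.Agent.MP_b0afd3_gt.H50.Grow

set_option autoImplicit false

namespace Pool.Agent.MP_b0afd3_gt.H50

open Real Filter Topology Pool.Agent.MP_b0afd3_gt.H80 Matrix

abbrev V4 := Fin 4 → ℝ

/-- future directed timelike vectors -/
def Fut (x : V4) : Prop := 0 < x 0 ∧ mink x x < 0

variable {x y z o o' o'' v : V4}

theorem mk_comm (x y : V4) : mink x y = mink y x := H14.mink_comm x y

@[simp] theorem mk_add (x y z : V4) : mink x (y + z) = mink x y + mink x z := by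
  simp only [mink, Pi.add_apply]; ring

@[simp] theorem add_mk (x y z : V4) : mink (x + y) z = mink x z + mink y z := by
  simp only [mink, Pi.add_apply]; ring

@[simp] theorem mk_sub (x y z : V4) : mink x (y - z) = mink x y - mink x z := by
  simp only [mink, Pi.sub_apply]; ring

@[simp] theorem sub_mk (x y z : V4) : mink (x - y) z = mink x z - mink y z := by
  simp only [mink, Pi.sub_apply]; ring

@[simp] theorem mk_smul (t : ℝ) (x y : V4) : mink x (t • y) = t * mink x y := by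
  simp only [mink, Pi.smul_apply, smul_eq_mul]; ring

@[simp] theorem smul_mk (t : ℝ) (x y : V4) : mink (t • x) y = t * mink x y := by
  simp only [mink, Pi.smul_apply, smul_eq_mul]; ring

@[simp] theorem mk_neg (x y : V4) : mink x (-y) = -mink x y := by
  simp only [mink, Pi.neg_apply]; ring

@[simp] theorem neg_mk (x y : V4) : mink (-x) y = -mink x y := H79.mink_neg x y

theorem Fut.cone (h : Fut x) (h1 : mink y y ≤ 0) (h2 : 0 < y 0) : mink x y < 0 := by
  obtain ⟨p, q⟩ := h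
  simp only [mink] at *
  by_contra! g
  have k : x 0 * y 0 ≤ x 1 * y 1 + x 2 * y 2 + x 3 * y 3 := by linarith
  have k1 := mul_self_le_mul_self (mul_pos p h2).le k
  nlinarith [sq_nonneg (x 1 * y 2 - x 2 * y 1), sq_nonneg (x 1 * y 3 - x 3 * y 1),
    sq_nonneg (x 2 * y 3 - x 3 * y 2), mul_pos (neg_pos.2 q) (mul_pos h2 h2),
    mul_nonneg (neg_nonneg.2 h1) (show 0 ≤ x 1 * x 1 + x 2 * x 2 + x 3 * x 3 by
      nlinarith [mul_self_nonneg (x 1), mul_self_nonneg (x 2), mul_self_nonneg (x 3)])]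

theorem causal_zero (h1 : mink y y ≤ 0) (h2 : y 0 = 0) (x : V4) : mink x y = 0 := by
  simp only [mink, h2] at *
  have k1 : y 1 = 0 := by nlinarith [sq_nonneg (y 2), sq_nonneg (y 3)]
  have k2 : y 2 = 0 := by nlinarith [sq_nonneg (y 1), sq_nonneg (y 3)]
  have k3 : y 3 = 0 := by nlinarith [sq_nonneg (y 1), sq_nonneg (y 2)]
  simp [k1, k2, k3]

theorem Fut.pos (h : Fut x) (h1 : mink y y ≤ 0) (h2 : mink x y < 0) : 0 < y 0 := by
  rcases lt_trichotomy (y 0) 0 with k | k | k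
  · have := h.cone (y := -y) (by simpa using h1) (by simpa using k)
    simp only [mk_neg] at this
    linarith
  · exact absurd (causal_zero h1 k x) h2.ne
  · exact k

theorem perp_pos (h : mink o o < 0) (h1 : mink x o = 0) (h2 : mink x y ≠ 0) : 0 < mink x x := by
  by_contra! g
  wlog k : 0 < o 0 generalizing o with G
  · refine G (o := -o) (by simpa using h) (by simp [h1]) (neg_pos.2 ((not_lt.1 k).lt_of_ne fun j => ?_))
    exact h.ne (causal_zero h.le j o)
  rcases lt_trichotomy (x 0) 0 with j | j | j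
  · have := Fut.cone ⟨k, h⟩ (y := -x) (by simpa using g) (by simpa using j)
    simp [mk_comm o, h1] at this
  · exact h2 (mk_comm x y ▸ causal_zero g j y)
  · exact (Fut.cone ⟨k, h⟩ g j).ne (mk_comm x o ▸ h1)

theorem Fut.add (h : Fut x) (h1 : mink y y ≤ 0) (h2 : 0 < y 0) : Fut (x + y) :=
  ⟨add_pos h.1 h2, by
    simp only [mk_add, add_mk, mk_comm y x]; linarith [h.2, h.cone h1 h2]⟩

theorem Fut.smul (h : Fut x) {t : ℝ} (ht : 0 < t) : Fut (t • x) :=
  ⟨mul_pos ht h.1, by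
    simp only [mk_smul, smul_mk]; exact mul_neg_of_pos_of_neg ht (mul_neg_of_pos_of_neg ht h.2)⟩

/-- strict reversed Cauchy-Schwarz inequality -/
theorem rcs (h : mink o o < 0) (h1 : mink x o ≠ 0) (h2 : mink x v = 0) (h3 : mink y v ≠ 0) :
    mink o o * mink v v < mink o v ^ 2 := by
  have k : ∃ w, mink (mink o o • v - mink o v • o) w ≠ 0 := by
    by_cases g : mink o v = 0
    · exact ⟨y, by simp [g, h.ne, mk_comm v, h3]⟩
    · exact ⟨x, by simp [g, mk_comm v, mk_comm o x, h1, h2]⟩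
  obtain ⟨w, hw⟩ := k
  have := perp_pos h (by simp only [sub_mk, smul_mk, mk_comm v]; ring) hw
  simp only [sub_mk, smul_mk, mk_sub, mk_smul, mk_comm v o] at this
  nlinarith

/-- the exterior dihedral angle -/
noncomputable def xi (x y : V4) : ℝ := π - arccos (-mink x y)

theorem xi_comm (x y : V4) : xi x y = xi y x := by rw [xi, xi, mk_comm]

theorem xi_of {x y : V4} (h : |mink x y| < 1) : xi x y ∈ Set.Ioo 0 π ∧ cos (xi x y) = mink x y := by
  obtain ⟨a1, a2⟩ := abs_lt.1 h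
  refine ⟨⟨sub_pos.2 (arccos_lt_pi.2 (by linarith)), sub_lt_self _ (arccos_pos.2 (by linarith))⟩, ?_⟩
  rw [xi, cos_pi_sub, cos_arccos (by linarith) (by linarith), neg_neg]

theorem ang_lt (hx : mink x x = 1) (hy : mink y y = 1) (h : mink o o < 0) (h1 : mink x o = 0)
    (h2 : mink y o = 0) (h3 : mink x v = 0) (h4 : mink y v ≠ 0) : |mink x y| < 1 := by
  have k1 := perp_pos (x := x + y) (y := v) h (by simp [h1, h2]) (by simp [h3, h4])
  have k2 := perp_pos (x := x - y) (y := v) h (by simp [h1, h2]) (by simp [h3, h4])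
  simp only [add_mk, mk_add, sub_mk, mk_sub, hx, hy, mk_comm y x] at k1 k2
  exact abs_lt.2 ⟨by linarith, by linarith⟩

theorem std (hx : mink x x = 1) (hy : mink y y = 1) (hz : mink z z = 1) (a1 : |mink x y| < 1)
    (a2 : |mink x z| < 1) (f1 : Fut o) (f2 : Fut o') (h1 : mink x o = 0) (h2 : mink y o = 0)
    (h3 : mink z o < 0) (h4 : mink x o' = 0) (h5 : mink z o' = 0) (h6 : mink y o' < 0)
    (hv : vtx (mink x y) (mink y z) (mink x z) ≤ 0) : mink y z < mink x y * mink x z := by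
  by_contra! g
  have p0 : 0 < 1 - mink x y ^ 2 := by linarith [(sq_lt_one_iff_abs_lt_one _).2 a1]
  have q0 : 0 < 1 - mink x z ^ 2 := by linarith [(sq_lt_one_iff_abs_lt_one _).2 a2]
  obtain ⟨p, p1, p2⟩ : ∃ p > 0, p * p = 1 - mink x y ^ 2 := ⟨_, sqrt_pos.2 p0, mul_self_sqrt p0.le⟩
  obtain ⟨q, q1, q2⟩ : ∃ p > 0, p * p = 1 - mink x z ^ 2 := ⟨_, sqrt_pos.2 q0, mul_self_sqrt q0.le⟩
  have k : p * q ≤ mink y z - mink x y * mink x z := abs_le_of_sq_le_sq' (by
    rw [vtx] at hv; rw [mul_pow, sq p, sq q, p2, q2]; linarith) (by linarith) |>.2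
  have k1 : mink (q • (y - mink x y • x) - p • (z - mink x z • x))
      (q • (y - mink x y • x) - p • (z - mink x z • x)) ≤ 0 := by
    simp only [sub_mk, mk_sub, smul_mk, mk_smul, hx, hy, hz, mk_comm y x, mk_comm z x, mk_comm z y]
    nlinarith [mul_le_mul_of_nonneg_left k (mul_pos p1 q1).le]
  have k2 := f1.cone k1 (f2.pos k1 (by
    rw [mk_comm]; simp only [sub_mk, smul_mk, h4, h5]; nlinarith [mul_pos q1 (neg_pos.2 h6)]))
  rw [mk_comm] at k2
  simp only [sub_mk, smul_mk, h1, h2] at k2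
  nlinarith [mul_pos p1 (neg_pos.2 h3)]

theorem wk_of {a b c : ℝ} (ha : a ∈ Set.Ioo 0 π) (hb : b ∈ Set.Ioo 0 π) (hc : c ∈ Set.Ioo 0 π)
    (h : vtx (cos a) (cos b) (cos c) ≤ 0 →
      cos a < cos b * cos c ∧ cos b < cos a * cos c ∧ cos c < cos a * cos b) : Wk 0 a b c := by
  rcases lt_or_ge 0 (vtx (cos a) (cos b) (cos c)) with g | g
  · obtain ⟨k1, k2, k3, -⟩ := tri_of_vtx ha hb hc g
    exact ⟨⟨by linarith, by linarith, by linarith⟩, by linarith [ha.2], by linarith [hb.2],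
      by linarith [hc.2]⟩
  have T : ∀ x y z : ℝ, x ∈ Set.Ioo 0 π → y ∈ Set.Ioo 0 π → z ∈ Set.Ioo 0 π →
      cos y < cos x * cos z → x < y + z := fun x y z hx hy hz k => by
    by_contra! j
    have := cos_le_cos_of_nonneg_of_le_pi hy.1.le (y := x - z) (by linarith [hx.2, hz.1]) (by linarith)
    rw [cos_sub] at this
    linarith [mul_pos (sin_pos_of_mem_Ioo hx) (sin_pos_of_mem_Ioo hz)]
  obtain ⟨k1, k2, k3⟩ := h g
  exact ⟨⟨by linarith [T a b c ha hb hc k2], by linarith [T b a c hb ha hc k1],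
    by linarith [T c a b hc ha hb (by linarith)]⟩, by linarith [ha.2], by linarith [hb.2],
    by linarith [hc.2]⟩

/-- three faces and a point on each of the three edges -/
structure Vx (x y z o o' o'' : V4) : Prop where
  ux : mink x x = 1
  uy : mink y y = 1
  uz : mink z z = 1
  f1 : Fut o
  f2 : Fut o'
  f3 : Fut o''
  x1 : mink x o = 0
  y1 : mink y o = 0
  z1 : mink z o < 0
  x2 : mink x o' = 0
  y2 : mink y o' < 0
  z2 : mink z o' = 0
  x3 : mink x o'' < 0
  y3 : mink y o'' = 0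
  z3 : mink z o'' = 0

theorem Vx.ang (h : Vx x y z o o' o'') : |mink y z| < 1 ∧ |mink x z| < 1 ∧ |mink x y| < 1 :=
  ⟨ang_lt h.uy h.uz h.f3.2 h.y3 h.z3 h.y1 h.z1.ne, ang_lt h.ux h.uz h.f2.2 h.x2 h.z2 h.x1 h.z1.ne,
    ang_lt h.ux h.uy h.f1.2 h.x1 h.y1 h.x2 h.y2.ne⟩

theorem Vx.wk (h : Vx x y z o o' o'') : Wk 0 (xi y z) (xi x z) (xi x y) := by
  obtain ⟨a1, a2, a3⟩ := h.ang
  refine wk_of (xi_of a1).1 (xi_of a2).1 (xi_of a3).1 ?_
  rw [(xi_of a1).2, (xi_of a2).2, (xi_of a3).2]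
  intro g
  have k1 := std h.ux h.uy h.uz a3 a2 h.f1 h.f2 h.x1 h.y1 h.z1 h.x2 h.z2 h.y2
    (by simp only [vtx] at g ⊢; linarith)
  have k2 := std h.uy h.ux h.uz (mk_comm x y ▸ a3) a1 h.f1 h.f3 h.y1 h.x1 h.z1 h.y3 h.z3 h.x3
    (by simp only [vtx, mk_comm y x] at g ⊢; linarith)
  have k3 := std h.uz h.ux h.uy (mk_comm x z ▸ a2) (mk_comm y z ▸ a1) h.f2 h.f3 h.z2 h.x2 h.y2 h.z3
    h.y3 h.x3 (by simp only [vtx, mk_comm z x, mk_comm z y] at g ⊢; linarith)
  rw [mk_comm y x] at k2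
  rw [mk_comm z x, mk_comm z y] at k3
  exact ⟨by linarith, by linarith, by linarith⟩

/-- the logarithm of the larger root, normalised -/
noncomputable def lg (c d : ℝ) : ℝ := log (c + √(c ^ 2 - d)) - log d / 2

theorem lg_mul {c d : ℝ} (h : d ≤ c ^ 2) : (c + √(c ^ 2 - d)) * (c - √(c ^ 2 - d)) = d := by
  linear_combination -mul_self_sqrt (sub_nonneg.2 h)

theorem lg_ne {c d : ℝ} (h : d ≤ c ^ 2) (h0 : d ≠ 0) : c + √(c ^ 2 - d) ≠ 0 :=
  left_ne_zero_of_mul (lg_mul h ▸ h0)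

theorem lg_scale {c d k : ℝ} (h : d ≤ c ^ 2) (h0 : d ≠ 0) (hk : 0 < k) :
    lg (k * c) (k ^ 2 * d) = lg c d := by
  rw [lg, lg, mul_pow, ← mul_sub, sqrt_mul (sq_nonneg _), sqrt_sq hk.le, ← mul_add,
    log_mul hk.ne' (lg_ne h h0), log_mul (by positivity) h0, log_pow]
  push_cast
  ring

theorem lg_neg {c d : ℝ} (h : d ≤ c ^ 2) (h0 : d ≠ 0) : lg (-c) d = -lg c d := by
  have k := congrArg log (lg_mul h)
  rw [log_mul (lg_ne h h0) (right_ne_zero_of_mul (lg_mul h ▸ h0)), ← log_neg_eq_log (c - _)] at k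
  rw [lg, lg, neg_sq, ← k]
  ring_nf

theorem hl_lg {a b c d e f : ℝ} (ha : 0 ≤ sin a) : hl a b c d e f =
    lg (cof (cos a) (cos b) (cos c) (cos d) (cos e) (cos f))
      (vtx (cos a) (cos b) (cos d) * vtx (cos a) (cos c) (cos e)) / 2 := by
  rw [hl, lg, cof_sq, ← sin_sq, mul_comm (-gdet _ _ _ _ _ _), sqrt_mul (sq_nonneg _), sqrt_sq ha, gd]

/-- the signed distance from the point `o` to the vertex `v` -/
noncomputable def sl (o v : V4) : ℝ := lg (-mink o v) (mink o o * mink v v)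

theorem sl_add {α β : ℝ} (ha : 0 < α) (hb : 0 < β) (h : mink (α • x + β • y) (α • x + β • y) < 0)
    (hx : mink x x ≠ 0) (hy : mink y y ≠ 0) (hd : mink x x * mink y y ≤ (-mink x y) ^ 2) :
    sl (α • x + β • y) x + sl (α • x + β • y) y = lg (-mink x y) (mink x x * mink y y) := by
  have k := mul_self_sqrt (sub_nonneg.2 hd)
  have n := lg_ne hd (mul_ne_zero hx hy)
  simp only [sl, lg]
  generalize hA : mink (α • x + β • y) (α • x + β • y) = A at *
  simp only [add_mk, mk_add, smul_mk, mk_smul, mk_comm y x] at hA ⊢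
  generalize mink x x = P at *
  generalize mink y y = Q at *
  generalize mink x y = C at *
  have e1 : (-(α * P + β * C)) ^ 2 - A * P = β ^ 2 * ((-C) ^ 2 - P * Q) := by rw [← hA]; ring
  have e2 : (-(α * C + β * Q)) ^ 2 - A * Q = α ^ 2 * ((-C) ^ 2 - P * Q) := by rw [← hA]; ring
  rw [e1, e2, sqrt_mul (sq_nonneg _), sqrt_mul (sq_nonneg _), sqrt_sq ha.le, sqrt_sq hb.le]
  generalize √((-C) ^ 2 - P * Q) = s at *
  have e3 : (-(α * P + β * C) + β * s) * (-(α * C + β * Q) + α * s) = -A * (-C + s) := by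
    rw [← hA]; linear_combination α * β * k
  have e4 := e3 ▸ mul_ne_zero (neg_pos.2 h).ne' n
  have e5 := congrArg log e3
  rw [log_mul (left_ne_zero_of_mul e4) (right_ne_zero_of_mul e4), log_mul (neg_pos.2 h).ne' n,
    log_neg_eq_log] at e5
  rw [log_mul h.ne hx, log_mul h.ne hy, log_mul hx hy]
  linarith

end Pool.Agent.MP_b0afd3_gt.H50
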