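import Pool.Agent.MP_b0afd3_gt.H50.Sum

set_option autoImplicit false

namespace Pool.Agent.MP_b0afd3_gt.H50

open Real Filter Topology Pool.Agent.MP_b0afd3_gt.H80 Matrix MeasureTheory
open scoped ContDiff

variable {k i j l : ℕ} {V : Finset (ℕ × ℕ × ℕ)} {T : Finset (ℕ × ℕ × ℕ × ℕ)} {n : ℕ → V4}
  {o : ℕ → ℕ → V4} {u : ℕ × ℕ × ℕ → V4} {w x y : V4} {t : ℝ}

/-- the contraction towards `w` -/
def Am (w : V4) (t : ℝ) (x : V4) : V4 := x - (t * mink w x) • w

def Bm (w : V4) (t : ℝ) (x : V4) : V4 := (1 - t * mink w w) • x + (t * mink w x) • w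

/-- the action on unit normals -/
noncomputable def nt (w : V4) (t : ℝ) (x : V4) : V4 := (√(mink (Bm w t x) (Bm w t x)))⁻¹ • Bm w t x

def sg (w : V4) (t : ℝ) : ℝ := 2 * t - t ^ 2 * mink w w

theorem AA : mink (Am w t x) (Am w t y) = mink x y - sg w t * (mink w x * mink w y) := by
  simp only [Am, sg, mk_sub, sub_mk, mk_smul, smul_mk, mk_comm x w]; ring

theorem BB : mink (Bm w t x) (Bm w t y) =
    (1 - t * mink w w) ^ 2 * mink x y + sg w t * (mink w x * mink w y) := by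
  simp only [Bm, sg, mk_add, add_mk, mk_smul, smul_mk, mk_comm x w]; ring

theorem BA : mink (Bm w t x) (Am w t y) = (1 - t * mink w w) * mink x y := by
  simp only [Am, Bm, mk_sub, add_mk, mk_smul, smul_mk, mk_comm x w]; ring

theorem Am_neg : Am w t (-x) = -Am w t x := by simp only [Am, mk_neg, mul_neg, neg_smul]; abel

theorem Fut.dt (h : Fut w) (ht : 0 ≤ t) : 0 < 1 - t * mink w w := by nlinarith [h.2]

theorem Fut.sg (h : Fut w) (t : ℝ) : 2 * t ≤ sg w t := by
  rw [H50.sg]; nlinarith [h.2, sq_nonneg t]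

theorem Fut.bb (h : Fut w) (ht : 0 ≤ t) (hx : mink x x = 1) : 0 < mink (Bm w t x) (Bm w t x) := by
  rw [BB, hx]
  nlinarith [mul_nonneg ((mul_nonneg zero_le_two ht).trans (h.sg t)) (mul_self_nonneg (mink w x)),
    pow_pos (h.dt ht) 2]

theorem Fut.unit (h : Fut w) (ht : 0 ≤ t) (hx : mink x x = 1) : mink (nt w t x) (nt w t x) = 1 := by
  have := h.bb ht hx
  rw [nt, mk_smul, smul_mk, ← mul_assoc, ← mul_inv, mul_self_sqrt this.le, inv_mul_cancel₀ this.ne']

theorem nt_z (g : mink x y = 0) : mink (nt w t x) (Am w t y) = 0 := by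
  rw [nt, smul_mk, BA, g, mul_zero, mul_zero]

theorem Fut.lt (h : Fut w) (ht : 0 ≤ t) (hx : mink x x = 1) :
    (mink (nt w t x) (Am w t y) < 0 ↔ mink x y < 0) ∧ (0 < mink (nt w t x) (Am w t y) ↔ 0 < mink x y) := by
  have := mul_pos (inv_pos.2 (sqrt_pos.2 (h.bb ht hx))) (h.dt ht)
  rw [nt, smul_mk, BA, ← mul_assoc, mul_pos_iff_of_pos_left this, ← neg_pos, ← mul_neg,
    mul_pos_iff_of_pos_left this, neg_pos]
  exact ⟨.rfl, .rfl⟩

theorem Fut.am (h : Fut w) (ht : 0 ≤ t) (h1 : mink x x ≤ 0) (h2 : 0 < x 0)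
    (h3 : mink x x < 0 ∨ 0 < t) : Fut (Am w t x) := by
  have p := h.cone h1 h2
  have q := h.sg t
  refine ⟨?_, ?_⟩
  · simp only [Am, Pi.sub_apply, Pi.smul_apply, smul_eq_mul]
    nlinarith [mul_nonneg (mul_nonneg ht (neg_pos.2 p).le) h.1.le]
  rw [AA]
  rcases h3 with g | g
  · nlinarith [mul_nonneg (show 0 ≤ H50.sg w t by linarith) (mul_self_nonneg (mink w x))]
  · nlinarith [mul_pos (show 0 < H50.sg w t by linarith) (mul_pos_of_neg_of_neg p p)]

theorem nt_zero (hx : mink x x = 1) : nt w 0 x = x := by simp [nt, Bm, hx]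

theorem Geo.map (g : Geo n o u k V) (h : Fut w) (ht : 0 ≤ t) :
    Geo (fun a => nt w t (n a)) (fun a b => Am w t (o a b)) (fun s => Am w t (u s)) k V := by
  have e : ∀ a b y, Ed n k a b y → Ed (fun a => nt w t (n a)) k a b (Am w t y) := fun a b y p =>
    ⟨h.am ht p.f.2.le p.f.1 (.inl p.f.2), nt_z p.z1, nt_z p.z2, fun c c0 c1 c2 =>
      (h.lt ht (g.unit c c0)).1.2 (p.lt c c0 c1 c2)⟩
  exact ⟨fun c p => h.unit ht (g.unit c p), fun i j l p => let v := g.vx i j l p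
    ⟨nt_z v.z1, nt_z v.z2, nt_z v.z3, fun c c0 c1 c2 c3 =>
      (h.lt ht (g.unit c c0)).1.2 (v.lt c c0 c1 c2 c3)⟩,
    fun i j l p => (g.ed i j l p).imp (e _ _ _) (.imp (e _ _ _) (e _ _ _))⟩

theorem Dec.map (g : Dec n o u k V T) (h : Fut w) (ht : 0 ≤ t) :
    Dec (fun a => nt w t (n a)) (fun a b => Am w t (o a b)) (fun s => Am w t (u s)) k V T := by
  induction g with
  | base g => exact .base (g.map h ht)
  | step k V T i j l _ g G p ih =>
    exact .step k V T i j l ih g (G.map h ht) ((h.lt ht (G.unit k (by omega))).2.2 p)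

theorem Uq_map (q : ℕ × ℕ × ℕ × ℕ) (r : Fin 4) :
    Uq (fun s => Am w t (u s)) q r = Am w t (Uq u q r) := by
  fin_cases r <;> simp [Uq]
  split_ifs <;> simp [Am_neg]

theorem xi_an (h : Fut w) (ht : 0 ≤ t) (hx : mink x x = 1) (hy : mink y y = 1)
    (g : |mink (nt w t x) (nt w t y)| < 1) : AnalyticAt ℝ (fun t => xi (nt w t x) (nt w t y)) t := by
  have B : ∀ x y, ContDiffAt ℝ ω (fun t => mink (Bm w t x) (Bm w t y)) t := fun x y => by
    simp only [BB, sg]; fun_prop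
  have S : ∀ x, mink x x = 1 → ContDiffAt ℝ ω (fun t => (√(mink (Bm w t x) (Bm w t x)))⁻¹) t :=
    fun x p => ((B x x).sqrt (h.bb ht p).ne').inv (sqrt_pos.2 (h.bb ht p)).ne'
  have : ContDiffAt ℝ ω (fun t => -mink (nt w t x) (nt w t y)) t := by
    simp only [nt, mk_smul, smul_mk]
    exact ((S _ (by assumption)).mul ((S _ (by assumption)).mul (B x y))).neg
  obtain ⟨g1, g2⟩ := abs_lt.1 g
  exact (contDiffAt_const.sub ((contDiffAt_arccos (by linarith) (by linarith)).comp t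
    this)).analyticAt

theorem sl_an (h : mink (Am w t x) (Am w t x) * mink (Am w t y) (Am w t y) <
    mink (Am w t x) (Am w t y) ^ 2)
    (g : mink (Am w t x) (Am w t x) * mink (Am w t y) (Am w t y) ≠ 0) :
    AnalyticAt ℝ (fun t => sl (Am w t x) (Am w t y)) t := by
  have A : ∀ x y, ContDiffAt ℝ ω (fun t => mink (Am w t x) (Am w t y)) t := fun x y => by
    simp only [AA, sg]; fun_prop
  rw [← neg_sq] at h
  exact ((((A x y).neg.add ((((A x y).neg.pow 2).sub ((A x x).mul (A y y))).sqrt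
    (sub_pos.2 h).ne')).log (lg_ne h.le g)).sub ((((A x x).mul (A y y)).log g).div_const 2)).analyticAt

theorem sl_neg (h : mink x x < 0) (g : mink y y ≠ 0) : sl x (-y) = -sl x y := by
  have : mink x x * mink y y ≤ (-mink x y) ^ 2 := by
    by_contra! p
    have k : mink (mink x x • y - mink x y • x) (mink x x • y - mink x y • x) < 0 := by
      simp only [mk_sub, sub_mk, mk_smul, smul_mk, mk_comm y x]; nlinarith
    exact k.not_gt (perp_pos h (by simp only [sub_mk, smul_mk, mk_comm y x]; ring) k.ne)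
  rw [sl, sl, ← lg_neg this (mul_ne_zero h.ne g)]
  simp

/-- the vertex term of the differential formula -/
noncomputable def La (n : ℕ → V4) (o : ℕ → ℕ → V4) (w : V4) (t : ℝ) (s : ℕ × ℕ × ℕ) (v : V4) : ℝ :=
  sl (Am w t (o s.2.1 s.2.2)) v * deriv (fun t => xi (nt w t (n s.2.1)) (nt w t (n s.2.2))) t +
    sl (Am w t (o s.1 s.2.2)) v * deriv (fun t => xi (nt w t (n s.1)) (nt w t (n s.2.2))) t +
    sl (Am w t (o s.1 s.2.1)) v * deriv (fun t => xi (nt w t (n s.1)) (nt w t (n s.2.1))) t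

theorem Dec.an (g : Dec n o u k V T) (h : Fut w) (ht : 0 ≤ t) {q : ℕ × ℕ × ℕ × ℕ} (hq : q ∈ T)
    (a b : Fin 4) (p : a ≠ b) : AnalyticAt ℝ (fun t => xi (Nq (fun a => nt w t (n a)) q a)
      (Nq (fun a => nt w t (n a)) q b)) t := by
  have e : ∀ t a, Nq (fun a => nt w t (n a)) q a = nt w t (Nq n q a) := fun t a => by
    fin_cases a <;> rfl
  have := ((g.map h ht).pq q hq).ang a b p
  simp only [e] at this ⊢
  exact xi_an h ht ((g.pq q hq).unit a) ((g.pq q hq).unit b) this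

theorem Dec.cont (g : Dec n o u k V T) (h : Fut w) (ht : 0 ≤ t) :
    ContinuousAt (fun t => ∑ q ∈ T, ap W (Nq (fun a => nt w t (n a)) q)) t :=
  tendsto_finsetSum _ fun q hq =>
    have A := fun a b p => (g.an h ht hq a b p).continuousAt
    W_lim ((g.map h ht).pq q hq).gd (A 0 1 (by decide)) (A 1 3 (by decide)) (A 1 2 (by decide))
      (A 0 3 (by decide)) (A 0 2 (by decide)) (A 2 3 (by decide))

theorem Dec.der (g : Dec n o u k V T) (h : Fut w) (ht : 0 ≤ t)
    (z : ∀ q ∈ T, ∀ r, mink (Am w t (Uq u q r)) (Am w t (Uq u q r)) ≠ 0) :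
    HasDerivAt (fun t => ∑ q ∈ T, ap W (Nq (fun a => nt w t (n a)) q))
      ((∑ s ∈ V, La n o w t s (Am w t (u s))) / 2) t := by
  rw [← g.blow.tele, Finset.sum_div]
  refine HasDerivAt.fun_sum fun q hq => ?_
  have A := fun a b p => (g.an h ht hq a b p).differentiableAt.hasDerivAt
  have P := (g.map h ht).pq q hq
  refine (Pc.deriv (N := fun t => Nq (fun a => nt w t (n a)) q) P.toPc
    (fun r => Uq_map q r ▸ z q hq r) (A 0 1 (by decide)) (A 1 3 (by decide)) (A 1 2 (by decide))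
    (A 0 3 (by decide)) (A 0 2 (by decide)) (A 2 3 (by decide)) P.a P.b P.c P.d P.e
    P.f).congr_deriv ?_
  have z3 := z q hq 3
  simp only [Uq, Nq, La, cons_val] at z3 ⊢
  split_ifs at z3 ⊢
  · rfl
  · rw [Am_neg, mk_neg, neg_mk, neg_neg] at z3
    rw [sl_neg P.c.f.2 z3, sl_neg P.e.f.2 z3, sl_neg P.a.f.2 z3]
    ring

theorem Geo.la (g : Geo n o u k V) (h : Fut w) (ht : 0 < t) (hV : (i, j, l) ∈ V)
    (s : i < j ∧ j < l ∧ l < k) (h1 : mink (u (i, j, l)) (u (i, j, l)) ≤ 0) (h2 : 0 < u (i, j, l) 0) :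
    AnalyticAt ℝ (fun t => La n o w t (i, j, l) (Am w t (u (i, j, l)))) t := by
  have G := g.map h ht.le
  have v := G.vx _ _ _ hV
  have x := G.vx3 hV s
  have f := (h.am ht.le h1 h2 (.inr ht)).2
  have K : ∀ a b c, a < k → b < k → Fut (Am w t (o a b)) → mink (nt w t (n c)) (Am w t (o a b)) < 0 →
      mink (nt w t (n c)) (Am w t (u (i, j, l))) = 0 → |mink (nt w t (n a)) (nt w t (n b))| < 1 →
      AnalyticAt ℝ (fun t => sl (Am w t (o a b)) (Am w t (u (i, j, l))) *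
        deriv (fun t => xi (nt w t (n a)) (nt w t (n b))) t) t := fun a b c a0 b0 p q r e =>
    (sl_an (rcs p.2 q.ne r f.ne) (mul_ne_zero p.2.ne f.ne)).mul
      (xi_an h ht.le (g.unit a a0) (g.unit b b0) e).deriv
  exact ((K j l i (by omega) (by omega) x.f3 x.x3 v.z1 x.ang.1).add
    (K i l j (by omega) (by omega) x.f2 x.y2 v.z2 x.ang.2.1)).add
    (K i j l (by omega) (by omega) x.f1 x.z1 v.z3 x.ang.2.2)

end Pool.Agent.MP_b0afd3_gt.H50
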