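import Pool.Agent.MP_b0afd3_gt.H50.Key
import Pool.Agent.MP_b0afd3_gt.H79.Main

set_option autoImplicit false

namespace Pool.Agent.MP_b0afd3_gt.H50

open Real Filter Topology Pool.Agent.MP_b0afd3_gt.H80

/-- the left end of the range of summation -/
noncomputable def lo (a b c d e f : ℝ) : ℝ :=
  max (max ((f + b + c) / 2) ((f + d + e) / 2)) (max ((a + b + d) / 2) ((a + c + e) / 2))

/-- the right end of the range of summation -/
noncomputable def hi (a b c d e f : ℝ) : ℝ :=
  min (min ((a + f + b + e) / 2) ((a + f + c + d) / 2)) (min ((b + c + d + e) / 2) (2 * π))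

def Sm (x y z : ℝ) : Prop := x + y - z < 2 * π ∧ x + z - y < 2 * π ∧ y + z - x < 2 * π

/-- all twelve differences are smaller than `π` -/
structure Small (a b c d e f : ℝ) : Prop where
  t1 : Sm f b c
  t2 : Sm f d e
  t3 : Sm a b d
  t4 : Sm a c e

variable {a b c d e f ξ : ℝ}

theorem U_xi' (hX : 0 < sX a b c d e f ξ) (hY : 0 < sY a b c d e f ξ) :
    HasDerivAt (U a b c d e f) (log (sY a b c d e f ξ / sX a b c d e f ξ)) ξ := by
  have hz : Nz a b c d e f ξ := by
    simpa only [Nz, sX, sY, ne_eq, mul_eq_zero, neg_eq_zero, not_or] using (mul_pos hX hY).ne'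
  obtain ⟨⟨⟨⟨x1, x2⟩, x3⟩, x4⟩, ⟨⟨y1, y2⟩, y3⟩, y4⟩ := hz
  have i := hasDerivAt_id' ξ
  have := ((((((((lob_comp (i.sub_const _) x1).add (lob_comp (i.sub_const _) x2)).add
    (lob_comp (i.sub_const _) x3)).add (lob_comp (i.sub_const _) x4)).add
    (lob_comp (i.const_sub _) y1)).add (lob_comp (i.const_sub _) y2)).add
    (lob_comp (i.const_sub _) y3)).sub (lob_comp i y4)).sub_const
    ((dl f b c + dl f d e + dl a b d + dl a c e) / 2)
  refine this.congr_deriv ?_
  simp only [sX, sY, ls, neg_div, log_neg_eq_log]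
  rw [log_div (by positivity) (by positivity)]
  repeat rw [log_mul (by positivity) (by positivity)]
  ring

theorem inside (h : Small a b c d e f) (hp : π ≤ lo a b c d e f)
    (ht : ξ ∈ Set.Ioo (lo a b c d e f) (hi a b c d e f)) :
    0 < sX a b c d e f ξ ∧ 0 < sY a b c d e f ξ := by
  have p0 := hp.trans_lt ht.1
  obtain ⟨h1, h2⟩ := ht
  simp only [lo, hi, max_lt_iff, lt_min_iff] at h1 h2
  obtain ⟨⟨k1, k2, k3⟩, ⟨k4, k5, k6⟩, ⟨k7, k8, k9⟩, k10, k11, k12⟩ := h
  obtain ⟨⟨g1, g2⟩, g3, g4⟩ := h1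
  obtain ⟨⟨g5, g6⟩, g7, g8⟩ := h2
  have P := @sin_pos_of_pos_of_lt_pi
  refine ⟨mul_pos (mul_pos (mul_pos (P (by linarith) (by linarith)) (P (by linarith) (by linarith)))
    (P (by linarith) (by linarith))) (P (by linarith) (by linarith)), ?_⟩
  have := P (x := ξ - π) (by linarith) (by linarith)
  rw [sin_sub_pi] at this
  have := mul_pos (mul_pos (mul_pos (P (x := (a + f + b + e) / 2 - ξ) (by linarith) (by linarith))
    (P (x := (a + f + c + d) / 2 - ξ) (by linarith) (by linarith)))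
    (P (x := (b + c + d + e) / 2 - ξ) (by linarith) (by linarith))) this
  rw [sY]; linarith

theorem sX_lo : sX a b c d e f (lo a b c d e f) = 0 := by
  rw [lo]
  rcases max_choice (max ((f + b + c) / 2) ((f + d + e) / 2))
    (max ((a + b + d) / 2) ((a + c + e) / 2)) with k | k <;> rw [k]
  · rcases max_choice ((f + b + c) / 2) ((f + d + e) / 2) with j | j <;> simp [j, sX]
  · rcases max_choice ((a + b + d) / 2) ((a + c + e) / 2) with j | j <;> simp [j, sX]

theorem sY_hi : sY a b c d e f (hi a b c d e f) = 0 := by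
  rw [hi]
  rcases min_choice (min ((a + f + b + e) / 2) ((a + f + c + d) / 2))
    (min ((b + c + d + e) / 2) (2 * π)) with k | k <;> rw [k]
  · rcases min_choice ((a + f + b + e) / 2) ((a + f + c + d) / 2) with j | j <;> simp [j, sY]
  · rcases min_choice ((b + c + d + e) / 2) (2 * π) with j | j <;> simp [j, sY]

theorem U_c : Continuous (U a b c d e f) :=
  (U_cont (b := b) (c := c) (d := d) (e := e)).comp (f := fun t : ℝ => (a, f, t)) (by fun_prop)

theorem U_mono (h : Small a b c d e f) (hp : π ≤ lo a b c d e f) {x y : ℝ} (hxy : x < y)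
    (hx : lo a b c d e f ≤ x) (hy : y ≤ hi a b c d e f) :
    ((∀ t ∈ Set.Ioo x y, sX a b c d e f t < sY a b c d e f t) → U a b c d e f x < U a b c d e f y) ∧
    ((∀ t ∈ Set.Ioo x y, sY a b c d e f t < sX a b c d e f t) →
      U a b c d e f y < U a b c d e f x) := by
  have I : ∀ t ∈ Set.Ioo x y, 0 < sX a b c d e f t ∧ 0 < sY a b c d e f t := fun t ht =>
    inside h hp ⟨hx.trans_lt ht.1, ht.2.trans_le hy⟩
  obtain ⟨t, ht, h3⟩ := exists_hasDerivAt_eq_slope (U a b c d e f) _ hxy U_c.continuousOn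
    fun t ht => U_xi' (I t ht).1 (I t ht).2
  rw [eq_div_iff (sub_pos.2 hxy).ne'] at h3
  constructor <;> intro g
  · linarith [mul_pos (log_pos ((one_lt_div (I t ht).1).2 (g t ht))) (sub_pos.2 hxy)]
  · linarith [mul_neg_of_neg_of_pos (log_neg (div_pos (I t ht).2 (I t ht).1)
      ((div_lt_one (I t ht).1).2 (g t ht))) (sub_pos.2 hxy)]

theorem side (h0 : sY a b c d e f ξ = sX a b c d e f ξ) (hD : 0 < Dd a b c d e f ξ) :
    (∀ᶠ t in 𝓝[>] ξ, sX a b c d e f t < sY a b c d e f t) ∧
      ∀ᶠ t in 𝓝[<] ξ, sY a b c d e f t < sX a b c d e f t := by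
  have h := (hasDerivAt_iff_tendsto_slope.1 (N_deriv a b c d e f ξ)).eventually
    (lt_mem_nhds (show 0 < 2 * Dd a b c d e f ξ by linarith))
  simp only [slope_def_field, h0, sub_self, mul_zero, sub_zero] at h
  constructor
  · filter_upwards [nhdsGT_le_nhdsNE ξ h, self_mem_nhdsWithin] with t g k
    linarith [(div_pos_iff_of_pos_right (sub_pos.2 k)).1 g]
  · filter_upwards [nhdsLT_le_nhdsNE ξ h, self_mem_nhdsWithin] with t g k
    rw [← neg_div_neg_eq, div_pos_iff_of_pos_right (neg_pos.2 (sub_neg.2 k))] at g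
    linarith

theorem right_lt (h : Small a b c d e f) (hp : π ≤ lo a b c d e f) (h1 : lo a b c d e f ≤ ξ)
    (h2 : ξ < hi a b c d e f) (g : ∀ᶠ t in 𝓝[>] ξ, sX a b c d e f t < sY a b c d e f t) :
    ∃ y ∈ Set.Icc (lo a b c d e f) (hi a b c d e f), U a b c d e f ξ < U a b c d e f y := by
  obtain ⟨u, hu, k⟩ := (mem_nhdsGT_iff_exists_Ioo_subset' h2).1 g
  have l := lt_min hu h2
  exact ⟨_, ⟨h1.trans l.le, min_le_right _ _⟩, (U_mono h hp l h1 (min_le_right _ _)).1
    fun t ht => k ⟨ht.1, ht.2.trans_le (min_le_left _ _)⟩⟩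

theorem max_open (h : Small a b c d e f) (hp : π ≤ lo a b c d e f)
    (hl : lo a b c d e f < hi a b c d e f) (hg : gd a b c d e f < 0) :
    ∃ ξ ∈ Set.Icc (lo a b c d e f) (hi a b c d e f), U a b c d e f ξ = W a b c d e f ∧
      ∀ t ∈ Set.Icc (lo a b c d e f) (hi a b c d e f), U a b c d e f t ≤ W a b c d e f := by
  obtain ⟨ξ, hξ, hm⟩ := isCompact_Icc.exists_isMaxOn ⟨_, le_rfl, hl.le⟩
    (U_c (a := a) (b := b) (c := c) (d := d) (e := e) (f := f)).continuousOn
  have R : ξ < hi a b c d e f → ¬ ∀ᶠ t in 𝓝[>] ξ, sX a b c d e f t < sY a b c d e f t :=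
    fun k g => let ⟨y, y1, y2⟩ := right_lt h hp hξ.1 k g; y2.not_ge (hm y1)
  have L : lo a b c d e f < ξ → ¬ ∀ᶠ t in 𝓝[<] ξ, sY a b c d e f t < sX a b c d e f t :=
    fun k g => by
      obtain ⟨u, hu, j⟩ := (mem_nhdsLT_iff_exists_Ioo_subset' k).1 g
      have l := max_lt hu k
      exact ((U_mono h hp l (le_max_right _ _) hξ.2).2 fun t ht =>
        j ⟨(le_max_left _ _).trans_lt ht.1, ht.2⟩).not_ge (hm ⟨le_max_right _ _, l.le.trans hξ.2⟩)
  have cX : Continuous (sX a b c d e f) := by unfold sX; fun_prop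
  have cY : Continuous (sY a b c d e f) := by unfold sY; fun_prop
  have cl : ∀ t ∈ Set.Icc (lo a b c d e f) (hi a b c d e f),
      0 ≤ sX a b c d e f t ∧ 0 ≤ sY a b c d e f t := fun t ht => by
    rw [← closure_Ioo hl.ne] at ht
    exact ⟨ContinuousWithinAt.closure_le ht continuousWithinAt_const cX.continuousWithinAt
      fun s hs => (inside h hp hs).1.le, ContinuousWithinAt.closure_le ht continuousWithinAt_const
      cY.continuousWithinAt fun s hs => (inside h hp hs).2.le⟩
  have h0 : sY a b c d e f ξ = sX a b c d e f ξ := by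
    rcases lt_trichotomy (sY a b c d e f ξ) (sX a b c d e f ξ) with k | k | k
    · refine (L (hξ.1.lt_of_ne fun j => ?_)
        (nhdsWithin_le_nhds (cY.continuousAt.eventually_lt cX.continuousAt k))).elim
      rw [← j, sX_lo] at k
      exact k.not_ge (cl _ ⟨le_rfl, hl.le⟩).2
    · exact k
    · refine (R (hξ.2.lt_of_ne fun j => ?_)
        (nhdsWithin_le_nhds (cX.continuousAt.eventually_lt cY.continuousAt k))).elim
      rw [j, sY_hi] at k
      exact k.not_ge (cl _ ⟨hl.le, le_rfl⟩).1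
  have hD : Dd a b c d e f ξ ≤ 0 := not_lt.1 fun k => by
    rcases hξ.2.eq_or_lt with j | j
    · exact L (j ▸ hl) (side h0 k).2
    · exact R j (side h0 k).1
  exact ⟨ξ, hξ, W_eq hg h0 hD, fun t ht => W_eq hg h0 hD ▸ hm ht⟩

theorem W_sw12 (hg : gd a b c d e f < 0) : W a d e b c f = W a b c d e f :=
  W_congr hg gd_sw12 (fun _ => by simp only [sX]; ring_nf) (fun _ => by simp only [sY]; ring_nf)
    fun _ => U_sw12

theorem W_sw34 (hg : gd a b c d e f < 0) : W a c b e d f = W a b c d e f :=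
  W_congr hg gd_sw34 (fun _ => by simp only [sX]; ring_nf) (fun _ => by simp only [sY]; ring_nf)
    fun _ => U_sw34

theorem gd_sw23 : gd e f c d a b = gd a b c d e f := by simp only [gd, gdet]; ring

/-- the symmetry exchanging the vertices `2` and `3` -/
theorem W_sw23 (hg : gd a b c d e f < 0) : W e f c d a b = W a b c d e f :=
  W_congr hg gd_sw23 (fun _ => by simp only [sX]; ring_nf)
    (fun _ => by simp only [sY]; ring_nf) fun _ => by simp only [U, dl]; ring_nf

theorem hl_kap (h : Reg a b c d e f) (hg : gd a b c d e f < 0)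
    (hc : 0 < cof (cos a) (cos b) (cos c) (cos d) (cos e) (cos f)) :
    hl a b c d e f = kap b c d e f a := by
  have v := mul_pos h.t3.vtx_pos h.t4.vtx_pos
  have s := sqrt_pos.2 v
  have s1 := h.t3.sx
  have s2 := sqrt_pos.2 (neg_pos.2 hg)
  rw [hl, kap, rho_eq (h.be_gt hg).le, h.be_sq, be, abs_of_pos (div_pos hc s), sqrt_div' _ v.le,
    ← add_div, log_div (by positivity) s.ne', log_sqrt v.le, sqrt_mul (neg_pos.2 hg).le,
    sqrt_sq s1.le, mul_comm (sin a)]

theorem Reg.ni (h : Reg a b c d e f) : NI a b c d e f :=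
  ⟨h.t1.vtx_pos.ne', h.t2.vtx_pos.ne', h.t3.vtx_pos.ne', h.t4.vtx_pos.ne'⟩

theorem W_a {x : ℝ} (h : NI x b c d e f) (hg : gd x b c d e f < 0) :
    HasDerivAt (fun s => W s b c d e f) (hl x b c d e f) x := by
  simpa using W_deriv (hasDerivAt_id' x) (hasDerivAt_const x b) (hasDerivAt_const x c)
    (hasDerivAt_const x d) (hasDerivAt_const x e) (hasDerivAt_const x f) h hg

theorem path_W {p q : ℝ} (hp : Reg p b c d e f) (hq : Reg q b c d e f) (hpq : p ≤ q)
    (gp : gd p b c d e f ≤ 0) (gq : gd q b c d e f ≤ 0) (hg : ∀ x ∈ Set.Ioo p q,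
      gd x b c d e f < 0 ∧ 0 < cof (cos x) (cos b) (cos c) (cos d) (cos e) (cos f)) :
    ∫ x in p..q, kap b c d e f x = W q b c d e f - W p b c d e f := by
  have R : ∀ x ∈ Set.Icc p q, Reg x b c d e f := fun x hx => hp.between hq (Set.Icc_subset_uIcc hx)
  refine intervalIntegral.integral_eq_sub_of_hasDerivAt_of_le (f := fun s => W s b c d e f) hpq
    (fun x hx => ?_) (fun x hx => ?_) (hp.kap_int hq)
  · refine (V_cont (hasDerivAt_id' x) (hasDerivAt_const x b) (hasDerivAt_const x c)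
      (hasDerivAt_const x d) (hasDerivAt_const x e) (hasDerivAt_const x f) (R x hx) ?_
      1).continuousWithinAt
    rcases hx.1.eq_or_lt with rfl | k
    · exact gp
    rcases hx.2.eq_or_lt with rfl | j
    · exact gq
    exact (hg x ⟨k, j⟩).1.le
  · have r := R x (Set.Ioo_subset_Icc_self hx)
    exact hl_kap r (hg x hx).1 (hg x hx).2 ▸ W_a (Reg.ni r) (hg x hx).1

theorem W_pos (h : Reg a b c d e f) (hg : gd a b c d e f < 0) (hp : PosC a b c d e f) :
    W a b c d e f = gvol (cos a) (cos b) (cos c) (cos d) (cos e) (cos f) := by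
  obtain ⟨z, hza, hz, h0, -, gz⟩ := exists_x2 h hg hp.c01
  rw [← vol_eq hp h hz hza h0 gz, path_W hz h hza.le h0.le hg.le fun x hx => ?_, W,
    W, H56.euclid hz h0, sub_zero]
  have m := h.t3.mem.2.le
  refine ⟨gz x hx.1 (hx.2.le.trans m), (hp.move h (hz.between h (Set.Icc_subset_uIcc
    (Set.Ioo_subset_Icc_self hx))) fun t ht => ?_).c23⟩
  rw [Set.uIcc_of_ge hx.2.le] at ht
  exact gz t (hx.1.trans_le ht.1) (ht.2.trans m)

theorem W_neg (h : Reg (π - a) b c (π - d) (π - e) f) (hg : gd (π - a) b c (π - d) (π - e) f < 0)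
    (hp : PosC (π - a) b c (π - d) (π - e) f) :
    W a b c d e f =
      -gvol (cos (π - a)) (cos b) (cos c) (cos (π - d)) (cos (π - e)) (cos f) := by
  obtain ⟨z, hza, hz, h0, -, gz⟩ := exists_x2 h hg hp.c01
  have g : ∀ x, gd (π - x) b c (π - d) (π - e) f = gd x b c d e f := fun x => by
    simp only [gd, gdet, cos_pi_sub]; ring
  have k : ∀ x, kap b c d e f x = kap b c (π - d) (π - e) f (π - x) := fun x => by
    simp only [kap, be, cof, vtx, cos_pi_sub]; ring_nf
  have rz : Reg (π - z) b c d e f := H79.reg_flip (by simpa using hz)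
  have g0 : gd (π - z) b c d e f = 0 := by rw [← g]; simpa using h0
  have := path_W (H79.reg_flip h) rz (by linarith) (g a ▸ hg.le) g0.le fun x hx => by
    have m := h.t3.mem.2.le
    refine ⟨g x ▸ gz _ (by linarith [hx.2]) (by linarith [hx.1]), ?_⟩
    have := (hp.move h (x := π - x) (hz.between h (Set.Icc_subset_uIcc
      ⟨by linarith [hx.2], by linarith [hx.1]⟩)) fun t ht => by
        rw [Set.uIcc_of_ge (by linarith [hx.1])] at ht
        exact gz t (by linarith [hx.2, ht.1]) (ht.2.trans m)).c23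
    simp only [cof, cos_pi_sub] at this ⊢
    linarith
  rw [funext k, intervalIntegral.integral_comp_sub_left, sub_sub_cancel,
    vol_eq hp h hz hza h0 gz, W, H56.euclid rz g0] at this
  linarith

end Pool.Agent.MP_b0afd3_gt.H50
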