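import Pool.Agent.MP_b0afd3_gt.H50.Wall

set_option autoImplicit false

namespace Pool.Agent.MP_b0afd3_gt.H50

open Real Filter Topology Pool.Agent.MP_b0afd3_gt.H80 Col

variable {a b c d e f x y z V : ℝ}

theorem cos_count (t : ℝ) : {x : ℝ | cos x = cos t}.Countable :=
  ((Set.countable_range fun k : ℤ => 2 * k * π + t).union
    (Set.countable_range fun k : ℤ => 2 * k * π - t)).mono fun x hx => by
      obtain ⟨k, h | h⟩ := cos_eq_cos_iff.1 (Eq.symm hx)
      exacts [.inl ⟨k, h.symm⟩, .inr ⟨k, h.symm⟩]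

theorem vtx_count (y z : ℝ) : {x : ℝ | vtx (cos x) (cos y) (cos z) = 0}.Countable :=
  ((cos_count (y - z)).union (cos_count (y + z))).mono fun x hx => by
    simp only [Set.mem_ofPred_eq, vtx_eq, mul_eq_zero, sub_eq_zero] at hx
    exact hx.imp Eq.symm id

theorem gd_fl : gd (2 * π - a) b c d e f = gd a b c d e f := by rw [gd, gd, cos_two_pi_sub]

theorem hl_odd (hg : gd a b c d e f < 0) (h3 : vtx (cos a) (cos b) (cos d) ≠ 0)
    (h4 : vtx (cos a) (cos c) (cos e) ≠ 0) : hl (2 * π - a) b c d e f = -hl a b c d e f := by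
  have k := cof_sq (cos a) (cos b) (cos c) (cos d) (cos e) (cos f)
  have k1 := mul_self_sqrt (neg_pos.2 hg).le
  have k2 : (cof (cos a) (cos b) (cos c) (cos d) (cos e) (cos f) + -sin a * √(-gd a b c d e f)) *
      (cof (cos a) (cos b) (cos c) (cos d) (cos e) (cos f) + sin a * √(-gd a b c d e f)) =
      vtx (cos a) (cos b) (cos d) * vtx (cos a) (cos c) (cos e) := by
    rw [← sin_sq] at k
    rw [gd] at k1 ⊢
    linear_combination k - sin a ^ 2 * k1
  have k3 := k2 ▸ mul_ne_zero h3 h4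
  have k4 := congrArg log k2
  rw [log_mul (left_ne_zero_of_mul k3) (right_ne_zero_of_mul k3)] at k4
  rw [hl, hl, gd_fl, cos_two_pi_sub, sin_two_pi_sub]
  linarith

theorem odd1 (ha : a ≤ π) (hg : ∀ x ∈ Set.Icc a π, gd x b c d e f < 0)
    (v1 : vtx (cos f) (cos b) (cos c) ≠ 0) (v2 : vtx (cos f) (cos d) (cos e) ≠ 0) :
    W (2 * π - a) b c d e f = W a b c d e f := by
  have := MeasureTheory.integral_eq_of_hasDerivAt_off_countable_of_le
    (fun x => W (2 * π - x) b c d e f - W x b c d e f) (fun _ => 0) ha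
    ((vtx_count b d).union (vtx_count c e)) (fun x hx => ?_) (fun x hx => ?_)
    intervalIntegrable_const
  · simp only [intervalIntegral.integral_zero, show 2 * π - π = π by ring] at this
    linarith
  · have k := fun y : ℝ => tendsto_const_nhds (x := y) (f := 𝓝 x)
    exact ContinuousAt.continuousWithinAt ((W_lim (gd_fl.trans_lt (hg x hx)) (tendsto_id.const_sub _) (k _)
      (k _) (k _) (k _) (k _)).sub (W_lim (hg x hx) tendsto_id (k _) (k _) (k _) (k _) (k _)))
  · have g := hg x (Set.Ioo_subset_Icc_self hx.1)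
    have v := not_or.1 hx.2
    have := ((W_a (x := 2 * π - x) ⟨v1, v2, cos_two_pi_sub x ▸ v.1, cos_two_pi_sub x ▸ v.2⟩
      (gd_fl.trans_lt g)).comp x ((hasDerivAt_id' x).const_sub _)).sub (W_a ⟨v1, v2, v.1, v.2⟩ g)
    exact this.congr_deriv (by rw [hl_odd g v.1 v.2]; ring)

theorem odd (h0 : 0 ≤ a) (ha : a ≤ π) (hg : gd a b c d e f < 0) (hf : sin f ≠ 0)
    (H : 0 ≤ vtx (cos f) (cos b) (cos c) * vtx (cos f) (cos d) (cos e) → 0 < ell b c d e f a) :
    W (2 * π - a) b c d e f = W a b c d e f := by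
  have k := fun y : ℝ => tendsto_const_nhds (x := y) (f := 𝓝 f)
  have n := mem_closure_iff_nhdsWithin_neBot.1
    (((vtx_count b c).union (vtx_count d e)).dense_compl ℝ f)
  refine @tendsto_nhds_unique_of_eventuallyEq _ _ _ _ _ _ _ _ _ n ((W_lim (gd_fl.trans_lt hg) (k _)
    (k _) (k _) (k _) (k _) tendsto_id).mono_left nhdsWithin_le_nhds) ((W_lim hg (k _) (k _) (k _)
    (k _) (k _) tendsto_id).mono_left nhdsWithin_le_nhds) ?_
  have c1 : ContinuousAt (fun t => gd a b c d e t) f := by unfold gd gdet; fun_prop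
  have c2 : ContinuousAt (fun t => vtx (cos t) (cos b) (cos c) * vtx (cos t) (cos d) (cos e)) f := by
    unfold vtx; fun_prop
  have c3 : ContinuousAt (fun t => ell b c d e t a) f := by unfold ell cof; fun_prop
  have E : ∀ᶠ t in 𝓝 f, vtx (cos t) (cos b) (cos c) * vtx (cos t) (cos d) (cos e) < 0 ∨
      0 < ell b c d e t a := by
    rcases lt_or_ge (vtx (cos f) (cos b) (cos c) * vtx (cos f) (cos d) (cos e)) 0 with g | g
    exacts [(c2.eventually (gt_mem_nhds g)).mono fun _ => .inl,
      (c3.eventually (lt_mem_nhds (H g))).mono fun _ => .inr]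
  filter_upwards [nhdsWithin_le_nhds E, nhdsWithin_le_nhds (c1.eventually (gt_mem_nhds hg)),
    nhdsWithin_le_nhds (continuous_sin.continuousAt.eventually_ne hf), self_mem_nhdsWithin]
    with t g1 g2 g3 g4
  refine odd1 (f := t) ha (fun x hx => ?_) (not_or.1 g4).1 (not_or.1 g4).2
  have s := sq_pos_of_ne_zero g3
  have e1 := ell_sq b c d e t x
  have e2 := ell_sq b c d e t a
  refine neg_of_mul_neg_left (b := sin t ^ 2) ?_ s.le
  rcases g1 with g | g
  · linarith [sq_nonneg (ell b c d e t x)]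
  · have : ell b c d e t a ≤ ell b c d e t x := by
      have := mul_nonneg (sub_nonneg.2 (cos_le_cos_of_nonneg_of_le_pi h0 hx.2 hx.1)) s.le
      simp only [ell, cof, sin_sq] at this ⊢
      linarith
    nlinarith [mul_neg_of_neg_of_pos g2 s]

theorem lob_half : lob (π / 2) = 0 := by
  have := lob_int (-(π / 2)) 1
  rw [lob_neg, show -(π / 2) + (1 : ℤ) * π = π / 2 by push_cast; ring] at this
  linarith

theorem gd_cap : gd a (π / 2) c (π / 2) e (π / 2) = vtx (cos a) (cos c) (cos e) := by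
  simp only [gd, gdet, vtx, cos_pi_div_two]; ring

theorem hl_cap (ha : 0 < sin a) (hg : vtx (cos a) (cos c) (cos e) < 0) :
    hl a (π / 2) c (π / 2) e (π / 2) = 0 := by
  have := sqrt_pos.2 (neg_pos.2 hg)
  have k : vtx (cos a) 0 0 = sin a ^ 2 := by rw [vtx, sin_sq]; ring
  simp only [hl, gd_cap, cos_pi_div_two, cof, k, mul_zero, zero_mul, add_zero, sub_zero, zero_add]
  rw [log_mul ha.ne' this.ne', log_mul (by positivity) hg.ne, log_sqrt (neg_pos.2 hg).le,
    log_neg_eq_log, log_pow]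
  push_cast
  ring

theorem cap (ha : a < π) (hc : c < π) (he : e < π) (h : 2 * π < a + c + e) :
    W a (π / 2) c (π / 2) e (π / 2) = 0 := by
  have D : ∀ x t : ℝ, HasDerivAt (fun s => x + s * (π - x)) (π - x) t := fun x t => by
    simpa using ((hasDerivAt_id' t).mul_const (π - x)).const_add x
  have g1 : vtx (cos π) (cos π) (cos π) < 0 := by norm_num [vtx]
  have G : ∀ t ∈ Set.Ico (0 : ℝ) 1, Wk 0 (a + t * (π - a)) (c + t * (π - c)) (e + t * (π - e)) ∧
      2 * π < a + t * (π - a) + (c + t * (π - c)) + (e + t * (π - e)) := fun t ht => by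
    have p : ∀ x, x < π → x ≤ x + t * (π - x) ∧ x + t * (π - x) < π := fun x hx =>
      ⟨by nlinarith [ht.1], by nlinarith [ht.2]⟩
    obtain ⟨p1, p2⟩ := p a ha
    obtain ⟨p3, p4⟩ := p c hc
    obtain ⟨p5, p6⟩ := p e he
    exact ⟨⟨⟨by linarith, by linarith, by linarith⟩, by linarith, by linarith, by linarith⟩,
      by linarith⟩
  obtain ⟨t, -, ht⟩ := exists_hasDerivAt_eq_slope (fun t => W (a + t * (π - a)) (π / 2)
    (c + t * (π - c)) (π / 2) (e + t * (π - e)) (π / 2)) (fun _ => 0) zero_lt_one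
    (fun t ht => ContinuousAt.continuousWithinAt (W_lim (by
      rw [gd_cap]
      rcases ht.2.eq_or_lt with rfl | k
      · simpa using g1
      · exact (G t ⟨ht.1, k⟩).1.vtx_neg (G t ⟨ht.1, k⟩).2) (D a t).continuousAt tendsto_const_nhds
      (D c t).continuousAt tendsto_const_nhds (D e t).continuousAt tendsto_const_nhds))
    fun t ht => by
      obtain ⟨g, g'⟩ := G t (Set.Ioo_subset_Ico_self ht)
      have v := g.vtx_neg g'
      obtain ⟨⟨k1, k2, k3⟩, k4, k5, k6⟩ := g
      have s1 := sin_pos_of_pos_of_lt_pi (x := a + t * (π - a)) (by linarith) (by linarith)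
      have s2 := sin_pos_of_pos_of_lt_pi (x := c + t * (π - c)) (by linarith) (by linarith)
      have s3 := sin_pos_of_pos_of_lt_pi (x := e + t * (π - e)) (by linarith) (by linarith)
      have k := hasDerivAt_const t (π / 2)
      have n : ∀ x, 0 < sin x → 1 - cos x ^ 2 ≠ 0 := fun x hx => sin_sq x ▸ (pow_pos hx 2).ne'
      refine (W_deriv (D a t) k (D c t) k (D e t) k ⟨by simpa [vtx] using n _ s2,
        by simpa [vtx] using n _ s3, by simpa [vtx] using n _ s1, v.ne⟩ (gd_cap ▸ v)).congr_deriv ?_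
      rw [hl_cap s1 v, hl_cap s2 (by simp only [vtx] at v ⊢; linarith),
        hl_cap s3 (by simp only [vtx] at v ⊢; linarith)]
      simp
  have l1 := lob_int (π / 2) 1
  have l2 := lob_neg (π / 2)
  have u : ∀ ξ, U π (π / 2) π (π / 2) π (π / 2) ξ = 3 * lob (ξ - π) - 2 * lob (ξ - 3 * π / 2) - lob ξ :=
    fun ξ => by
      have := lob_neg (ξ - 3 * π / 2)
      have l3 := lob_half
      simp only [U, dl]
      push_cast at l1
      ring_nf at *
      simp only [lob_zero, lob_pi]
      linarith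
  have w : W π (π / 2) π (π / 2) π (π / 2) = 0 := by
    rcases le_total (Dd π (π / 2) π (π / 2) π (π / 2) π) 0 with k | k
    · rw [← W_eq (gd_cap ▸ g1) (by rw [sX, sY]; ring_nf; simp) k, u,
        show π - 3 * π / 2 = -(π / 2) by ring, l2, lob_half]
      simp [lob_zero, lob_pi]
    · rw [← W_eq (ξ := π / 2 + π) (gd_cap ▸ g1) (by rw [sX, sY]; ring_nf; simp) (by
        rw [Dd] at k ⊢
        rw [show 2 * (π / 2 + π) - (π / 2 + π + π / 2 + π) / 2 =
          2 * π - (π / 2 + π + π / 2 + π) / 2 + π by ring, sin_add_pi, cos_add_pi]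
        linarith), u, show π / 2 + π - 3 * π / 2 = 0 by ring]
      simp [lob_zero, lob_half, (by simpa using l1 : lob (π / 2 + π) = lob (π / 2))]
  simp only [one_mul, add_sub_cancel, zero_mul, add_zero, w] at ht
  linarith

end Pool.Agent.MP_b0afd3_gt.H50
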