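import Pool.Agent.MP_b0afd3_gt.H50.Comb

set_option autoImplicit false

namespace Pool.Agent.MP_b0afd3_gt.H50

open Real Filter Topology Pool.Agent.MP_b0afd3_gt.H80 Matrix H79 Col

theorem Vx.lt {x y z o o' o'' p : V4} (h : Vx x y z o o' o'') (p1 : mink p p ≤ 0) (p2 : 0 < p 0)
    (h1 : 0 ≤ mink x p) (h2 : 0 ≤ mink y p) (h3 : 0 ≤ mink z p)
    (h4 : 0 < mink x p ∨ 0 < mink y p ∨ 0 < mink z p) : xi y z + xi x z + xi x y < 2 * π := by
  obtain ⟨a1, a2, a3⟩ := h.ang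
  refine h.wk.lt ?_
  rw [(xi_of a1).2, (xi_of a2).2, (xi_of a3).2]
  have n1 := neg_pos.2 h.z1
  have n2 := neg_pos.2 h.y2
  have n3 := neg_pos.2 h.x3
  have b1 := div_nonneg h3 n1.le
  have b2 := div_nonneg h2 n2.le
  have b3 := div_nonneg h1 n3.le
  have t1 := neg_pos.2 (h.f1.cone p1 p2)
  have t2 := neg_pos.2 (h.f2.cone p1 p2)
  have t3 := neg_pos.2 (h.f3.cone p1 p2)
  have k : mink (p + (mink z p / -mink z o) • o + (mink y p / -mink y o') • o' +
      (mink x p / -mink x o'') • o'') (p + (mink z p / -mink z o) • o + (mink y p / -mink y o') • o' +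
      (mink x p / -mink x o'') • o'') < 0 := by
    have c := fun {a b : ℝ} {v w : V4} (ha : 0 ≤ a) (hb : 0 ≤ b) (f : Fut v) (g : Fut w) =>
      mul_nonneg (mul_nonneg ha hb) (neg_pos.2 (f.cone g.2.le g.1)).le
    simp only [mk_add, add_mk, mk_smul, smul_mk, mk_comm p o, mk_comm p o', mk_comm p o'']
    have := And.intro (mul_nonneg b1 t1.le) (And.intro (mul_nonneg b2 t2.le) (mul_nonneg b3 t3.le))
    have : 0 < mink z p / -mink z o * -mink o p + mink y p / -mink y o' * -mink o' p +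
        mink x p / -mink x o'' * -mink o'' p := by
      rcases h4 with g | g | g
      · linarith [mul_pos (div_pos g n3) t3]
      · linarith [mul_pos (div_pos g n2) t2]
      · linarith [mul_pos (div_pos g n1) t1]
    linarith [c b1 b1 h.f1 h.f1, c b1 b2 h.f1 h.f2, c b1 b3 h.f1 h.f3, c b2 b1 h.f2 h.f1,
      c b2 b2 h.f2 h.f2, c b2 b3 h.f2 h.f3, c b3 b1 h.f3 h.f1, c b3 b2 h.f3 h.f2, c b3 b3 h.f3 h.f3]
  have q := sub_pos.2 ((sq_lt_one_iff_abs_lt_one _).2 a3)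
  have := perp_pos k (x := (1 - mink x y ^ 2) • (z - mink x z • x) -
    (mink y z - mink x y * mink x z) • (y - mink x y • x)) (y := o) (by
      simp only [sub_mk, smul_mk]
      simp [h.x1, h.y1, h.x2, h.z2, h.y3, h.z3, div_neg, h.z1.ne, h.y2.ne, h.x3.ne]) (by simp [h.x1, h.y1, h.z1.ne, q.ne'])
  simp only [sub_mk, mk_sub, mk_smul, smul_mk, h.ux, h.uy, h.uz, mk_comm y x, mk_comm z x,
    mk_comm z y] at this
  refine (mul_pos_iff_of_pos_left q).1 ?_
  rw [vtx]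
  linarith

theorem lim_le {a b c : ℕ → ℕ} {A B C : ℝ} (ha : Tendsto (fun m => an m (a m)) atTop (𝓝 A))
    (hb' : Tendsto (fun m => an m (b m)) atTop (𝓝 B)) (hc : Tendsto (fun m => an m (c m)) atTop (𝓝 C))
    (H : ∀ᶠ m : ℕ in atTop, Adm (2 * m + 1) (a m) (b m) (c m)) :
    A ≤ B + C ∧ B ≤ A + C ∧ C ≤ A + B ∧ A + B + C ≤ 4 * π := by
  have H' := H.mono fun m g => show (a m : ℝ) ≤ b m + c m ∧ (b m : ℝ) ≤ a m + c m ∧
      (c m : ℝ) ≤ a m + b m ∧ (a m : ℝ) + b m + c m ≤ 4 * m by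
    simp only [Adm] at g
    exact_mod_cast (show a m ≤ b m + c m ∧ b m ≤ a m + c m ∧ c m ≤ a m + b m ∧
      a m + b m + c m ≤ 4 * m by omega)
  have t := hb_tendsto
  refine ⟨le_of_tendsto_of_tendsto ha (hb'.add hc) (H'.mono fun m g => ?_),
    le_of_tendsto_of_tendsto hb' (ha.add hc) (H'.mono fun m g => ?_),
    le_of_tendsto_of_tendsto hc (ha.add hb') (H'.mono fun m g => ?_), ?_⟩
  iterate 3 simp only [an, Int.cast_natCast]; nlinarith [hb_pos m]
  simpa using le_of_tendsto_of_tendsto ((ha.add hb').add hc) (t.const_add (4 * π))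
    (H'.mono fun m g => by simp only [an, Int.cast_natCast]; nlinarith [hb_pos m, hb_mul m])

theorem adm_of {x y z u v w : ℕ → ℕ} {X Y Z : ℝ}
    (a1 : ∀ᶠ m : ℕ in atTop, Adm (2 * m + 1) (u m) (v m) (x m))
    (a2 : ∀ᶠ m : ℕ in atTop, Adm (2 * m + 1) (u m) (w m) (y m))
    (a3 : ∀ᶠ m : ℕ in atTop, Adm (2 * m + 1) (v m) (w m) (z m))
    (x2 : Tendsto (fun m => an m (x m)) atTop (𝓝 X)) (y2 : Tendsto (fun m => an m (y m)) atTop (𝓝 Y))
    (z2 : Tendsto (fun m => an m (z m)) atTop (𝓝 Z))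
    (k0 : X < Y + Z ∧ Y < X + Z ∧ Z < X + Y ∧ X + Y + Z < 4 * π) :
    ∀ᶠ m : ℕ in atTop, Adm (2 * m + 1) (x m) (y m) (z m) := by
  have t := hb_tendsto
  filter_upwards [a1, a2, a3, (x2.add t).eventually_lt (y2.add z2) (by simpa using k0.1),
    (y2.add t).eventually_lt (x2.add z2) (by simpa using k0.2.1),
    (z2.add t).eventually_lt (x2.add y2) (by simpa using k0.2.2.1),
    (((x2.add y2).add z2).add (t.const_mul 5)).eventually_lt tendsto_const_nhds
      (by simpa using k0.2.2.2)] with m g g' g'' g1 g2 g3 g4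
  have p := hb_pos m
  have q := hb_mul m
  simp only [an, Int.cast_natCast] at g1 g2 g3 g4
  have i : x m < y m + z m ∧ y m < x m + z m ∧ z m < x m + y m ∧ x m + y m + z m + 6 < 4 * m := by
    exact_mod_cast (show (x m : ℝ) < y m + z m ∧ (y m : ℝ) < x m + z m ∧ (z m : ℝ) < x m + y m ∧
      (x m : ℝ) + y m + z m + 6 < 4 * m from ⟨by nlinarith, by nlinarith, by nlinarith, by nlinarith⟩)
  simp only [Adm, Nat.even_iff] at g g' g'' ⊢
  omega

variable {k i j l : ℕ} {V : Finset (ℕ × ℕ × ℕ)} {T : Finset (ℕ × ℕ × ℕ × ℕ)} {n : ℕ → V4}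
  {o : ℕ → ℕ → V4} {u : ℕ × ℕ × ℕ → V4} {c : ℕ → Sym2 ℕ → ℕ}

open Classical in
/-- the sign of an edge -/
noncomputable def fp (n : ℕ → V4) (c : ℕ → Sym2 ℕ → ℕ) (a b : ℕ) : ZMod 2 :=
  if Tendsto (fun m => an m (c m s(a, b))) atTop (𝓝 (xi (n a) (n b))) then 0 else 1

noncomputable def par (n : ℕ → V4) (c : ℕ → Sym2 ℕ → ℕ) (t : ℕ × ℕ × ℕ) : ZMod 2 :=
  fp n c t.2.1 t.2.2 + fp n c t.1 t.2.2 + fp n c t.1 t.2.1

theorem fp_lim (h : Conv (fun m => c m s(i, j)) (arccos (-mink (n i) (n j)))) :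
    ∃ X, Tendsto (fun m => an m (c m s(i, j))) atTop (𝓝 X) ∧
      (fp n c i j = 0 ∧ X = xi (n i) (n j) ∨ fp n c i j = 1 ∧ X = 2 * π - xi (n i) (n j)) := by
  by_cases g : Tendsto (fun m => an m (c m s(i, j))) atTop (𝓝 (xi (n i) (n j)))
  · exact ⟨_, g, .inl ⟨if_pos g, rfl⟩⟩
  obtain ⟨X, rfl | rfl, p⟩ := an_lim (y := fun m => c m s(i, j)) (.of_forall fun _ => rfl) h
  exacts [absurd p g, ⟨_, p, .inr ⟨if_neg g, rfl⟩⟩]

theorem par_even (h : At n c i j l) (g : xi (n j) (n l) + xi (n i) (n l) + xi (n i) (n j) < 2 * π) :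
    par n c (i, j, l) = 0 := by
  obtain ⟨X, x1, x2⟩ := fp_lim h.2.1
  obtain ⟨Y, y1, y2⟩ := fp_lim h.2.2.1
  obtain ⟨Z, z1, z2⟩ := fp_lim h.2.2.2
  have := lim_le x1 y1 z1 h.1
  rcases x2 with ⟨p, rfl⟩ | ⟨p, rfl⟩ <;> rcases y2 with ⟨q, rfl⟩ | ⟨q, rfl⟩ <;>
    rcases z2 with ⟨r, rfl⟩ | ⟨r, rfl⟩ <;> simp only [par, p, q, r] <;>
    first | rfl | (exfalso; linarith)

theorem Geo.vx3 (h : Geo n o u k V) (g : (i, j, l) ∈ V) (s : i < j ∧ j < l ∧ l < k) :
    Vx (n i) (n j) (n l) (o i j) (o i l) (o j l) :=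
  let ⟨a, b, c⟩ := h.ed _ _ _ g
  ⟨h.unit _ (by omega), h.unit _ (by omega), h.unit _ (by omega), c.f, b.f, a.f, c.z1, c.z2,
    c.lt _ (by omega) (by omega) (by omega), b.z1, b.lt _ (by omega) (by omega) (by omega), b.z2,
    a.lt _ (by omega) (by omega) (by omega), a.z1, a.z2⟩

theorem Blow.hand (h : Blow k V T) : ∑ t ∈ V, par n c t = 0 :=
  (h.tele _).symm.trans (Finset.sum_eq_zero fun _ _ => by
    have : ∀ a b c d e f : ZMod 2, a + b + c + (a + d + e) + (b + d + f) + (c + e + f) = 0 := by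
      decide
    simp only [par, ZMod.neg_eq_self_mod_two, ite_self, this])

theorem Dec.virt (h : Dec n o u k V T) (g : (i, j, l) ∈ V) (G : Geo n o u (k + 1) (nx V i j l k))
    (p : 0 < mink (n k) (u (i, j, l))) (H : ∀ i' j' l', (i', j', l') ∈ nx V i j l k → At n c i' j' l') :
    At n c i j l := by
  have A1 := H _ _ _ nx1
  have A2 := H _ _ _ nx2
  have A3 := H _ _ _ nx3
  have s := h.blow.sort.2.1
  have s0 := s _ _ _ g
  have v := h.geo.vx _ _ _ g
  have w := (h.geo.vx3 g s0).wk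
  have key : par n c (i, j, l) = 0 ∨ 2 * π < xi (n j) (n l) + xi (n i) (n l) + xi (n i) (n j) := by
    rcases lt_or_ge 0 (mink (u (i, j, l)) (u (i, j, l))) with q | q
    · have := ((h.pq_step g G p).neg 3 3).2 (by simpa using q)
      refine .inr (lt_of_le_of_ne (not_lt.1 fun e => ?_) fun e => ?_)
      · refine this.not_gt ((w.tri e).vtx_pos.trans_eq ?_)
        simp only [ap, amc, H14.am, vtx, of_apply, cons_val]
        ring
      · simp only [ap, amc, H14.am, of_apply, cons_val, vtx_sin] at this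
        rw [show (xi (n i) (n j) + xi (n j) (n l) + xi (n i) (n l)) / 2 = π by linarith] at this
        simp at this
    left
    rcases lt_trichotomy (u (i, j, l) 0) 0 with r | r | r
    · refine (Finset.sum_eq_single_of_mem _ g fun ⟨a, b, d⟩ t1 t2 => ?_).symm.trans h.blow.hand
      have := s _ _ _ t1
      refine par_even (H _ _ _ (mem_nx.2 (.inl ⟨t2, t1⟩))) ((h.geo.vx3 t1 this).lt
        (p := -u (i, j, l)) (by simpa using q) (neg_pos.2 r) (by simpa using v.le a (by omega))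
        (by simpa using v.le b (by omega)) (by simpa using v.le d (by omega)) ?_)
      simp only [mk_neg, neg_pos, ne_eq, Prod.mk.injEq] at t2 ⊢
      by_cases c1 : a ≠ i ∧ a ≠ j ∧ a ≠ l
      · exact .inl (v.lt a (by omega) c1.1 c1.2.1 c1.2.2)
      by_cases c2 : b ≠ i ∧ b ≠ j ∧ b ≠ l
      · exact .inr (.inl (v.lt b (by omega) c2.1 c2.2.1 c2.2.2))
      · exact .inr (.inr (v.lt d (by omega) (by omega) (by omega) (by omega)))
    · exact absurd (causal_zero q r _) p.ne'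
    have e1 := par_even A1 ((G.vx3 nx1 (by omega)).lt q r v.z2.ge v.z3.ge p.le (.inr (.inr p)))
    have e2 := par_even A2 ((G.vx3 nx2 (by omega)).lt q r v.z1.ge v.z3.ge p.le (.inr (.inr p)))
    have e3 := par_even A3 ((G.vx3 nx3 (by omega)).lt q r v.z1.ge v.z2.ge p.le (.inr (.inr p)))
    exact (by decide : ∀ a b c d e f : ZMod 2, a + b + c = 0 → a + d + e = 0 → b + d + f = 0 →
      c + e + f = 0) _ _ _ _ _ _ e1 e2 e3
  refine ⟨?_, A1.2.2.2, A2.2.2.2, A3.2.2.2⟩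
  obtain ⟨X, x1, x2⟩ := fp_lim A1.2.2.2
  obtain ⟨Y, y1, y2⟩ := fp_lim A2.2.2.2
  obtain ⟨Z, z1, z2⟩ := fp_lim A3.2.2.2
  refine adm_of A1.1 A2.1 A3.1 x1 y1 z1 ?_
  obtain ⟨⟨w1, w2, w3⟩, w4, w5, w6⟩ := w
  rcases x2 with ⟨p, rfl⟩ | ⟨p, rfl⟩ <;> rcases y2 with ⟨q, rfl⟩ | ⟨q, rfl⟩ <;>
    rcases z2 with ⟨r, rfl⟩ | ⟨r, rfl⟩ <;> simp only [par, p, q, r] at key <;>
    first
    | exact ⟨by linarith, by linarith, by linarith, by linarith⟩
    | (have := key.resolve_left (by decide)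
       exact ⟨by linarith, by linarith, by linarith, by linarith⟩)

theorem Dec.at (h : Dec n o u k V T) (H : ∀ i j l, (i, j, l) ∈ V → At n c i j l) :
    ∀ i j l m, (i, j, l, m) ∈ T → At n c j l m ∧ At n c i l m ∧ At n c i j m ∧ At n c i j l := by
  induction h with
  | base =>
    intro i j l m g
    cases Finset.mem_singleton.1 g
    exact ⟨H _ _ _ (by simp), H _ _ _ (by simp), H _ _ _ (by simp), H _ _ _ (by simp)⟩
  | step k V T i j l h g G p ih =>
    have A := h.virt g G p H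
    intro a b d m q
    rcases Finset.mem_insert.1 q with q | q
    · cases q
      exact ⟨H _ _ _ nx1, H _ _ _ nx2, H _ _ _ nx3, A⟩
    refine ih (fun a b d q => ?_) _ _ _ _ q
    by_cases c : (a, b, d) = (i, j, l)
    · cases c; exact A
    · exact H _ _ _ (mem_nx.2 (.inl ⟨c, q⟩))

theorem lim_prod {X : Type} (s : Finset X) {B : X → ℕ → ℝ} {v : X → ℝ} (h : ∀ q ∈ s, Lim (B q) (v q)) :
    Lim (fun m => ∏ q ∈ s, B q m) (∑ q ∈ s, v q) := by
  induction s using Finset.cons_induction with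
  | empty => exact ⟨by simp, by simp⟩
  | cons a s g ih =>
    simp only [Finset.prod_cons, Finset.sum_cons]
    exact (h a (Finset.mem_cons_self _ _)).mul (ih fun q p => h q (Finset.mem_cons_of_mem p))

theorem Dec.lim (h : Dec n o u k V T) (H : ∀ i j l, (i, j, l) ∈ V → At n c i j l) :
    Lim (fun m => brk T (2 * m + 1) (c m)) (∑ q ∈ T, ap W (Nq n q)) := by
  have A := h.at H
  have L := lim_prod T (B := fun q m => piece (2 * m + 1) (c m) q.1 q.2.1 q.2.2.1 q.2.2.2)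
    fun q g => let ⟨a0, a1, a2, a3⟩ := A _ _ _ _ g
      HA.fin (h.pq q g).ha (a0.1.and (a1.1.and (a2.1.and a3.1))) a2.2.2.2 a0.2.2.1 a0.2.2.2 a1.2.2.1
        a1.2.2.2 a0.2.1
  have e : ∀ᶠ m : ℕ in atTop, ∏ q ∈ T, piece (2 * m + 1) (c m) q.1 q.2.1 q.2.2.1 q.2.2.2 =
      brk T (2 * m + 1) (c m) := by
    filter_upwards [(eventually_all_finset T).2 fun q g => (A _ _ _ _ g).2.2.2.1] with m g
    exact (if_pos fun _ _ _ _ p => g _ p).symm
  exact ⟨(L.1.and e).mono fun _ g => g.1.trans_eq g.2, L.2.congr' (e.mono fun _ g => by simp only [g])⟩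

end Pool.Agent.MP_b0afd3_gt.H50
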