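import Pool.Agent.MP_b0afd3_gt.H50.Lor

set_option autoImplicit false

namespace Pool.Agent.MP_b0afd3_gt.H50

open Real Filter Topology Pool.Agent.MP_b0afd3_gt.H80 Matrix H14 MeasureTheory

variable {N U : Fin 4 → V4} {i j : Fin 4} {y : V4}

/-- a simplicial cone with its normals and its extreme rays -/
structure Sx (N U : Fin 4 → V4) : Prop where
  face : ∀ i j, i ≠ j → mink (N j) (U i) = 0
  outer : ∀ j, mink (N j) (U j) < 0

noncomputable def wm (N U : Fin 4 → V4) : Matrix (Fin 4) (Fin 4) ℝ :=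
  Matrix.of fun k j => U j k / mink (N j) (U j)

theorem Sx.inv (h : Sx N U) : nm N * wm N U = 1 := by
  ext i j
  have : (nm N * wm N U) i j = mink (N i) (U j) / mink (N j) (U j) := by
    simp [nm, wm, Matrix.mul_apply, Fin.sum_univ_four, mink]; ring
  rw [this]
  by_cases g : i = j
  · subst g; rw [div_self (h.outer i).ne, one_apply_eq]
  · rw [h.face j i (Ne.symm g), zero_div, one_apply_ne g]

theorem Sx.exp (h : Sx N U) (x : V4) : x = ∑ j, (mink (N j) x / mink (N j) (U j)) • U j := by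
  have := congrArg (· *ᵥ x) (mul_eq_one_comm.1 h.inv)
  simp only [← mulVec_mulVec, one_mulVec] at this
  refine this.symm.trans (funext fun k => ?_)
  simp only [← nm_mulVec N x]
  generalize nm N *ᵥ x = z
  simp only [mulVec, dotProduct, wm, of_apply, Finset.sum_apply, Pi.smul_apply, smul_eq_mul]
  exact Finset.sum_congr rfl fun j _ => by ring

theorem Sx.pair (h : Sx N U) (z x : V4) :
    mink z x = ∑ j, mink (N j) x / mink (N j) (U j) * mink z (U j) := by
  conv_lhs => rw [h.exp x]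
  simp only [Fin.sum_univ_four, mk_add, mk_smul]

/-- a point in the interior of the edge from `U i` to `U j` -/
structure On (N : Fin 4 → V4) (i j : Fin 4) (y : V4) : Prop where
  f : Fut y
  l : mink (N i) y < 0
  r : mink (N j) y < 0
  z : ∀ k, k ≠ i → k ≠ j → mink (N k) y = 0

theorem On.symm (h : On N i j y) : On N j i y := ⟨h.f, h.r, h.l, fun k p q => h.z k q p⟩

theorem Sx.on (h : Sx N U) (g : i ≠ j) (k : On N i j y) :
    ∃ α > (0 : ℝ), ∃ β > (0 : ℝ), y = α • U i + β • U j :=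
  ⟨_, div_pos_of_neg_of_neg k.l (h.outer i), _, div_pos_of_neg_of_neg k.r (h.outer j),
    (h.exp y).trans (Fintype.sum_eq_add i j g fun c hc => by simp [k.z c hc.1 hc.2])⟩

/-- a piece of the decomposition -/
structure Pc (N U : Fin 4 → V4) : Prop extends Sx N U where
  unit : ∀ j, mink (N j) (N j) = 1
  ed : ∀ i j, i ≠ j → ∃ y, On N i j y

theorem Pc.perm (h : Pc N U) (σ : Equiv.Perm (Fin 4)) : Pc (N ∘ σ) (U ∘ σ) :=
  ⟨⟨fun _ _ g => h.face _ _ (σ.injective.ne g), fun _ => h.outer _⟩, fun _ => h.unit _,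
    fun _ _ g => (h.ed _ _ (σ.injective.ne g)).imp fun _ k =>
      ⟨k.f, k.l, k.r, fun _ p q => k.z _ (σ.injective.ne p) (σ.injective.ne q)⟩⟩

theorem Sx.pc (h : Sx N U) (hu : ∀ j, mink (N j) (N j) = 1) (g : ∀ i, Fut (U i)) : Pc N U :=
  ⟨h, hu, fun i j k => ⟨U i + U j, (g i).add (g j).2.le (g j).1,
    by simpa [h.face j i k.symm] using h.outer i, by simpa [h.face i j k] using h.outer j,
    fun c p q => by simp [h.face i c p.symm, h.face j c q.symm]⟩⟩

theorem Pc.ang (h : Pc N U) (i j : Fin 4) (g : i ≠ j) : |mink (N i) (N j)| < 1 := by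
  obtain ⟨p, q, k, k1, k2, k3, k4⟩ := (by decide : ∀ i j : Fin 4, ∃ p q : Fin 4,
    p ≠ q ∧ i ≠ p ∧ i ≠ q ∧ j ≠ p ∧ j ≠ q) i j
  obtain ⟨y, e⟩ := h.ed p q k
  exact ang_lt (h.unit i) (h.unit j) e.f.2 (e.z i k1 k2) (e.z j k3 k4) (h.face j i g.symm)
    (h.outer j).ne

theorem Pc.wk (h : Pc N U) (i x y z : Fin 4)
    (g : i ≠ x ∧ i ≠ y ∧ i ≠ z ∧ x ≠ y ∧ x ≠ z ∧ y ≠ z) :
    Wk 0 (xi (N y) (N z)) (xi (N x) (N z)) (xi (N x) (N y)) := by
  obtain ⟨g1, g2, g3, g4, g5, g6⟩ := g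
  obtain ⟨_, e1⟩ := h.ed i z g3
  obtain ⟨_, e2⟩ := h.ed i y g2
  obtain ⟨_, e3⟩ := h.ed i x g1
  exact Vx.wk ⟨h.unit x, h.unit y, h.unit z, e1.f, e2.f, e3.f, e1.z x g1.symm g5, e1.z y g2.symm g6,
    e1.r, e2.z x g1.symm g4, e2.r, e2.z z g3.symm g6.symm, e3.r, e3.z y g2.symm g4.symm,
    e3.z z g3.symm g5.symm⟩

/-- a function of the six exterior angles -/
noncomputable def ap {X : Sort*} (F : ℝ → ℝ → ℝ → ℝ → ℝ → ℝ → X) (N : Fin 4 → V4) : X :=
  F (xi (N 0) (N 1)) (xi (N 1) (N 3)) (xi (N 1) (N 2)) (xi (N 0) (N 3)) (xi (N 0) (N 2))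
    (xi (N 2) (N 3))

noncomputable def amc (a b c d e f : ℝ) := am (cos a) (cos b) (cos c) (cos d) (cos e) (cos f)

theorem Pc.wk4 (h : Pc N U) : ap (Wk4 0) N :=
  ⟨h.wk 0 1 2 3 (by decide), h.wk 1 0 2 3 (by decide), (h.wk 2 0 1 3 (by decide)).s2.s1,
    (h.wk 3 0 1 2 (by decide)).s2.s1⟩

theorem Pc.gram (h : Pc N U) : (nm N).det ≠ 0 ∧ ap gd N = -(nm N).det ^ 2 ∧
    ap amc N = ap gd N • ((wm N U)ᵀ * jm * wm N U) := by
  have c := fun i j g => (xi_of (h.ang i j g)).2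
  simp only [ap, gd, amc, c 0 1 (by decide), c 1 3 (by decide), c 1 2 (by decide), c 0 3 (by decide),
    c 0 2 (by decide), c 2 3 (by decide)]
  have hG : gm (mink (N 0) (N 1)) (mink (N 1) (N 3)) (mink (N 1) (N 2)) (mink (N 0) (N 3))
      (mink (N 0) (N 2)) (mink (N 2) (N 3)) = nm N * jm * (nm N)ᵀ := by
    ext i j
    rw [njn]
    fin_cases i <;> fin_cases j <;> simp [gm, h.unit] <;> exact mk_comm _ _
  have hWN := mul_eq_one_comm.1 h.inv
  refine ⟨fun g => by simpa [g] using congrArg det h.inv, by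
    rw [← det_gm, hG, det_mul, det_mul, det_transpose, det_jm]; ring, ?_⟩
  have h1 : (wm N U)ᵀ * jm * wm N U * (nm N * jm * (nm N)ᵀ) = 1 := by
    calc _ = (wm N U)ᵀ * (jm * ((wm N U * nm N) * jm)) * (nm N)ᵀ := by simp only [Matrix.mul_assoc]
      _ = 1 := by rw [hWN, Matrix.one_mul, jm_mul_jm, Matrix.mul_one, ← transpose_mul, h.inv,
        transpose_one]
  rw [← hG] at h1
  rw [← Matrix.one_mul (am _ _ _ _ _ _), ← h1, Matrix.mul_assoc, gm_mul_am, Matrix.mul_smul,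
    Matrix.mul_one]

theorem Pc.gd (h : Pc N U) : ap gd N < 0 :=
  h.gram.2.1 ▸ neg_neg_of_pos (sq_pos_of_ne_zero h.gram.1)

theorem Pc.am (h : Pc N U) : ∃ κ : Fin 4 → ℝ, (∀ i, 0 < κ i) ∧
    ∀ i j, ap amc N i j = κ i * κ j * -mink (U i) (U j) := by
  refine ⟨fun i => |(nm N).det| / -mink (N i) (U i),
    fun i => div_pos (abs_pos.2 h.gram.1) (neg_pos.2 (h.outer i)), fun i j => ?_⟩
  have : ((wm N U)ᵀ * jm * wm N U) i j = mink (U i) (U j) / (mink (N i) (U i) * mink (N j) (U j)) := by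
    simp only [wm, jm, Matrix.mul_apply, Fin.sum_univ_four, transpose_apply, of_apply]
    generalize mink (N i) (U i) = p
    generalize mink (N j) (U j) = q
    simp [mink, Matrix.diagonal]
    ring
  rw [h.gram.2.2, h.gram.2.1, Matrix.smul_apply, this, ← sq_abs, smul_eq_mul]
  ring

theorem Pc.pos (h : Pc N U) (i j : Fin 4) : 0 < ap amc N i j ↔ mink (U i) (U j) < 0 := by
  obtain ⟨κ, k, e⟩ := h.am
  rw [e, mul_pos_iff_of_pos_left (mul_pos (k i) (k j)), neg_pos]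

theorem Pc.neg (h : Pc N U) (i j : Fin 4) : ap amc N i j < 0 ↔ 0 < mink (U i) (U j) := by
  obtain ⟨κ, k, e⟩ := h.am
  rw [e, mul_neg, neg_lt_zero, mul_pos_iff_of_pos_left (mul_pos (k i) (k j))]

/-- past directed causal vectors -/
def Past (x : V4) : Prop := mink x x ≤ 0 ∧ x 0 < 0

theorem Sx.fut (h : Sx N U) (g : ¬Past (U i)) (k : mink (U i) (U i) ≤ 0) : 0 < U i 0 :=
  (not_lt.1 fun p => g ⟨k, p⟩).lt_of_ne' fun p => (h.outer i).ne (causal_zero k p _)

theorem Pc.tf (h : Pc N U) (g : ∀ i, ¬Past (U i)) : ap TF N := by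
  have K : ∀ i j, i ≠ j → 0 ≤ ap amc N i i * ap amc N j j → 0 < ap amc N i j := fun i j k p => by
    obtain ⟨y, e⟩ := h.ed i j k
    obtain ⟨α, a1, β, b1, rfl⟩ := h.on k e
    have q := e.f.2
    simp only [mk_add, add_mk, mk_smul, smul_mk, mk_comm (U j) (U i)] at q
    rw [h.pos]
    by_cases s : mink (U i) (U i) < 0
    · have := not_lt.1 ((h.neg j j).not.1 (nonneg_of_mul_nonneg_right p ((h.pos i i).2 s)).not_gt)
      exact Fut.cone ⟨h.fut (g i) s.le, s⟩ this (h.fut (g j) this)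
    by_cases t : mink (U j) (U j) < 0
    · have := not_lt.1 ((h.neg i i).not.1 (nonneg_of_mul_nonneg_left p ((h.pos j j).2 t)).not_gt)
      exact mk_comm _ _ ▸ Fut.cone ⟨h.fut (g j) t.le, t⟩ this (h.fut (g i) this)
    by_contra! r
    nlinarith [mul_nonneg (mul_pos a1 b1).le r, mul_nonneg (mul_pos a1 a1).le (not_lt.1 s),
      mul_nonneg (mul_pos b1 b1).le (not_lt.1 t)]
  exact ⟨h.wk4, h.gd, K 0 1 (by decide), K 0 2 (by decide), K 0 3 (by decide), K 1 2 (by decide),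
    K 1 3 (by decide), K 2 3 (by decide)⟩

theorem Pc.other (h : Pc N U) (g : Past (U i)) (j : Fin 4) (k : i ≠ j) : Fut (U j) := by
  obtain ⟨y, e⟩ := h.ed i j k
  obtain ⟨α, a1, β, b1, rfl⟩ := h.on k e
  have := (e.f.add (y := α • -U i) (by
    simp only [mk_smul, smul_mk, mk_neg, neg_mk]
    nlinarith [mul_nonneg (mul_pos a1 a1).le (neg_nonneg.2 g.1)])
    (mul_pos a1 (neg_pos.2 g.2))).smul (inv_pos.2 b1)
  rwa [smul_neg, add_neg_cancel_comm, inv_smul_smul₀ b1.ne'] at this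

theorem Pc.tp (h : Pc N U) (g : Past (U 0)) : ap TP N := by
  have F := h.other g
  have K : ∀ i j, 0 ≠ i → 0 ≠ j → 0 < ap amc N i j := fun i j p q =>
    (h.pos i j).2 ((F i p).cone (F j q).2.le (F j q).1)
  have L : ∀ j, 0 ≠ j → ap amc N 0 j < 0 := fun j p => (h.neg 0 j).2 (by
    simpa [mk_comm (U j)] using (F j p).cone (y := -U 0) (by simpa using g.1) (neg_pos.2 g.2))
  exact ⟨h.wk4, h.gd, K 1 1 (by decide) (by decide), K 2 2 (by decide) (by decide),
    K 3 3 (by decide) (by decide), L 1 (by decide), L 2 (by decide), L 3 (by decide),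
    K 1 2 (by decide) (by decide), K 1 3 (by decide) (by decide), K 2 3 (by decide) (by decide)⟩

theorem ap_swap {X : Sort*} {F : ℝ → ℝ → ℝ → ℝ → ℝ → ℝ → X} (i : Fin 4) :
    ap F (N ∘ Equiv.swap 0 i) = ap F N ∨
    ap F (N ∘ Equiv.swap 0 i) = ap (fun a b c d e f => F a d e b c f) N ∨
    ap F (N ∘ Equiv.swap 0 i) = ap (fun a b c d e f => F c b a f e d) N ∨
    ap F (N ∘ Equiv.swap 0 i) = ap (fun a b c d e f => F b a c d f e) N := by
  fin_cases i
  · left; simp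
  · right; left; simp [ap, Equiv.swap_apply_def, xi_comm (N 1) (N 0)]
  · right; right; left
    simp [ap, Equiv.swap_apply_def, xi_comm (N 1) (N 0), xi_comm (N 2) (N 0), xi_comm (N 2) (N 1)]
  · right; right; right
    simp [ap, Equiv.swap_apply_def, xi_comm (N 1) (N 0), xi_comm (N 2) (N 0), xi_comm (N 3)]

theorem W_swap (h : ap gd N < 0) (i : Fin 4) : ap W (N ∘ Equiv.swap 0 i) = ap W N := by
  rcases ap_swap (F := W) (N := N) i with g | g | g | g <;> rw [g] <;>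
    exact W_congr h (by simp only [gd, gdet]; ring) (fun _ => by simp only [sX]; ring_nf)
      (fun _ => by simp only [sY]; ring_nf) fun _ => by simp only [H80.U, dl]; ring_nf

theorem Pc.ha (h : Pc N U) : ap HA N (ap W N) := by
  by_cases g : ∀ i, ¬Past (U i)
  · exact fun _ _ _ _ _ _ => (h.tf g).all
  obtain ⟨i, g⟩ : ∃ i, Past (U i) := by simpa using g
  have k : ap HA (N ∘ Equiv.swap 0 i) (ap W (N ∘ Equiv.swap 0 i)) := fun _ _ _ _ _ _ =>
    ((h.perm (Equiv.swap 0 i)).tp (by simpa using g)).all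
  rw [W_swap h.gd] at k
  rcases ap_swap (F := HA) (N := N) i with g | g | g | g <;> rw [g] at k
  · exact k
  · exact fun _ _ _ _ _ _ a b c d e f => (k _ _ _ _ _ _ a d e b c f).s12
  · exact fun _ _ _ _ _ _ a b c d e f => (k _ _ _ _ _ _ c b a f e d).s12.s23.s12
  · exact fun _ _ _ _ _ _ a b c d e f => (k _ _ _ _ _ _ b a c d f e).s12.s23.s34.s23.s12

theorem Pc.lg (h : Pc N U) (g : i ≠ j) (e : On N i j y) (hi : mink (U i) (U i) ≠ 0)
    (hj : mink (U j) (U j) ≠ 0) {c d : ℝ} (hc : c = ap amc N i j)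
    (hd : d = ap amc N i i * ap amc N j j) : lg c d = sl y (U i) + sl y (U j) := by
  obtain ⟨α, a1, β, b1, rfl⟩ := h.on g e
  obtain ⟨κ, k, p⟩ := h.am
  have q : mink (U i) (U i) * mink (U j) (U j) ≤ (-mink (U i) (U j)) ^ 2 := by
    rcases hi.lt_or_gt with s | s
    · exact neg_sq (mink _ _) ▸ (rcs s (h.outer i).ne (h.face j i g.symm) (h.outer j).ne).le
    · have q := mul_neg_of_pos_of_neg s e.f.2
      simp only [mk_add, add_mk, mk_smul, smul_mk, mk_comm (U j) (U i)] at q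
      refine le_of_mul_le_mul_left ?_ (mul_pos b1 b1)
      nlinarith [sq_nonneg (α * mink (U i) (U i) + β * mink (U i) (U j))]
  rw [sl_add a1 b1 e.f.2 hi hj q, ← lg_scale q (mul_ne_zero hi hj) (mul_pos (k i) (k j)), hc, hd, p,
    p, p]
  congr 1
  ring

theorem Pc.deriv {N : ℝ → Fin 4 → V4} {t a b c d e f : ℝ} {p q r s u v : V4} (h : Pc (N t) U)
    (g : ∀ i, mink (U i) (U i) ≠ 0) (ha : HasDerivAt (fun t => xi (N t 0) (N t 1)) a t)
    (hb : HasDerivAt (fun t => xi (N t 1) (N t 3)) b t)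
    (hc : HasDerivAt (fun t => xi (N t 1) (N t 2)) c t)
    (hd : HasDerivAt (fun t => xi (N t 0) (N t 3)) d t)
    (he : HasDerivAt (fun t => xi (N t 0) (N t 2)) e t)
    (hf : HasDerivAt (fun t => xi (N t 2) (N t 3)) f t) (hp : On (N t) 2 3 p) (hq : On (N t) 0 2 q)
    (hr : On (N t) 0 3 r) (hs : On (N t) 1 2 s) (hu : On (N t) 1 3 u) (hv : On (N t) 0 1 v) :
    HasDerivAt (fun t => ap W (N t))
      (((sl v (U 0) * f + sl q (U 0) * b + sl r (U 0) * c) +
        (sl v (U 1) * f + sl s (U 1) * d + sl u (U 1) * e) +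
        (sl q (U 2) * b + sl s (U 2) * d + sl p (U 2) * a) +
        (sl r (U 3) * c + sl u (U 3) * e + sl p (U 3) * a)) / 2) t := by
  have n : ∀ i, ap amc (N t) i i ≠ 0 := fun i k => by
    rcases (g i).lt_or_gt with j | j
    exacts [((h.pos i i).2 j).ne' k, ((h.neg i i).2 j).ne k]
  have z := fun i j k => (sin_pos_of_mem_Ioo (xi_of (h.ang i j k)).1).le
  refine (W_deriv ha hb hc hd he hf ⟨n 0, n 1, n 2, n 3⟩ h.gd).congr_deriv ?_
  rw [hl_lg (z 0 1 (by decide)), hl_lg (z 1 3 (by decide)), hl_lg (z 1 2 (by decide)),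
    hl_lg (z 0 3 (by decide)), hl_lg (z 0 2 (by decide)), hl_lg (z 2 3 (by decide)),
    h.lg (by decide) hp (g _) (g _), h.lg (by decide) hq (g _) (g _),
    h.lg (by decide) hr (g _) (g _), h.lg (by decide) hs (g _) (g _),
    h.lg (by decide) hu (g _) (g _), h.lg (by decide) hv (g _) (g _)]
  · ring
  all_goals first | rfl | (simp only [ap, amc, H14.am, vtx, of_apply, cons_val]; ring)

end Pool.Agent.MP_b0afd3_gt.H50
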