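import Pool.Agent.MP_b0afd3_gt.H50.Max

set_option autoImplicit false

namespace Pool.Agent.MP_b0afd3_gt.H50

open Real Filter Topology Pool.Agent.MP_b0afd3_gt.H80 Col

/-- upper bound for the growth rate -/
def Up (C : ℕ → Col) (V : ℝ) : Prop :=
  ∀ ε > 0, ∀ᶠ m in atTop, |(C m).u m| ≤ exp ((V + ε) / hb m)

/-- lower bound for the growth rate -/
def Lw (C : ℕ → Col) (V : ℝ) : Prop :=
  ∀ ε > 0, ∀ᶠ m in atTop, exp ((V - ε) / hb m) ≤ |(C m).u m|

def loZ (D : Col) : ℤ := max (max D.T1 D.T2) (max D.T3 D.T4)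

def hiZ (D : Col) (m : ℕ) : ℤ := min (min D.Q1 D.Q2) (min D.Q3 (2 * m - 1))

theorem lo_an (D : Col) (m : ℕ) : lo (an m D.a) (an m D.b) (an m D.c) (an m D.d) (an m D.e)
    (an m D.f) = hb m * (loZ D + 2) - hb m / 2 := by
  obtain ⟨r1, r2, r3, r4, -⟩ := D.real
  simp only [lo, loZ, Int.cast_max, ← max_add_add_right, mul_max_of_nonneg _ _ (hb_pos m).le,
    ← max_sub_sub_right, r1, r2, r3, r4, an]
  congr 2 <;> ring

theorem hi_an (D : Col) (m : ℕ) : hi (an m D.a) (an m D.b) (an m D.c) (an m D.d) (an m D.e)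
    (an m D.f) = hb m * (hiZ D m + 2) := by
  obtain ⟨-, -, -, -, r1, r2, r3⟩ := D.real
  simp only [hi, hiZ, Int.cast_min, ← min_add_add_right, mul_min_of_nonneg _ _ (hb_pos m).le,
    r1, r2, r3, an, ← hb_mul m]
  push_cast
  congr 2 <;> ring

theorem rg_iff {D : Col} {m : ℕ} {z : ℤ} : D.Rg m z ↔ loZ D ≤ z ∧ z ≤ hiZ D m := by
  simp only [Rg, loZ, hiZ]; omega

theorem ad_le {D : Col} {m : ℕ} (h : D.Ad m) : loZ D ≤ hiZ D m ∧ 0 ≤ loZ D := by
  have := h.pos
  simp only [Ad, loZ, hiZ] at *; omega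

variable {C : ℕ → Col} {a b c d e f ξ V : ℝ}

theorem lim_lo' (L : Lim5 C b c d e f) (La : Tendsto (fun m => an m (C m).a) atTop (𝓝 a)) :
    Tendsto (fun m => lo (an m (C m).a) (an m (C m).b) (an m (C m).c) (an m (C m).d)
      (an m (C m).e) (an m (C m).f)) atTop (𝓝 (lo a b c d e f)) :=
  ((((L.f.add L.b).add L.c).div_const 2).max (((L.f.add L.d).add L.e).div_const 2)).max
    ((((La.add L.b).add L.d).div_const 2).max (((La.add L.c).add L.e).div_const 2))

theorem lim_hi' (L : Lim5 C b c d e f) (La : Tendsto (fun m => an m (C m).a) atTop (𝓝 a)) :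
    Tendsto (fun m => hi (an m (C m).a) (an m (C m).b) (an m (C m).c) (an m (C m).d)
      (an m (C m).e) (an m (C m).f)) atTop (𝓝 (hi a b c d e f)) :=
  (((((La.add L.f).add L.b).add L.e).div_const 2).min
    ((((La.add L.f).add L.c).add L.d).div_const 2)).min
    (((((L.b.add L.c).add L.d).add L.e).div_const 2).min tendsto_const_nhds)

theorem lim_lo (L : Lim5 C b c d e f) (La : Tendsto (fun m => an m (C m).a) atTop (𝓝 a)) :
    Tendsto (fun m => hb m * (loZ (C m) + 2)) atTop (𝓝 (lo a b c d e f)) := by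
  simpa [lo_an] using (lim_lo' L La).add (hb_tendsto.div_const 2)

theorem lim_hi (L : Lim5 C b c d e f) (La : Tendsto (fun m => an m (C m).a) atTop (𝓝 a)) :
    Tendsto (fun m => hb m * (hiZ (C m) m + 2)) atTop (𝓝 (hi a b c d e f)) := by
  simpa [hi_an] using lim_hi' L La

theorem lo_le_hi (L : Lim5 C b c d e f) (La : Tendsto (fun m => an m (C m).a) atTop (𝓝 a))
    (A : ∀ᶠ m in atTop, (C m).Ad m) : lo a b c d e f ≤ hi a b c d e f :=
  le_of_tendsto_of_tendsto (lim_lo L La) (lim_hi L La) (A.mono fun m g => hb_mono m (ad_le g).1)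

theorem up_seq (L : Lim5 C b c d e f) (La : Tendsto (fun m => an m (C m).a) atTop (𝓝 a))
    (A : ∀ᶠ m in atTop, (C m).Ad m)
    (hv : ∀ t ∈ Set.Icc (lo a b c d e f) (hi a b c d e f), U a b c d e f t ≤ V) : Up C V := by
  intro ε hε
  have e3 : 0 < ε / 3 := by positivity
  have lh := lo_le_hi L La A
  obtain ⟨s, s0, hs⟩ := U_uc e3
  filter_upwards [H79.term_est' L La A e3, big 1 e3,
    (lim_lo L La).eventually (lt_mem_nhds (sub_lt_self _ s0)),
    (lim_hi L La).eventually (gt_mem_nhds (lt_add_of_pos_right _ s0))] with m g g0 g1 g2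
  rw [u_eq]
  refine (sum_le (B := exp ((V + 2 * (ε / 3)) / hb m)) subset_rfl (exp_pos _).le
    fun z _ => ?_).trans ?_
  · by_cases hz : (C m).Rg m z
    · have k1 := hb_mono m (rg_iff.1 hz).1
      have k2 := hb_mono m (rg_iff.1 hz).2
      have k3 := hv (max (lo a b c d e f) (min (hi a b c d e f) (hb m * ((z : ℤ) + 2))))
        ⟨le_max_left _ _, max_le lh (min_le_left _ _)⟩
      have k4 := hs a b c d e f (hb m * ((z : ℤ) + 2)) a b c d e f
        (max (lo a b c d e f) (min (hi a b c d e f) (hb m * ((z : ℤ) + 2))))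
        (by simpa) (by simpa) (by simpa) (by simpa) (by simpa) (by simpa) (by
          simp only [abs_lt, max_def, min_def]; split_ifs <;> constructor <;> linarith)
      exact abs_le_exp (by linarith [abs_lt.1 (g z hz).2, abs_lt.1 k4])
    · simp [term_zero _ _ hz, (exp_pos _).le]
  · rw [one_mul] at g0
    refine (mul_le_mul_of_nonneg_right g0 (exp_pos _).le).trans_eq ?_
    rw [← exp_add]; congr 1; ring

theorem diff_le {Q T : ℕ → ℤ} {q t : ℝ} (hQ : Tendsto (fun m => hb m * (Q m + 2)) atTop (𝓝 q))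
    (hT : Tendsto (fun m => hb m * (T m + 2)) atTop (𝓝 t)) (h : q - t < π) :
    ∀ᶠ m : ℕ in atTop, Q m - T m ≤ m := by
  filter_upwards [(hQ.sub hT).eventually (gt_mem_nhds h)] with m g
  have p := hb_pos m
  have : (Q m : ℝ) - T m < m + 1 := lt_of_mul_lt_mul_left (by nlinarith [hb_mul m]) p.le
  exact Int.le_of_lt_add_one (by exact_mod_cast this)

theorem low_seq (L : Lim5 C b c d e f) (La : Tendsto (fun m => an m (C m).a) atTop (𝓝 a))
    (A : ∀ᶠ m in atTop, (C m).Ad m) (h : Small a b c d e f)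
    (hξ : ξ ∈ Set.Icc (lo a b c d e f) (hi a b c d e f)) (h1 : π < ξ) {δ v : ℝ} (hδ : 0 < δ)
    (hK : v < U a b c d e f ξ)
    (hv : ∀ t, lo a b c d e f - δ ≤ t → t ≤ π → U a b c d e f t ≤ v) : Lw C (U a b c d e f ξ) := by
  intro ε hε
  wlog hε' : ε ≤ U a b c d e f ξ - v generalizing ε with H
  · filter_upwards [H _ (sub_pos.2 hK) le_rfl] with m g
    exact (exp_le_exp.2 (div_le_div_of_nonneg_right (by linarith) (hb_pos m).le)).trans g
  have e5 : 0 < ε / 5 := by positivity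
  have T0 : Tendsto (fun m => hb m * ((⌊ξ / hb m⌋ - 2 : ℤ) + 2)) atTop (𝓝 ξ) := by
    have k : Tendsto (fun m => ξ - hb m) atTop (𝓝 ξ) := by simpa using hb_tendsto.const_sub ξ
    refine tendsto_of_tendsto_of_tendsto_of_le_of_le k tendsto_const_nhds (fun m => ?_) fun m => ?_
    · have := (div_lt_iff₀ (hb_pos m)).1 (Int.lt_floor_add_one (ξ / hb m))
      push_cast; linarith
    · have := (le_div_iff₀ (hb_pos m)).1 (Int.floor_le (ξ / hb m))
      push_cast; linarith
  have T : Tendsto (fun m => hb m * ((max (loZ (C m)) (min (hiZ (C m) m) (⌊ξ / hb m⌋ - 2)) : ℤ) + 2))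
      atTop (𝓝 ξ) := by
    have := (lim_lo L La).max ((lim_hi L La).min T0)
    rw [min_eq_right hξ.2, max_eq_right hξ.1] at this
    refine this.congr fun m => ?_
    simp only [Int.cast_max, Int.cast_min, ← max_add_add_right, ← min_add_add_right,
      mul_max_of_nonneg _ _ (hb_pos m).le, mul_min_of_nonneg _ _ (hb_pos m).le]
  have t1 := half_lim (fun m => (C m).t1) L.f L.b L.c
  have t2 := half_lim (fun m => (C m).t2) L.f L.d L.e
  have t3 := half_lim (fun m => (C m).t3) La L.b L.d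
  have t4 := half_lim (fun m => (C m).t4) La L.c L.e
  have q1 := half_lim' (fun m => (C m).q1) La L.f L.b L.e
  have q2 := half_lim' (fun m => (C m).q2) La L.f L.c L.d
  have q3 := half_lim' (fun m => (C m).q3) L.b L.c L.d L.e
  filter_upwards [H79.term_est' L La A e5, A,
    (lim_lo L La).eventually (lt_mem_nhds (sub_lt_self _ hδ)), T.eventually (lt_mem_nhds h1),
    ((U_c.tendsto ξ).comp T).eventually (lt_mem_nhds (sub_lt_self _ e5)), big 2 e5,
    diff_le q1 t1 (by linarith [h.t4.2.1]), diff_le q1 t2 (by linarith [h.t3.1]),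
    diff_le q1 t3 (by linarith [h.t2.2.1]), diff_le q1 t4 (by linarith [h.t1.1]),
    diff_le q2 t1 (by linarith [h.t3.2.1]), diff_le q3 t1 (by linarith [h.t2.2.2])]
    with m g G g1 g6 g7 g8 n1 n2 n3 n4 n5 n6
  simp only [Function.comp] at g7
  have r : (C m).Rg m (max (loZ (C m)) (min (hiZ (C m) m) (⌊ξ / hb m⌋ - 2))) :=
    rg_iff.2 ⟨le_max_left _ _, max_le (ad_le G).1 (min_le_left _ _)⟩
  generalize max (loZ (C m)) (min (hiZ (C m) m) (⌊ξ / hb m⌋ - 2)) = s at *
  have p := hb_pos m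
  have q := hb_mul m
  have k6 : m ≤ s + 1 := by_contra fun k => by
    have := hb_mono m (show s ≤ m - 2 by omega)
    push_cast at this
    linarith
  have NN : ∀ z : ℤ, m ≤ z + 1 → 0 ≤ √|(C m).P m| * (C m).term m z := fun z hz => by
    by_cases k : (C m).Rg m z
    · obtain ⟨z1, z2, z3, z4, z5, z6, z7, z8⟩ := k
      rw [term]
      refine mul_nonneg (sqrt_nonneg _) ?_
      repeat' apply mul_nonneg
      all_goals exact ig_nonneg (by omega)
    · simp [term_zero _ _ k]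
  obtain ⟨s', rfl⟩ := Int.eq_ofNat_of_zero_le ((ad_le G).2.trans (rg_iff.1 r).1)
  have a1 := Finset.single_le_sum (s := (Finset.range (2 * m + 1)).filter fun z : ℕ => (m : ℤ) ≤ z + 1)
    (f := fun z : ℕ => √|(C m).P m| * (C m).term m z)
    (fun z hz => NN _ (Finset.mem_filter.1 hz).2) (a := s')
    (Finset.mem_filter.2 ⟨Finset.mem_range.2 (by have := r.2.2.2.2.2.2.2; omega), k6⟩)
  have a2 := sum_le (m := m) (Finset.filter_subset (fun z : ℕ => ¬ (m : ℤ) ≤ z + 1) _)
    (g := fun z : ℕ => √|(C m).P m| * (C m).term m z) (exp_pos ((v + ε / 5) / hb m)).le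
    fun z hz => by
      by_cases k : (C m).Rg m z
      · have k1 := hb_mono m (show (z : ℤ) ≤ m - 2 by have := (Finset.mem_filter.1 hz).2; omega)
        have := hv (hb m * ((z : ℤ) + 2)) (g1.le.trans (hb_mono m (rg_iff.1 k).1))
          (k1.trans (by push_cast; linarith))
        exact abs_le_exp (by linarith [abs_lt.1 (g z k).2])
      · simp [term_zero _ _ k, (exp_pos _).le]
  have a3 : exp ((U a b c d e f ξ - 2 * (ε / 5)) / hb m) ≤ √|(C m).P m| * (C m).term m s' := by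
    rw [← exp_log ((NN _ k6).lt_of_ne' (g _ r).1), exp_le_exp, div_le_iff₀ p]
    linarith [abs_lt.1 (g _ r).2]
  have a4 : exp ((U a b c d e f ξ - 2 * (ε / 5)) / hb m) =
      exp (ε / 5 / hb m) * exp ((U a b c d e f ξ - 3 * (ε / 5)) / hb m) := by
    rw [← exp_add]; congr 1; ring
  have a5 : exp ((v + ε / 5) / hb m) ≤ exp ((U a b c d e f ξ - 3 * (ε / 5)) / hb m) := by
    gcongr; linarith
  have a6 : exp ((U a b c d e f ξ - ε) / hb m) ≤ exp ((U a b c d e f ξ - 3 * (ε / 5)) / hb m) := by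
    gcongr; linarith
  have a7 := mul_le_mul_of_nonneg_right g8 (exp_pos ((U a b c d e f ξ - 3 * (ε / 5)) / hb m)).le
  have a8 := mul_le_mul_of_nonneg_left a5 (show (0 : ℝ) ≤ 2 * m + 1 by positivity)
  have a9 := mul_nonneg (show (0 : ℝ) ≤ m by positivity)
    (exp_pos ((U a b c d e f ξ - 3 * (ε / 5)) / hb m)).le
  rw [u_eq, ← Finset.sum_filter_add_sum_filter_not _ fun z : ℕ => (m : ℤ) ≤ z + 1]
  refine le_trans ?_ (le_abs_self _)
  linarith [abs_le.1 a2]

theorem Sm.ev {x y z : ℝ} (h : Sm x y z) {x' y' z' : ℕ → ℝ} (hx : Tendsto x' atTop (𝓝 x))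
    (hy : Tendsto y' atTop (𝓝 y)) (hz : Tendsto z' atTop (𝓝 z)) :
    ∀ᶠ m in atTop, Sm (x' m) (y' m) (z' m) :=
  (((hx.add hy).sub hz).eventually (gt_mem_nhds h.1)).and
    ((((hx.add hz).sub hy).eventually (gt_mem_nhds h.2.1)).and
      (((hy.add hz).sub hx).eventually (gt_mem_nhds h.2.2)))

theorem deg (L : Lim5 C b c d e f) (La : Tendsto (fun m => an m (C m).a) atTop (𝓝 a))
    (A : ∀ᶠ m in atTop, (C m).Ad m) (h : Small a b c d e f) (hp : π < lo a b c d e f)
    (hl : lo a b c d e f = hi a b c d e f) (hg : gd a b c d e f < 0) :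
    U a b c d e f (lo a b c d e f) = W a b c d e f := by
  have T := La.prodMk_nhds (L.b.prodMk_nhds (L.c.prodMk_nhds (L.d.prodMk_nhds (L.e.prodMk_nhds L.f))))
  have c0 : Continuous fun v : ℝ × ℝ × ℝ × ℝ × ℝ × ℝ =>
      gd v.1 v.2.1 v.2.2.1 v.2.2.2.1 v.2.2.2.2.1 v.2.2.2.2.2 := by
    unfold gd gdet; fun_prop
  have E : ∀ᶠ m in atTop, ∃ ξ ∈ Set.Icc (lo (an m (C m).a) (an m (C m).b) (an m (C m).c)
      (an m (C m).d) (an m (C m).e) (an m (C m).f)) (hi (an m (C m).a) (an m (C m).b) (an m (C m).c)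
      (an m (C m).d) (an m (C m).e) (an m (C m).f)), U (an m (C m).a) (an m (C m).b) (an m (C m).c)
      (an m (C m).d) (an m (C m).e) (an m (C m).f) ξ = W (an m (C m).a) (an m (C m).b)
      (an m (C m).c) (an m (C m).d) (an m (C m).e) (an m (C m).f) := by
    filter_upwards [A, h.t1.ev L.f L.b L.c, h.t2.ev L.f L.d L.e, h.t3.ev La L.b L.d,
      h.t4.ev La L.c L.e, (lim_lo' L La).eventually (lt_mem_nhds hp),
      ((c0.tendsto _).comp T).eventually (gt_mem_nhds hg)] with m g g1 g2 g3 g4 g5 g6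
    obtain ⟨ξ, k1, k2, -⟩ := max_open ⟨g1, g2, g3, g4⟩ g5.le
      (by rw [lo_an, hi_an]; linarith [hb_mono m (ad_le g).1, hb_pos m]) g6
    exact ⟨ξ, k1, k2⟩
  obtain ⟨ξ, hξ⟩ := E.choice
  have t1 : Tendsto ξ atTop (𝓝 (lo a b c d e f)) :=
    tendsto_of_tendsto_of_tendsto_of_le_of_le' (lim_lo' L La) (hl ▸ lim_hi' L La)
      (hξ.mono fun m g => g.1.1) (hξ.mono fun m g => g.1.2)
  have c2 : Continuous fun p : (ℝ × ℝ × ℝ × ℝ × ℝ × ℝ) × ℝ =>
      U p.1.1 p.1.2.1 p.1.2.2.1 p.1.2.2.2.1 p.1.2.2.2.2.1 p.1.2.2.2.2.2 p.2 := by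
    have := lob_cont
    unfold U dl; fun_prop
  have t5 := (c2.tendsto _).comp (T.prodMk_nhds t1)
  simp only [Function.comp_def] at t5
  exact tendsto_nhds_unique (t5.congr' (hξ.mono fun m g => g.2)) (W_lim hg La L.b L.c L.d L.e L.f)

/-- all terms of the sum are nonnegative -/
theorem hyper (L : Lim5 C b c d e f) (La : Tendsto (fun m => an m (C m).a) atTop (𝓝 a))
    (A : ∀ᶠ m in atTop, (C m).Ad m) (h : Small a b c d e f) (hp : π < lo a b c d e f)
    (hg : gd a b c d e f < 0) : Up C (W a b c d e f) ∧ Lw C (W a b c d e f) := by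
  obtain ⟨ξ, k1, k2, k3⟩ : ∃ ξ ∈ Set.Icc (lo a b c d e f) (hi a b c d e f),
      U a b c d e f ξ = W a b c d e f ∧
      ∀ t ∈ Set.Icc (lo a b c d e f) (hi a b c d e f), U a b c d e f t ≤ W a b c d e f := by
    rcases (lo_le_hi L La A).eq_or_lt with k | k
    · have := deg L La A h hp k hg
      exact ⟨_, ⟨le_rfl, k.le⟩, this, fun t ht => by
        rw [le_antisymm (k ▸ ht.2) ht.1, this]⟩
    · exact max_open h hp.le k hg
  exact ⟨up_seq L La A k3, k2 ▸ low_seq L La A h k1 (hp.trans_le k1.1) (half_pos (sub_pos.2 hp))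
    (sub_one_lt _) fun t p q => absurd q (by linarith)⟩

theorem of_lim (h : Tendsto (fun m => hb m * log ((C m).u m)) atTop (𝓝 V)) (V0 : V ≠ 0) :
    Up C V ∧ Lw C V := by
  refine ⟨fun ε hε => ?_, fun ε hε => ?_⟩
  · filter_upwards [h.eventually (gt_mem_nhds (lt_add_of_pos_right _ hε))] with m g
    exact abs_le_exp g.le
  · filter_upwards [h.eventually (lt_mem_nhds (sub_lt_self _ hε)), h.eventually_ne V0] with m g k
    have k0 : 0 < |(C m).u m| := abs_pos.2 fun j => by simp [j] at k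
    rw [← exp_log k0, exp_le_exp, div_le_iff₀ (hb_pos m), log_abs]
    linarith

theorem to_lim (h : Up C V) (h' : Lw C V) : (∀ᶠ m in atTop, 0 < |(C m).u m|) ∧
    Tendsto (fun m => hb m * log ((C m).u m)) atTop (𝓝 V) := by
  refine ⟨(h' 1 one_pos).mono fun m g => (exp_pos _).trans_le g, Metric.tendsto_nhds.2 fun ε hε => ?_⟩
  filter_upwards [h _ (half_pos hε), h' _ (half_pos hε)] with m k3 k1
  have k2 := (exp_pos _).trans_le k1
  rw [← exp_log k2, exp_le_exp, le_div_iff₀ (hb_pos m), log_abs] at k3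
  rw [← exp_log k2, exp_le_exp, div_le_iff₀ (hb_pos m), log_abs] at k1
  rw [dist_eq, abs_lt]
  constructor <;> linarith

end Pool.Agent.MP_b0afd3_gt.H50
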