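import Pool.Agent.MP_b0afd3_gt.H50.Par

set_option autoImplicit false

namespace Pool.Agent.MP_b0afd3_gt.H50

open Real Filter Topology Pool.Agent.MP_b0afd3_gt.H80 Matrix MeasureTheory

variable {k i j l : ℕ} {V : Finset (ℕ × ℕ × ℕ)} {T : Finset (ℕ × ℕ × ℕ × ℕ)} {n : ℕ → V4}
  {o : ℕ → ℕ → V4} {u : ℕ × ℕ × ℕ → V4} {x y : V4}

/-- the wedge at a vertex -/
def wd (n : ℕ → V4) (t : ℕ × ℕ × ℕ) (x : V4) : Prop :=
  mink (n t.1) x < 0 ∧ mink (n t.2.1) x < 0 ∧ mink (n t.2.2) x < 0

theorem Dec.ind (h : Dec n o u k V T) (hx : ∀ a < k, mink (n a) x ≠ 0) :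
    ind (∀ a < k, mink (n a) x < 0) = ∑ q ∈ T, (ind (∀ i, mink (Nq n q i) x < 0) -
      if q.2.2.2 = 3 then 0 else ind (wd n (q.1, q.2.1, q.2.2.1) x)) := by
  induction h with
  | base =>
    simp only [Finset.sum_singleton, if_true, sub_zero]
    congr 1
    simp only [Nat.forall_lt_succ_right]
    simp [Nq, Fin.forall_fin_succ, and_assoc]
  | step k V T i j l h g G p ih =>
    have s := h.blow.sort
    have s0 := s.2.1 _ _ _ g
    rw [Finset.sum_insert h.blow.notMem, ← ih fun a q => hx a (by omega),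
      if_neg (show k ≠ 3 by omega), Nat.forall_lt_succ_right]
    have e : (∀ r, mink (Nq n (i, j, l, k) r) x < 0) ↔ wd n (i, j, l) x ∧ mink (n k) x < 0 := by
      simp [Nq, wd, Fin.forall_fin_succ, and_assoc]
    rw [e]
    rcases (hx k (by omega)).lt_or_gt with q | q
    · simp [q]
    have : wd n (i, j, l) x ↔ ∀ a < k, mink (n a) x < 0 := by
      refine ⟨fun w a a0 => ?_, fun w => ⟨w i (by omega), w j (by omega), w l (by omega)⟩⟩
      by_cases c : a = i ∨ a = j ∨ a = l
      · rcases c with rfl | rfl | rfl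
        exacts [w.1, w.2.1, w.2.2]
      have P := h.pq_step g G p
      have r := P.pair (n a) x
      have r0 := mul_neg_of_pos_of_neg (div_pos_of_neg_of_neg w.1 (P.outer 0))
        ((G.vx _ _ _ nx1).lt a (by omega) (by omega) (by omega) (by omega))
      have r1 := mul_neg_of_pos_of_neg (div_pos_of_neg_of_neg w.2.1 (P.outer 1))
        ((G.vx _ _ _ nx2).lt a (by omega) (by omega) (by omega) (by omega))
      have r2 := mul_neg_of_pos_of_neg (div_pos_of_neg_of_neg w.2.2 (P.outer 2))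
        ((G.vx _ _ _ nx3).lt a (by omega) (by omega) (by omega) (by omega))
      have r3 := mul_neg_of_pos_of_neg (div_pos q p)
        ((h.geo.vx _ _ _ g).lt a a0 (by omega) (by omega) (by omega))
      simp only [Fin.sum_univ_four, cons_val, mk_neg, div_neg, neg_mul_neg] at r r0 r1 r2
      linarith
    simp [q.not_gt, this, ind_neg]

theorem Sx.hull {N U : Fin 4 → V4} (h : Sx N U) (hy : ∀ j, mink y (U j) ≤ 0)
    (hx : ∀ j, mink (N j) x ≤ 0) : mink y x ≤ 0 :=
  (h.pair y x).trans_le (Finset.sum_nonpos fun j _ => mul_nonpos_of_nonneg_of_nonpos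
    (div_nonneg_of_nonpos (hx j) (h.outer j).le) (hy j))

theorem Dec.hull (h : Dec n o u k V T) (hy : ∀ t ∈ V, mink y (u t) ≤ 0)
    (hx : ∀ a < k, mink (n a) x ≤ 0) : mink y x ≤ 0 := by
  induction h with
  | base h =>
    refine (pq_base h).hull (fun r => ?_) fun r => ?_
    · fin_cases r <;> exact hy _ (by simp)
    · fin_cases r <;> exact hx _ (by simp)
  | step k V T i j l h g G p ih =>
    have s0 := h.blow.sort.2.1 _ _ _ g
    rcases le_total (mink y (u (i, j, l))) 0 with q | q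
    · refine ih (fun t r => ?_) fun a r => hx a (by omega)
      by_cases c : t = (i, j, l)
      · exact c ▸ q
      · exact hy _ (mem_nx.2 (.inl ⟨c, r⟩))
    refine (h.pq_step g G p).hull (fun r => ?_) fun r => ?_
    · fin_cases r
      exacts [hy _ nx1, hy _ nx2, hy _ nx3, by simpa using q]
    · fin_cases r <;> exact hx _ (by omega)

theorem Dec.vol (h : Dec n o u k V T) (hT : ∀ q ∈ T, ∀ i, mink (Uq u q i) (Uq u q i) < 0)
    (hV : ∀ t ∈ V, 0 < u t 0) :
    ∑ q ∈ T, ap W (Nq n q) = (∫ x in {x | ∀ a < k, mink (n a) x < 0}, E x) / 2 := by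
  have P := fun q g => (h.pq q g).vol (hT q g)
  rw [Finset.sum_congr rfl fun q g => (P q g).2, ← Finset.sum_div,
    ← integral_finsetSum _ fun q g => (P q g).1, ← integral_indicator (meas_lt n _), ← ind_mul]
  congr 1
  refine integral_congr_ae ?_
  filter_upwards [ae_all_iff.2 fun a => ae_all_iff.2 fun g : a < k =>
    hyp_null ((h.geo.unit a g).trans_ne one_ne_zero)] with x hx
  have e := h.blow.tele fun t => H50.ind (u t 0 < 0 ∧ wd n t x)
  rw [Finset.sum_eq_zero (s := V) fun t g => ind_neg fun p => p.1.not_gt (hV t g)] at e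
  rw [(h.ind hx).trans (sub_eq_self.2 e).symm, ← Finset.sum_sub_distrib, Finset.sum_mul]
  refine Finset.sum_congr rfl fun ⟨i, j, l, m⟩ g => ?_
  have z : u (i, j, l) 0 ≠ 0 := fun z => by
    have := hT _ g 3
    simp only [Uq, cons_val, mink] at this
    split_ifs at this <;> simp only [Pi.neg_apply, z] at this <;> nlinarith
  simp only [fq, Fin.sum_univ_four, Uq, cons_val]
  have w0 : (∀ r, r ≠ 0 → mink (Nq n (i, j, l, m) r) x < 0) ↔ wd n (j, l, m) x := by
    simp [Nq, wd, Fin.forall_fin_succ]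
  have w1 : (∀ r, r ≠ 1 → mink (Nq n (i, j, l, m) r) x < 0) ↔ wd n (i, l, m) x := by
    simp [Nq, wd, Fin.forall_fin_succ]
  have w2 : (∀ r, r ≠ 2 → mink (Nq n (i, j, l, m) r) x < 0) ↔ wd n (i, j, m) x := by
    simp [Nq, wd, Fin.forall_fin_succ]
  have w3 : (∀ r, r ≠ 3 → mink (Nq n (i, j, l, m) r) x < 0) ↔ wd n (i, j, l) x := by
    simp [Nq, wd, Fin.forall_fin_succ]
  rw [w0, w1, w2, w3]
  congr 1
  split_ifs
  · ring
  rcases z.lt_or_gt with z | z
  · simp only [Pi.neg_apply, neg_lt_zero, z, z.not_gt, true_and, false_and, ind_neg not_false]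
    ring
  · simp only [Pi.neg_apply, neg_lt_zero, z, z.not_gt, true_and, false_and, ind_neg not_false]
    ring

theorem Dec.cone (h : Dec n o u k V T) (hV : ∀ t ∈ V, mink (u t) (u t) ≤ 0 ∧ 0 < u t 0)
    (hx : ∀ a < k, mink (n a) x ≤ 0) :
    (∀ y, Fut y → mink y x ≤ 0) ∧ 0 ≤ x 0 ∧ mink x x ≤ 0 := by
  have K : ∀ y, Fut y → mink y x ≤ 0 := fun y g =>
    h.hull (fun t p => (g.cone (hV t p).1 (hV t p).2).le) hx
  have k0 : 0 ≤ x 0 := by simpa [mink] using K ![1, 0, 0, 0] (by simp [Fut, mink])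
  refine ⟨K, k0, not_lt.1 fun g => ?_⟩
  have e0 : mink ![1, 0, 0, 0] x = -x 0 := by simp [mink]
  have e1 : mink ![1, 0, 0, 0] ![1, 0, 0, 0] = -1 := by simp [mink]
  have := K ((mink x x * (1 + mink x x)) • ![1, 0, 0, 0] + (x 0 * (1 + mink x x) + mink x x) • x)
    ⟨by simp only [Pi.add_apply, Pi.smul_apply, cons_val, smul_eq_mul]; positivity, by
      simp only [mk_add, add_mk, mk_smul, smul_mk, mk_comm x ![1, 0, 0, 0], e0, e1]
      generalize mink x x = q at g
      have : 0 < q * (x 0 * (1 + q)) ^ 2 + q ^ 2 * (1 + q + q ^ 2) := by positivity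
      linarith⟩
  simp only [add_mk, smul_mk, e0] at this
  nlinarith

end Pool.Agent.MP_b0afd3_gt.H50
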