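import Pool.Agent.MP_b0afd3_gt.H50.Cap

set_option autoImplicit false

namespace Pool.Agent.MP_b0afd3_gt.H50

open Real Filter Topology Pool.Agent.MP_b0afd3_gt.H80 Matrix MeasureTheory H14 Set

theorem mk_lift (q : Fin 3 → ℝ) : mink (lift q) (lift q) = sq3 q - 1 := by
  simp [mink, lift, sq3]; ring

theorem lift_cont : Continuous lift := by unfold lift; fun_prop

theorem cone_vol {C : Set V4} (m : MeasurableSet C) (f : ∀ x ∈ C, Fut x)
    (s : ∀ t : ℝ, 0 < t → ∀ x, t • x ∈ C ↔ x ∈ C) : (∫ x in C, E x) / 2 = hypVol (lift ⁻¹' C) := by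
  have mP := lift_cont.measurable m
  have mD : MeasurableSet {z : V4 | 0 < z 0 ∧ tl z ∈ lift ⁻¹' C} :=
    (measurableSet_lt measurable_const (measurable_pi_apply 0)).inter (measurable_tl mP)
  have e : C = phi '' {z : V4 | 0 < z 0 ∧ tl z ∈ lift ⁻¹' C} := by
    refine Subset.antisymm (fun x p => ?_) ?_
    · have x0 := (f x p).1
      have : phi ![x 0, x 1 / x 0, x 2 / x 0, x 3 / x 0] = x := by
        ext i; fin_cases i <;> simp [phi, mul_div_cancel₀ _ x0.ne']
      rw [← this] at p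
      exact ⟨![x 0, x 1 / x 0, x 2 / x 0, x 3 / x 0], ⟨x0, (s _ x0 _).1 (by
        rw [phi_eq] at p; exact p)⟩, this⟩
    · rintro _ ⟨z, p, rfl⟩
      exact phi_eq z ▸ (s _ p.1 _).2 p.2
  have inj : InjOn phi {z : V4 | 0 < z 0 ∧ tl z ∈ lift ⁻¹' C} := fun z _ w hw h1 => by
    have h0 : z 0 = w 0 := by simpa [phi] using congrFun h1 0
    have hz0 : w 0 ≠ 0 := hw.1.ne'
    ext i
    fin_cases i
    · exact h0
    · simpa [phi, h0, hz0] using congrFun h1 1
    · simpa [phi, h0, hz0] using congrFun h1 2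
    · simpa [phi, h0, hz0] using congrFun h1 3
  have key : ∫⁻ x in C, ENNReal.ofReal (E x) = ENNReal.ofReal (2 * 1) * ∫⁻ x in lift ⁻¹' C,
      ENNReal.ofReal (1 / (1 - (x 0 ^ 2 + x 1 ^ 2 + x 2 ^ 2)) ^ 2) := by
    conv_lhs => rw [e, lintegral_image_eq_lintegral_abs_det_fderiv_mul volume mD
      (fun z _ => (hasFDerivAt_phi z).hasFDerivWithinAt) inj]
    set g : ℝ × (Fin 3 → ℝ) → ENNReal := fun w => ENNReal.ofReal (1 *
      (w.1 ^ 3 * exp (-((1 - (w.2 0 ^ 2 + w.2 1 ^ 2 + w.2 2 ^ 2)) / 2) * w.1 ^ 2))) with hg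
    have hgm : Measurable g := by rw [hg]; fun_prop
    set F := MeasurableEquiv.piFinSuccAbove (fun _ : Fin 4 => ℝ) 0
    have hE1 : ∀ z, F z = (z 0, tl z) := fun z => rfl
    have hdom : {z : V4 | 0 < z 0 ∧ tl z ∈ lift ⁻¹' C} = F ⁻¹' (Ioi 0 ×ˢ (lift ⁻¹' C)) := by
      ext z; simp [hE1]
    rw [setLIntegral_congr_fun mD (g := fun z => g (F z)) fun z hz => ?_, hdom,
      (volume_preserving_piFinSuccAbove (fun _ : Fin 4 => ℝ) 0).setLIntegral_comp_preimage_emb
      F.measurableEmbedding, Measure.volume_eq_prod, ← Measure.prod_restrict,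
      lintegral_prod_symm' _ hgm, ← lintegral_const_mul _ (by fun_prop)]
    · refine setLIntegral_congr_fun mP fun q hq => ?_
      have := (f _ hq).2
      rw [mk_lift, sq3] at this
      exact radial (s := 1 - (q 0 ^ 2 + q 1 ^ 2 + q 2 ^ 2)) (by linarith) zero_le_one
    · have hz0 := hz.1
      simp only [hg, hE1, E, ContinuousLinearMap.det, LinearMap.coe_toContinuousLinearMap,
        LinearMap.det_toLin', det_dphi]
      rw [← ENNReal.ofReal_mul (abs_nonneg _), abs_of_pos (pow_pos hz0 3), one_mul]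
      congr 3
      simp [mink, phi, tl]
      ring
  rw [hypVol, integral_eq_lintegral_of_nonneg_ae (f := E) (.of_forall fun x => (exp_pos _).le)
      E_cont.aestronglyMeasurable, key, integral_eq_lintegral_of_nonneg_ae
      (.of_forall fun x => by positivity) (Measurable.aestronglyMeasurable (by fun_prop)),
    ENNReal.toReal_mul, ENNReal.toReal_ofReal (by positivity)]
  ring

variable {x y z o o' o'' p v : V4}

theorem edge_pt {a b : ℝ} (hx : 0 < x 0) (hy : 0 < y 0) (ha : 0 ≤ a) (hb : 0 ≤ b)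
    (h : mink (a • x + b • y) (a • x + b • y) < 0) (h1 : 0 < mink x x → mink y y < 0 → mink x y < 0)
    (h2 : 0 < mink y y → mink x x < 0 → mink y x < 0) :
    ∃ t > (0 : ℝ), Fut (x + t • y) ∧ mink x (x + t • y) < 0 ∧ mink y (x + t • y) < 0 := by
  simp only [mk_add, add_mk, mk_smul, smul_mk, mk_comm y x] at h h2
  have c : mink x y < 0 := by
    rcases lt_trichotomy (mink x x) 0 with p | p | p
    · exact (le_or_gt (mink y y) 0).elim (Fut.cone ⟨hx, p⟩ · hy) (h2 · p)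
    all_goals rcases lt_or_ge (mink y y) 0 with q | q
    · exact mk_comm _ _ ▸ Fut.cone ⟨hy, q⟩ p.le hx
    · by_contra! r
      rw [p] at h
      nlinarith [mul_nonneg (mul_nonneg ha hb) r, mul_nonneg (mul_self_nonneg b) q]
    · exact h1 p q
    · by_contra! r
      nlinarith [mul_nonneg (mul_nonneg ha hb) r, mul_nonneg (mul_self_nonneg b) q,
        mul_nonneg (mul_self_nonneg a) p.le]
  obtain ⟨t, t0, t1, t2⟩ : ∃ t > (0 : ℝ), mink x x + t * mink x y < 0 ∧
      mink x y + t * mink y y < 0 := by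
    generalize mink x x = P at *
    generalize mink y y = Q at *
    generalize mink x y = C at *
    have c' := neg_pos.2 c
    rcases le_or_gt Q 0 with q | q
    · refine ⟨(|P| + 1) / -C, by positivity, ?_, ?_⟩
      · rw [div_neg, neg_mul, div_mul_cancel₀ _ c.ne]; linarith [le_abs_self P]
      · linarith [mul_nonpos_of_nonneg_of_nonpos (show 0 ≤ (|P| + 1) / -C by positivity) q]
    rcases le_or_gt P 0 with p | p
    · refine ⟨-C / 2 / Q, by positivity, ?_, ?_⟩
      · linarith [mul_neg_of_pos_of_neg (show 0 < -C / 2 / Q by positivity) c]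
      · rw [div_mul_cancel₀ _ q.ne']; linarith
    have d : P * Q < C ^ 2 := by
      by_contra! d
      nlinarith [mul_neg_of_pos_of_neg p h, sq_nonneg (a * P + b * C),
        mul_nonneg (mul_self_nonneg b) (sub_nonneg.2 d)]
    have e : 0 < Q * (P + -C) := by positivity
    refine ⟨P * (Q + -C) / (Q * (P + -C)), by positivity, ?_, ?_⟩ <;>
      rw [div_mul_eq_mul_div, ← lt_neg_iff_add_neg', div_lt_iff₀ e] <;> nlinarith
  refine ⟨t, t0, ⟨add_pos hx (mul_pos t0 hy), ?_⟩, by simpa using t1, by simpa [mk_comm y x] using t2⟩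
  simp only [mk_add, add_mk, mk_smul, smul_mk, mk_comm y x]
  nlinarith

theorem Fut.addn (h : Fut x) (g : Fut y) {a : ℝ} (ha : 0 ≤ a) : Fut (x + a • y) := by
  rcases ha.eq_or_lt with rfl | a
  · simpa using h
  · exact h.add (g.smul a).2.le (g.smul a).1

theorem Vx.wedge (h : Vx x y z o o' o'') (hx : mink x v = 0) (hy : mink y v = 0) (hz : mink z v = 0)
    (hv : 0 < v 0) (h1 : mink x p ≤ 0) (h2 : mink y p ≤ 0) (h3 : mink z p ≤ 0)
    (h4 : mink x p < 0 ∨ mink y p < 0 ∨ mink z p < 0) : ∃ c : ℝ, Fut (p - c • v) := by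
  have e0 : ∀ x, mink ![1, 0, 0, 0] x = -x 0 := fun x => by simp [mink]
  have S : Sx ![x, y, z, ![1, 0, 0, 0]]
      ![o'' - (o'' 0 / v 0) • v, o' - (o' 0 / v 0) • v, o - (o 0 / v 0) • v, v] :=
    ⟨by simp [Fin.forall_fin_succ, hx, hy, hz, h.x1, h.y1, h.x2, h.z2, h.y3, h.z3, e0, hv.ne'],
      by simp [Fin.forall_fin_succ, hx, hy, hz, h.z1, h.y2, h.x3, e0, hv]⟩
  have e := S.exp p
  simp only [Fin.sum_univ_four, cons_val, mk_sub, mk_smul, hx, hy, hz, mul_zero, sub_zero] at e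
  have b1 := div_nonneg_of_nonpos h1 h.x3.le
  have b2 := div_nonneg_of_nonpos h2 h.y2.le
  have b3 := div_nonneg_of_nonpos h3 h.z1.le
  have c1 := fun q : mink x p < 0 => div_pos_of_neg_of_neg q h.x3
  have c2 := fun q : mink y p < 0 => div_pos_of_neg_of_neg q h.y2
  have c3 := fun q : mink z p < 0 => div_pos_of_neg_of_neg q h.z1
  generalize mink x p / _ = α, mink y p / _ = β, mink z p / _ = γ,
    mink ![1, 0, 0, 0] p / _ = δ at *
  refine ⟨δ - α * (o'' 0 / v 0) - β * (o' 0 / v 0) - γ * (o 0 / v 0), ?_⟩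
  rcases h4 with q | q | q
  · convert ((h.f3.smul (c1 q)).addn h.f2 b2).addn h.f1 b3 using 1; rw [e]; module
  · convert ((h.f2.smul (c2 q)).addn h.f3 b1).addn h.f1 b3 using 1; rw [e]; module
  · convert ((h.f1.smul (c3 q)).addn h.f2 b2).addn h.f3 b1 using 1; rw [e]; module

variable {k : ℕ} {V : Finset (ℕ × ℕ × ℕ)} {T : Finset (ℕ × ℕ × ℕ × ℕ)} {n : ℕ → V4}
  {P : ℕ × ℕ × ℕ → Fin 3 → ℝ}

theorem Poly.cp (h : Poly k V n P) (B : Blow k V T) : ∃ o, Cp n o (fun t => lift (P t)) k V := by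
  have s := B.sort.2.1
  have pr : ∀ a ∈ V, ∀ b ∈ V, 0 < mink (lift (P a)) (lift (P a)) →
      mink (lift (P b)) (lift (P b)) < 0 → mink (lift (P a)) (lift (P b)) < 0 := fun a p b q r w =>
    h.proper a p b q (by rwa [mk_lift, sub_pos] at r) (by rwa [mk_lift, sub_neg] at w)
  have lt : ∀ t ∈ V, ∀ a, Mem a t → a < k := fun ⟨i, j, l⟩ p a q => by
    have := s _ _ _ p; simp only [Mem] at q; omega
  have le : ∀ t ∈ V, ∀ a < k, mink (n a) (lift (P t)) ≤ 0 := fun t p a q =>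
    (em (Mem a t)).elim (fun w => (h.face t p a q w).le) fun w => (h.outer t p a q w).le
  have ex : ∀ a b, ∃ y, (∃ t ∈ V, a ≠ b ∧ Mem a t ∧ Mem b t) → Ed n k a b y ∧ ∃ s ∈ V, ∃ t ∈ V,
      ∃ c > (0 : ℝ), y = lift (P s) + c • lift (P t) ∧ mink (lift (P s)) y < 0 ∧
        mink (lift (P t)) y < 0 := fun a b => by
    by_cases g : ∃ t ∈ V, a ≠ b ∧ Mem a t ∧ Mem b t
    swap; · exact ⟨0, fun p => absurd p g⟩
    obtain ⟨t, t1, t2, t3, t4⟩ := g
    obtain ⟨r, r1, r2, r3, r4⟩ := B.two.2 t t1 a b t2 t3 t4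
    obtain ⟨_, ⟨α, β, a0, b0, e, rfl⟩, q⟩ := h.edge r r1 t t1 r2 ⟨a, b, t2, r3, r4, t3, t4⟩
    obtain ⟨c, c0, f, c1, c2⟩ := edge_pt (x := lift (P r)) (y := lift (P t)) one_pos one_pos a0 b0
      (by
        rw [show α • lift (P r) + β • lift (P t) = lift (α • P r + β • P t) by
          ext i; fin_cases i <;> simp [lift, e], mk_lift]
        linarith) (pr r r1 t t1) (pr t t1 r r1)
    refine ⟨_, fun _ => ⟨⟨f, by simp [h.face r r1 a (lt _ r1 a r3) r3, h.face t t1 a (lt _ r1 a r3) t3],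
      by simp [h.face r r1 b (lt _ r1 b r4) r4, h.face t t1 b (lt _ r1 b r4) t4],
      fun d d0 d1 d2 => ?_⟩, r, r1, t, t1, c, c0, rfl, c1, c2⟩⟩
    rw [mk_add, mk_smul]
    by_cases w : Mem d r
    · refine add_neg_of_nonpos_of_neg (le r r1 d d0) (mul_neg_of_pos_of_neg c0
        (h.outer t t1 d d0 fun w' => r2 ?_))
      obtain ⟨r0, r1', r2'⟩ := r
      obtain ⟨t0, t1', t2'⟩ := t
      have := s _ _ _ r1
      have := s _ _ _ t1
      simp only [Mem, Prod.mk.injEq] at *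
      omega
    · linarith [h.outer r r1 d d0 w, mul_nonpos_of_nonneg_of_nonpos c0.le (le t t1 d d0)]
  choose o ho using ex
  have ho' : ∀ i j l, (i, j, l) ∈ V → _ ∧ _ ∧ _ := fun i j l p =>
    have := s _ _ _ p
    ⟨ho j l ⟨_, p, by omega, .inr (.inl rfl), .inr (.inr rfl)⟩,
      ho i l ⟨_, p, by omega, .inl rfl, .inr (.inr rfl)⟩,
      ho i j ⟨_, p, by omega, .inl rfl, .inr (.inl rfl)⟩⟩
  have G : Geo n o (fun t => lift (P t)) k V := ⟨h.unit, fun i j l p =>
    have := s _ _ _ p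
    ⟨h.face _ p i (by omega) (.inl rfl), h.face _ p j (by omega) (.inr (.inl rfl)),
      h.face _ p l (by omega) (.inr (.inr rfl)), fun c c0 c1 c2 c3 => h.outer _ p c c0 (by
        simp only [Mem]; omega)⟩,
    fun i j l p => ⟨(ho' i j l p).1.1, (ho' i j l p).2.1.1, (ho' i j l p).2.2.1⟩⟩
  have wg : ∀ a ∈ V, ∀ b ∈ V, b ≠ a → ∃ c : ℝ, Fut (lift (P b) - c • lift (P a)) := by
    rintro ⟨i, j, l⟩ p ⟨a, b, d⟩ q w
    have := s _ _ _ p
    have v := G.vx _ _ _ p
    refine (G.vx3 p this).wedge v.z1 v.z2 v.z3 one_pos (le _ q i (by omega)) (le _ q j (by omega))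
      (le _ q l (by omega)) ?_
    have := s _ _ _ q
    by_cases c1 : Mem i (a, b, d)
    swap; · exact .inl (h.outer _ q i (by omega) c1)
    by_cases c2 : Mem j (a, b, d)
    swap; · exact .inr (.inl (h.outer _ q j (by omega) c2))
    refine .inr (.inr (h.outer _ q l (by omega) ?_))
    simp only [Mem, ne_eq, Prod.mk.injEq] at *
    omega
  have pv : ∀ a ∈ V, 0 < mink (lift (P a)) (lift (P a)) → ∀ b ∈ V, b ≠ a →
      mink (lift (P a)) (lift (P b)) < 0 := fun a p r b q w => by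
    refine (lt_or_ge _ 0).elim (pr a p b q r) fun r' => ?_
    obtain ⟨c, f⟩ := wg a p b q w
    obtain ⟨d, f'⟩ := wg b q a p w.symm
    have f1 := f.2
    have f2 := f'.2
    generalize lift (P a) = x, lift (P b) = y at *
    simp only [mk_sub, sub_mk, mk_smul, smul_mk, mk_comm y x] at f1 f2
    by_contra! z
    have c0 : 0 < c := by
      by_contra! c0
      nlinarith [mul_nonneg (neg_nonneg.2 c0) z, mul_nonneg (mul_self_nonneg c) r.le]
    have := (f.addn f' c0.le).2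
    rw [show y - c • x + c • (x - d • y) = (1 - c * d) • y by module, mk_smul, smul_mk] at this
    nlinarith [mul_nonneg (mul_self_nonneg (1 - c * d)) r']
  refine ⟨o, G, fun _ _ _ => one_pos, pv, fun a p r i j l q => ?_⟩
  have : ∀ y, (∃ s ∈ V, ∃ t ∈ V, ∃ c > (0 : ℝ), y = lift (P s) + c • lift (P t) ∧
      mink (lift (P s)) y < 0 ∧ mink (lift (P t)) y < 0) → mink (lift (P a)) y < 0 := by
    rintro y ⟨s, s1, t, t1, c, c0, e, e1, e2⟩
    by_cases w : s = a
    · exact w ▸ e1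
    by_cases w' : t = a
    · exact w' ▸ e2
    rw [e, mk_add, mk_smul]
    linarith [pv a p r s s1 w, mul_neg_of_pos_of_neg c0 (pv a p r t t1 w')]
  exact ⟨this _ (ho' i j l q).1.2, this _ (ho' i j l q).2.1.2, this _ (ho' i j l q).2.2.2⟩

theorem plane_ae {w : V4} (h : 0 < mink w w) : ∀ᵐ x, mink w (lift x) ≠ 0 := by
  have := measure_eq_zero_iff_ae_notMem.1 (H79.plane_null (w := (√(mink w w))⁻¹ • w) (by
    rw [mk_smul, smul_mk, ← mul_assoc, ← mul_inv, mul_self_sqrt h.le, inv_mul_cancel₀ h.ne']))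
  exact this.mono fun x p q => p (by simp [q])

theorem main (B : Blow k V T) (h : Poly k V n P) {c : ℕ → Sym2 ℕ → ℕ}
    (H : ∀ i j l, (i, j, l) ∈ V → H79.At n c i j l) :
    H79.Lim (fun m => brk T (2 * m + 1) (c m)) (hypVol (cut k V n P)) := by
  obtain ⟨o, g⟩ := h.cp B
  obtain ⟨u', -, d⟩ := B.dec _ g.toGeo
  obtain ⟨f, e⟩ := caps _ _ _ _ _ _ _ B g rfl
  have := d.lim H
  rw [e, cone_vol (C := tc _ _ _ _) ((meas_lt n _).inter (meas_lt (fun t => lift (P t)) _)) f fun t p x => by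
    simp only [tc, mem_ofPred_eq, mk_smul, ← neg_pos (a := t * _), ← mul_neg,
      mul_pos_iff_of_pos_left p, neg_pos]] at this
  convert this using 1
  refine setIntegral_congr_set ?_
  filter_upwards [ae_all_iff.2 fun a => ae_all_iff.2 fun g : a < k =>
    plane_ae (one_pos.trans_eq (h.unit a g).symm), ae_all_iff.2 fun s => ae_all_iff.2
    fun g : 0 < mink (lift (P s)) (lift (P s)) => plane_ae g] with x p q
  refine propext ⟨fun w => ⟨fun a r => (w.2.1 a r).lt_of_ne (p a r), fun s r =>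
    (w.2.2 s r.1 (by simpa [mk_lift] using r.2)).lt_of_ne (q s r.2)⟩, fun w =>
    ⟨by simpa [mk_lift] using (f _ w).2, fun a r => (w.1 a r).le, fun s r r' =>
      (w.2 s ⟨r, by simpa [mk_lift] using r'⟩).le⟩⟩

end Pool.Agent.MP_b0afd3_gt.H50
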