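import Pool.Agent.MP_b0afd3_gt.H50.Seq

set_option autoImplicit false

namespace Pool.Agent.MP_b0afd3_gt.H50

open Real Filter Topology Pool.Agent.MP_b0afd3_gt.H80 Col

theorem sgn_step {x y p q : ℝ} (h : x * p = y * q) :
    ∃ s : ℝ, |s| = √|q * p| ∧ q * √|y| = s * √|x| := by
  have k : √|x| * √|p| = √|y| * √|q| := by
    rw [← sqrt_mul (abs_nonneg _), ← sqrt_mul (abs_nonneg _), ← abs_mul, h, abs_mul]
  have k1 := mul_self_sqrt (abs_nonneg q)
  have k2 : √|q * p| = √|q| * √|p| := by rw [abs_mul, sqrt_mul (abs_nonneg _)]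
  rcases abs_cases q with j | j
  · exact ⟨√|q * p|, abs_of_nonneg (sqrt_nonneg _), by
      rw [k2]; linear_combination -√|q| * k - √|y| * k1 - √|y| * j.1⟩
  · exact ⟨-√|q * p|, by rw [abs_neg, abs_of_nonneg (sqrt_nonneg _)], by
      rw [k2]; linear_combination √|q| * k + √|y| * k1 + √|y| * j.1⟩

noncomputable def alA (b c d e x t : ℝ) : ℝ :=
  |sin (x - t)| * √|cA b c d e (x + t) * cC b c d e (x + t)|

/-- weak vertex condition with a margin -/
def Wk (h x y z : ℝ) : Prop :=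
  (x + 5 * h < y + z ∧ y + 5 * h < x + z ∧ z + 5 * h < x + y) ∧
    x + 5 * h < π ∧ y + 5 * h < π ∧ z + 5 * h < π

theorem Wk.int {m : ℕ} {x y z : ℤ} (h : Wk (hb m) (an m x) (an m y) (an m z)) :
    (x + 3 < y + z ∧ y + 3 < x + z ∧ z + 3 < x + y) ∧ x + 5 < m ∧ y + 5 < m ∧ z + 5 < m := by
  obtain ⟨⟨h1, h2, h3⟩, h4, h5, h6⟩ := h
  have q := hb_mul m
  simp only [an] at *
  have p := hb_pos m
  refine ⟨⟨?_, ?_, ?_⟩, ?_, ?_, ?_⟩ <;> rw [← @Int.cast_lt ℝ] <;> push_cast <;>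
    refine lt_of_mul_lt_mul_left ?_ p.le <;> linarith

theorem Wk.ev {X : Type} {l : Filter X} {x y z : ℝ} (h : Wk 0 x y z) {x' y' z' k : X → ℝ}
    (hx : Tendsto x' l (𝓝 x)) (hy : Tendsto y' l (𝓝 y)) (hz : Tendsto z' l (𝓝 z))
    (hk : Tendsto k l (𝓝 0)) : ∀ᶠ p in l, Wk (k p) (x' p) (y' p) (z' p) :=
  (((hx.add (hk.const_mul 5)).eventually_lt (hy.add hz) h.1.1).and
    (((hy.add (hk.const_mul 5)).eventually_lt (hx.add hz) h.1.2.1).and
    ((hz.add (hk.const_mul 5)).eventually_lt (hx.add hy) h.1.2.2))).and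
    (((hx.add (hk.const_mul 5)).eventually (gt_mem_nhds h.2.1)).and
    (((hy.add (hk.const_mul 5)).eventually (gt_mem_nhds h.2.2.1)).and
    ((hz.add (hk.const_mul 5)).eventually (gt_mem_nhds h.2.2.2))))

structure Wk4 (h a b c d e f : ℝ) : Prop where
  t1 : Wk h f b c
  t2 : Wk h f d e
  t3 : Wk h a b d
  t4 : Wk h a c e

theorem step_abs {D : Col} {m : ℕ}
    (G : Wk4 (hb m) (an m D.a) (an m D.b) (an m D.c) (an m D.d) (an m D.e) (an m D.f)) :
    D.Ad m ∧ (alA (an m D.b) (an m D.c) (an m D.d) (an m D.e) (an m D.a) (-hb m) +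
      alA (an m D.b) (an m D.c) (an m D.d) (an m D.e) (an m D.a) (hb m) <
      |cB (an m D.b) (an m D.c) (an m D.d) (an m D.e) (an m D.a - hb m) (an m D.a + hb m)
        (an m D.f + hb m)| → |(D.sh 1).u m| ≤ |D.u m| → |D.u m| ≤ |(D.sh (-1)).u m|) := by
  have i1 := G.t1.int
  have i2 := G.t2.int
  have i3 := G.t3.int
  have i4 := G.t4.int
  have j1 := D.t1
  have j2 := D.t2
  have j3 := D.t3
  have j4 := D.t4
  have j5 := D.q1
  have j6 := D.q2
  have j7 := D.q3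
  refine ⟨by unfold Ad; omega, fun H => ?_⟩
  have e1 : an m D.a - hb m = hb m * D.a := by rw [an]; ring
  have e2 : an m D.a + hb m = hb m * (D.a + 2) := by rw [an]; ring
  have e3 : an m D.f + hb m = hb m * (D.f + 2) := by rw [an]; ring
  simp only [alA, sub_neg_eq_add, ← sub_eq_add_neg, e1, e2, e3] at H
  have k1 := D.P_step m (by constructor <;> omega)
  have k2 := (D.sh (-1)).P_step m (by constructor <;> simp only [sh] <;> omega)
  have k3 := D.S_rec m (by omega) (by omega) (by omega) (by omega) (by omega) (by omega) (by omega)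
  have e : (D.sh (-1)).sh 1 = D := by rw [sh_sh]; simp [sh]
  have e' : (((D.sh (-1)).a : ℝ) + 2) = D.a := by simp [sh]
  rw [e, e'] at k2
  obtain ⟨s, s1, s2⟩ := sgn_step k1
  obtain ⟨t, t1, t2⟩ := sgn_step (p := cA (an m D.b) (an m D.c) (an m D.d) (an m D.e) (hb m * D.a))
    (q := cC (an m D.b) (an m D.c) (an m D.d) (an m D.e) (hb m * D.a)) k2.symm
  rw [← s1, mul_comm (cA _ _ _ _ _), ← t1, ← abs_mul, ← abs_mul] at H
  refine H79.dom_step ?_ H
  simp only [u]
  linear_combination √|D.P m| * k3 - sin (hb m * D.a) * (D.sh 1).S m * s2 -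
    sin (hb m * (D.a + 2)) * (D.sh (-1)).S m * t2

theorem desc {v : ℕ → ℝ} {N M : ℕ} (h : N ≤ M)
    (hs : ∀ k, k + 1 < M → v (k + 2) ≤ v (k + 1) → v (k + 1) ≤ v k) (hv : v M < v N) :
    v N ≤ v 0 := by
  obtain ⟨k, k1, k2, k3⟩ : ∃ k, N ≤ k ∧ k < M ∧ v (k + 1) ≤ v k := by
    by_contra! g
    have : ∀ k, N ≤ k → k ≤ M → v N ≤ v k := fun k hk => by
      induction k, hk using Nat.le_induction with
      | base => exact fun _ => le_rfl
      | succ k hk ih => exact fun j => (ih (by omega)).trans (g k hk (by omega)).le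
    exact hv.not_ge (this M h le_rfl)
  have A : ∀ i j, j + i = k → v (j + 1) ≤ v j := fun i => by
    induction i with
    | zero => rintro j rfl; exact k3
    | succ i ih => exact fun j hj => hs j (by omega) (ih (j + 1) (by omega))
  have B : ∀ j ≤ k, v j ≤ v 0 := fun j => by
    induction j with
    | zero => exact fun _ => le_rfl
    | succ j ih => exact fun hj => (A (k - j) j (by omega)).trans (ih (by omega))
  exact B N k1

variable {C : ℕ → Col} {a b c d e f ξ x y z : ℝ}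

theorem Wk.sm (h : Wk 0 x y z) : Sm x y z := by
  obtain ⟨⟨h1, h2, h3⟩, h4, h5, h6⟩ := h
  exact ⟨by linarith, by linarith, by linarith⟩

theorem Wk4.small (h : Wk4 0 a b c d e f) : Small a b c d e f :=
  ⟨h.t1.sm, h.t2.sm, h.t3.sm, h.t4.sm⟩

theorem Wk.vtx_neg (h : Wk 0 x y z) (g : 2 * π < x + y + z) : vtx (cos x) (cos y) (cos z) < 0 := by
  obtain ⟨⟨h1, h2, h3⟩, h4, h5, h6⟩ := h
  have P := @sin_pos_of_pos_of_lt_pi
  have := P (x := (x + y + z) / 2 - π) (by linarith) (by linarith)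
  rw [sin_sub_pi] at this
  have := mul_pos (mul_pos (mul_pos this (P (x := (y + z - x) / 2) (by linarith) (by linarith)))
    (P (x := (x + z - y) / 2) (by linarith) (by linarith)))
    (P (x := (x + y - z) / 2) (by linarith) (by linarith))
  rw [vtx_sin]; linarith

theorem Wk4.ev (h : Wk4 0 a b c d e f) : ∀ᶠ x in 𝓝 a, Wk4 0 x b c d e f := by
  have t := fun y : ℝ => tendsto_const_nhds (x := y) (f := 𝓝 a)
  filter_upwards [h.t3.ev tendsto_id (t _) (t _) (t _), h.t4.ev tendsto_id (t _) (t _) (t _)]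
    with x h1 h2 using ⟨h.t1, h.t2, h1, h2⟩

theorem Wk4.ad (h : Wk4 0 a b c d e f) (L : Lim5 C b c d e f)
    (La : Tendsto (fun m => an m (C m).a) atTop (𝓝 a)) : ∀ᶠ m in atTop, (C m).Ad m := by
  filter_upwards [h.t1.ev L.f L.b L.c hb_tendsto, h.t2.ev L.f L.d L.e hb_tendsto,
    h.t3.ev La L.b L.d hb_tendsto, h.t4.ev La L.c L.e hb_tendsto] with m h1 h2 h3 h4
  exact (step_abs ⟨h1, h2, h3, h4⟩).1

theorem hl_neg {p q w : ℝ} (h : p * q = w) (h0 : w ≠ 0) (h1 : |w| < q ^ 2) :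
    (log p - log w / 2) / 2 < 0 := by
  have k : p ^ 2 < |w| := by
    refine lt_of_mul_lt_mul_right (a := q ^ 2) ?_ (sq_nonneg _)
    rw [← mul_pow, h, ← sq_abs w, sq]
    exact mul_lt_mul_of_pos_left h1 (abs_pos.2 h0)
  have := log_lt_log (sq_pos_of_ne_zero (left_ne_zero_of_mul (h ▸ h0))) k
  rw [log_pow, log_abs] at this
  push_cast at this
  linarith

theorem W_dec (h : Wk4 0 a b c d e f) (h3 : a + b + d = 2 * π) (hg : gd a b c d e f < 0)
    (hc : cof (cos a) (cos b) (cos c) (cos d) (cos e) (cos f) < 0)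
    (v1 : vtx (cos f) (cos b) (cos c) ≠ 0) (v2 : vtx (cos f) (cos d) (cos e) ≠ 0)
    (v4 : vtx (cos a) (cos c) (cos e) ≠ 0) : ∀ᶠ x in 𝓝[>] a,
      NI x b c d e f ∧ gd x b c d e f < 0 ∧ hl x b c d e f < 0 := by
  have c1 : ContinuousAt (fun x => gd x b c d e f) a := by unfold gd gdet; fun_prop
  have c2 : ContinuousAt (fun x => vtx (cos x) (cos c) (cos e)) a := by unfold vtx; fun_prop
  have c3 : ContinuousAt (fun x => |vtx (cos x) (cos b) (cos d) * vtx (cos x) (cos c) (cos e)|) a := by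
    unfold vtx; fun_prop
  have c4 : ContinuousAt (fun x => (cof (cos x) (cos b) (cos c) (cos d) (cos e) (cos f) -
      sin x * √(-gd x b c d e f)) ^ 2) a := by unfold cof gd gdet; fun_prop
  have s := sin_pos_of_pos_of_lt_pi (x := a) (by linarith [h.t3.1.2.1, h.t3.1.2.2])
    (by linarith [h.t3.2.1])
  filter_upwards [nhdsWithin_le_nhds h.ev, nhdsWithin_le_nhds (c1.eventually (gt_mem_nhds hg)),
    nhdsWithin_le_nhds (c2.eventually_ne v4), self_mem_nhdsWithin,
    nhdsWithin_le_nhds (c3.eventually_lt c4 (by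
      simp only [vtx_sin a b d, h3, mul_div_cancel_left₀ _ (two_ne_zero (α := ℝ)), sin_pi, zero_mul,
        mul_zero, abs_zero]
      exact sq_pos_of_neg (by linarith [mul_nonneg s.le (sqrt_nonneg (-gd a b c d e f))])))]
    with x g1 g2 g3 g4 g5
  have v3 := (g1.t3.vtx_neg (by linarith [show a < x from g4])).ne
  refine ⟨⟨v1, v2, v3, g3⟩, g2, hl_neg ?_ (mul_ne_zero v3 g3) g5⟩
  have k := cof_sq (cos x) (cos b) (cos c) (cos d) (cos e) (cos f)
  have k1 := mul_self_sqrt (neg_pos.2 g2).le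
  rw [← sin_sq] at k
  rw [gd] at k1 ⊢
  linear_combination k - sin x ^ 2 * k1

theorem past (L : Lim5 C b c d e f) (La : Tendsto (fun m => an m (C m).a) atTop (𝓝 a))
    (h : Wk4 0 a b c d e f) (h3 : a + b + d = 2 * π) (hg : gd a b c d e f < 0)
    (hc : cof (cos a) (cos b) (cos c) (cos d) (cos e) (cos f) < 0)
    (v1 : vtx (cos f) (cos b) (cos c) ≠ 0) (v2 : vtx (cos f) (cos d) (cos e) ≠ 0)
    (v4 : vtx (cos a) (cos c) (cos e) ≠ 0) : Lw C (W a b c d e f) := by
  intro ε hε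
  have s := sin_pos_of_pos_of_lt_pi (x := a) (by linarith [h.t3.1.2.1, h.t3.1.2.2])
    (by linarith [h.t3.2.1])
  have c1 : ∀ s : ℝ, Tendsto (fun z : (Fin 6 → ℝ) × ℝ =>
      alA (z.1 0) (z.1 1) (z.1 2) (z.1 3) z.2 (s * z.1 5))
      (𝓝 (![b, c, d, e, f, 0], a)) (𝓝 0) := fun s =>
    Continuous.tendsto' (by unfold alA cA cC; fun_prop) _ _ (by
      simp [alA, cA_cC, vtx_sin a b d, h3])
  have c3 : Tendsto (fun z : (Fin 6 → ℝ) × ℝ => cB (z.1 0) (z.1 1) (z.1 2) (z.1 3) (z.2 - z.1 5)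
      (z.2 + z.1 5) (z.1 4 + z.1 5)) (𝓝 (![b, c, d, e, f, 0], a)) (𝓝 (cB b c d e a a f)) :=
    Continuous.tendsto' (by unfold cB; fun_prop) _ _ (by simp)
  have e1 : cB b c d e a a f =
      -(2 * sin a * cof (cos a) (cos b) (cos c) (cos d) (cos e) (cos f)) := by
    simp only [cB, cof, sin_add, sin_sub]
    have := sin_sq_add_cos_sq a
    grind
  have t : ∀ i, Tendsto (fun z : (Fin 6 → ℝ) × ℝ => z.1 i) (𝓝 (![b, c, d, e, f, 0], a))
      (𝓝 (![b, c, d, e, f, 0] i)) := fun i => ((continuous_apply i).comp continuous_fst).tendsto _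
  have t' : Tendsto (fun z : (Fin 6 → ℝ) × ℝ => z.2) (𝓝 (![b, c, d, e, f, 0], a)) (𝓝 a) :=
    continuous_snd.tendsto _
  have c4 := (((c1 (-1)).add (c1 1)).eventually_lt c3.abs (by
    rw [add_zero, e1]; exact abs_pos.2 (by nlinarith))).and
    ((h.t3.ev t' (t 0) (t 2) (t 5)).and (h.t4.ev t' (t 1) (t 3) (t 5)))
  rw [nhds_prod_eq] at c4
  obtain ⟨pa, ha, pb, hb', H⟩ := Filter.eventually_prod_iff.1 c4
  obtain ⟨l, r, ⟨l0, r0⟩, hlr⟩ := mem_nhds_iff_exists_Ioo_subset.1 hb'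
  have k := fun y : ℝ => tendsto_const_nhds (x := y) (f := 𝓝 a)
  obtain ⟨r', r1, hr⟩ := mem_nhdsGT_iff_exists_Ioo_subset.1 ((W_dec h h3 hg hc v1 v2 v4).and
    ((h.ev.filter_mono nhdsWithin_le_nhds).and
    ((((W_lim hg tendsto_id (k _) (k _) (k _) (k _) (k _)).eventually
      (lt_mem_nhds (sub_lt_self _ (half_pos hε)))).filter_mono nhdsWithin_le_nhds).and
      (Ioo_mem_nhdsGT r0))))
  obtain ⟨x2, p1, p2⟩ := exists_between (show a < r' from r1)
  obtain ⟨x1, p3, p4⟩ := exists_between p1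
  obtain ⟨y, hy, e2⟩ := exists_hasDerivAt_eq_slope (fun s => W s b c d e f) _ p4
    (fun x hx => have g := hr ⟨p3.trans_le hx.1, hx.2.trans_lt p2⟩
      (W_a g.1.1 g.1.2.1).continuousAt.continuousWithinAt)
    fun x hx => have g := hr ⟨p3.trans hx.1, hx.2.trans p2⟩; W_a g.1.1 g.1.2.1
  have lt : W x2 b c d e f < W x1 b c d e f := by
    have := (hr ⟨p3.trans hy.1, hy.2.trans p2⟩).1.2.2
    rw [e2, div_lt_iff₀ (sub_pos.2 p4)] at this
    linarith
  obtain ⟨q1, q2, q3, q4⟩ := hr ⟨p3, p4.trans p2⟩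
  obtain ⟨q5, q6, -, q8⟩ := hr ⟨p1, p2⟩
  obtain ⟨n1, hn1⟩ := exists_sh C x1
  obtain ⟨n2, hn2⟩ := exists_sh C x2
  have lo1 : ∀ x, a < x → π < lo x b c d e f := fun x hx =>
    lt_max_of_lt_right (lt_max_of_lt_left (by linarith))
  have T : Tendsto (fun m => ![an m (C m).b, an m (C m).c, an m (C m).d, an m (C m).e, an m (C m).f,
      hb m]) atTop (𝓝 ![b, c, d, e, f, 0]) := by
    rw [tendsto_pi_nhds]
    intro i
    fin_cases i
    exacts [L.b, L.c, L.d, L.e, L.f, hb_tendsto]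
  have η0 : 0 < min (ε / 2) ((W x1 b c d e f - W x2 b c d e f) / 3) :=
    lt_min (half_pos hε) (by linarith)
  filter_upwards [T.eventually ha, h.t1.ev L.f L.b L.c hb_tendsto, h.t2.ev L.f L.d L.e hb_tendsto,
    (hyper (L.sh n1) hn1 (q2.ad (L.sh n1) hn1) q2.small (lo1 _ p3) q1.2.1).2 _ η0,
    (hyper (L.sh n2) hn2 (q6.ad (L.sh n2) hn2) q6.small (lo1 _ p1) q5.2.1).1 _ η0,
    La.eventually (lt_mem_nhds l0), hn2.eventually (gt_mem_nhds q8.2), La.eventually_lt hn1 p3,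
    hn1.eventually_lt hn2 p4] with m g1 g2 g3 g4 g5 g6 g7 g8 g9
  generalize C m = Y at *
  have p := hb_pos m
  simp only [an_sh] at g7 g8 g9
  obtain ⟨N, hN⟩ := Int.eq_ofNat_of_zero_le (show 0 ≤ n1 m by
    rw [← @Int.cast_nonneg_iff ℝ]; nlinarith)
  obtain ⟨M, hM⟩ := Int.eq_ofNat_of_zero_le (show 0 ≤ n2 m by
    rw [← @Int.cast_nonneg_iff ℝ]; nlinarith)
  rw [hN] at g4 g9
  rw [hM] at g5 g7 g9
  have := desc (v := fun j : ℕ => |(Y.sh j).u m|) (N := N) (M := M) (by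
    rw [← @Nat.cast_le ℝ]; push_cast at g9; nlinarith) (fun j hj => by
      have j1 : (j : ℝ) + 1 ≤ M := by exact_mod_cast hj.le
      obtain ⟨i1, i2, i3⟩ := H g1 (hlr (show an m (Y.sh (j + 1)).a ∈ Set.Ioo l r by
        rw [an_sh]; push_cast at g7 ⊢
        exact ⟨by linarith [show 0 ≤ 2 * hb m * (j + 1) by positivity], by nlinarith⟩))
      simp only [Matrix.cons_val, one_mul, neg_mul] at i1 i2 i3
      have := (step_abs (D := Y.sh (j + 1)) ⟨g2, g3, i2, i3⟩).2 i1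
      simpa [sh_sh, add_assoc, one_add_one_eq_two] using this)
    (g5.trans_lt (lt_of_lt_of_le (by
      gcongr; linarith [min_le_right (ε / 2) ((W x1 b c d e f - W x2 b c d e f) / 3)]) g4))
  have e0 : Y.sh (0 : ℕ) = Y := by simp [sh]
  simp only [e0] at this
  refine le_trans (le_trans (exp_le_exp.2 (div_le_div_of_nonneg_right ?_ p.le)) g4) this
  simp only [id] at q3
  linarith [min_le_left (ε / 2) ((W x1 b c d e f - W x2 b c d e f) / 3)]

theorem Dd_sq (h0 : sY a b c d e f ξ = sX a b c d e f ξ) :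
    Dd a b c d e f ξ ^ 2 = -gd a b c d e f := by
  have h1 := normal a b c d e f ξ
  have h2 := sin_sq_add_cos_sq (2 * ξ - (b + c + d + e) / 2)
  rw [h0, sub_self, mul_zero] at h1
  rw [← disc, Dd, show e0 a b c d e f = e1 a b c d e f * cos (2 * ξ - (b + c + d + e) / 2) +
    e2 a b c d e f * sin (2 * ξ - (b + c + d + e) / 2) by linarith]
  linear_combination (e1 a b c d e f ^ 2 + e2 a b c d e f ^ 2) * h2

/-- an ideal vertex and no hyperideal vertex -/
theorem ideal (L : Lim5 C b c d e f) (La : Tendsto (fun m => an m (C m).a) atTop (𝓝 a))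
    (h : Wk4 0 a b c d e f) (h3 : a + b + d = 2 * π) (hp : lo a b c d e f = π)
    (hg : gd a b c d e f < 0) (hc : 0 < cof (cos a) (cos b) (cos c) (cos d) (cos e) (cos f) ∨
      vtx (cos f) (cos b) (cos c) ≠ 0 ∧ vtx (cos f) (cos d) (cos e) ≠ 0 ∧
        vtx (cos a) (cos c) (cos e) ≠ 0) : Up C (W a b c d e f) ∧ Lw C (W a b c d e f) := by
  have A := h.ad L La
  obtain ⟨⟨⟨k1, k2, k3⟩, k4, k5, k6⟩, ⟨⟨k7, k8, k9⟩, -, k11, k12⟩, -, ⟨k13, k14, k15⟩, k16, -⟩ := id h
  have lh : lo a b c d e f < hi a b c d e f := by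
    rw [hp, hi]
    exact lt_min (lt_min (by linarith) (by linarith)) (lt_min (by linarith) (by linarith [pi_pos]))
  obtain ⟨ξ, m1, m2, m3⟩ := max_open h.small hp.ge lh hg
  refine ⟨up_seq L La A m3, ?_⟩
  have x3 : sin (π - (a + b + d) / 2) = 0 := by simp [h3]
  have h0 : sY a b c d e f π = sX a b c d e f π := by rw [sX, x3]; simp [sY]
  rcases lt_trichotomy (Dd a b c d e f π) 0 with k | k | k
  · have j := (K1 h0).1
    have P := @sin_pos_of_pos_of_lt_pi
    rw [x3, zero_mul, mul_zero, eq_comm, mul_eq_zero, sub_eq_zero] at j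
    have j1 := j.resolve_right (mul_pos (P (by linarith) (by linarith))
      (P (by linarith) (by linarith))).ne'
    have j2 := mul_neg_of_pos_of_neg (P (x := a) (by linarith) (by linarith)) k
    obtain ⟨v1, v2, v4⟩ := hc.resolve_left (by linarith)
    exact past L La h h3 hg (by linarith) v1 v2 v4
  · have := Dd_sq h0
    rw [k] at this
    linarith
  · obtain ⟨y, y1, y2⟩ := right_lt h.small hp.ge hp.le (hp ▸ lh) (side h0 k).1
    have y3 := y2.trans_le (m3 y y1)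
    obtain ⟨δ, d0, hd⟩ := Metric.eventually_nhds_iff.1 ((U_c.tendsto π).eventually
      (gt_mem_nhds (show U a b c d e f π < (U a b c d e f π + W a b c d e f) / 2 by linarith)))
    exact m2 ▸ low_seq L La A h.small m1 ((hp ▸ m1.1).lt_of_ne fun j => y3.ne (j ▸ m2))
      (half_pos d0) (by linarith) fun t p q => (hd (by
        rw [dist_eq, abs_lt]; constructor <;> linarith)).le

end Pool.Agent.MP_b0afd3_gt.H50
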